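import Pool.Agent.Lib_MP_ce2681_lc.Loop
import Pool.Agent.Lib_MP_33ea09_lc.VerP

/-!
# The algorithm runs in polynomial time
-/

set_option linter.unusedSectionVars false
set_option linter.unusedVariables false

namespace Pool.Agent.Dm81

open Pool.Agent.PT81 Pool.Agent.Bx81 Polynomial

noncomputable section

variable {E : Env} {γ α β ι : Type} [Enc E γ] [Enc E α] [Enc E β]

theorem poly_mapConst (l : List ι) {G : ι → γ → β} (h : ∀ k, Poly E (G k)) :
    Poly E (fun c => l.map fun k => G k c) := by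
  induction l with
  | nil => exact Poly.const _
  | cons k l ih => exact Poly.cons (h k) ih

theorem poly_allConst (l : List ι) {G : ι → γ → Bool} (h : ∀ k, Poly E (G k)) :
    Poly E (fun c => l.all fun k => G k c) := by
  induction l with
  | nil => exact Poly.const _
  | cons k l ih => exact Poly.and (h k) ih

theorem poly_anyConst (l : List ι) {G : ι → γ → Bool} (h : ∀ k, Poly E (G k)) :
    Poly E (fun c => l.any fun k => G k c) := by
  induction l with
  | nil => exact Poly.const _
  | cons k l ih => exact Poly.or (h k) ih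

theorem poly_sumConst (l : List ι) {G : ι → γ → ℕ} (h : ∀ k, Poly E (G k)) :
    Poly E (fun c => (l.map fun k => G k c).sum) := by
  induction l with
  | nil => exact Poly.const _
  | cons k l ih => exact (Poly.add (h k) ih).congr fun c => by simp

theorem poly_headD' {f : γ → List α} (a : α) (hf : Poly E f) :
    Poly E (fun c => (f c).headD a) := poly_headD a hf

variable {p : ℕ} [NeZero p]

section vecs

variable {l l' : γ → List ℕ} (hl : Poly E l) (hl' : Poly E l')
include hl

theorem poly_gt (q : Pc (Fin p)) : Poly E (fun c => gt (l c) q) :=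
  poly_nthD 0 hl (Poly.const _)

theorem poly_mk {F : Pc (Fin p) → γ → ℕ} (h : ∀ q, Poly E (F q)) :
    Poly E (fun c => mk (p := p) fun q => F q c) := poly_mapConst _ h

theorem poly_addq (q : Pc (Fin p)) : Poly E (fun c => addq q (l c)) :=
  poly_mk hl fun r => Poly.add (poly_gt hl r) (Poly.const _)

theorem poly_canCat (a b : Pc (Fin p)) : Poly E (fun c => canCat a b (l c)) :=
  poly_allConst _ fun r => Poly.le (Poly.const _) (poly_gt hl r)

theorem poly_catq (a b d : Pc (Fin p)) : Poly E (fun c => catq a b d (l c)) :=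
  poly_mk hl fun r => Poly.add (Poly.sub (Poly.sub (poly_gt hl r) (Poly.const _))
    (Poly.const _)) (Poly.const _)

theorem poly_shv : Poly E (fun c => shv (p := p) (l c)) :=
  poly_mk hl fun r => poly_gt hl _

theorem poly_crv : Poly E (fun c => crv p (l c)) :=
  poly_sumConst _ fun r => Poly.mul (poly_gt hl r) (Poly.const _)

include hl' in
theorem poly_addv : Poly E (fun c => addv (p := p) (l c) (l' c)) :=
  poly_mk hl fun r => Poly.add (poly_gt hl r) (poly_gt hl' r)

end vecs

theorem poly_prb {prs : γ → List Bool} (h : Poly E prs) (i : Fin p) :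
    Poly E (fun c => prb (prs c) i) := poly_nthD false h (Poly.const _)

theorem poly_gdv {prs : γ → List Bool} {l : γ → List ℕ} (h : Poly E prs) (hl : Poly E l) :
    Poly E (fun c => gdv p (prs c) (l c)) := by
  refine Poly.and (poly_anyConst _ fun q => Poly.not (Poly.eq (poly_gt hl q) (Poly.const 0)))
    (poly_allConst _ fun q => Poly.or (Poly.eq (poly_gt hl q) (Poly.const 0))
      (Poly.and (poly_prb h _) ?_))
  cases q.2 with
  | none => exact Poly.const _
  | some j => exact poly_prb h j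

section states

variable {x : γ → List ℕ × ℕ} (hx : Poly E x)
include hx

theorem poly_succs : Poly E (fun c => succs p (x c)) := by
  have h1 : Poly E (fun c => (x c).1) := Poly.fst.comp hx
  have h2 : Poly E (fun c => (x c).2) := Poly.snd.comp hx
  refine Poly.append (Poly.flatMapConst _ fun i => ?_) (Poly.flatMapConst _ fun t => ?_)
  · exact Poly.cons (Poly.pair (poly_addq h1 _) h2.succ) (Poly.cons (Poly.pair (poly_addq h1 _) h2)
      (Poly.cons (Poly.pair (poly_addq h1 _) h2) (Poly.const [])))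
  · exact Poly.ite (poly_canCat h1 _ _) (Poly.cons (Poly.pair (poly_catq h1 _ _ _) h2)
      (Poly.const [])) (Poly.const [])

theorem poly_okS {K B : γ → ℕ} (hK : Poly E K) (hB : Poly E B) :
    Poly E (fun c => okS (K c) (B c) (x c)) := by
  have h1 : Poly E (fun c => (x c).1) := Poly.fst.comp hx
  have h2 : Poly E (fun c => (x c).2) := Poly.snd.comp hx
  exact Poly.and (Poly.all (g := fun q : γ × ℕ => decide (q.2 ≤ K q.1)) h1
    (Poly.le Poly.snd (hK.comp Poly.fst))) (Poly.le h2 hB)

end states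

variable {S S' : γ → List (List ℕ × ℕ)} {K B : γ → ℕ}

theorem poly_stepC (hS : Poly E S) (hK : Poly E K) (hB : Poly E B) :
    Poly E (fun c => stepC p (K c) (B c) (S c)) := by
  refine Poly.ddup (Poly.append hS ?_)
  refine Poly.filter (g := fun q : γ × (List ℕ × ℕ) => okS (K q.1) (B q.1) q.2) ?_ ?_
  · exact Poly.flatMap (g := fun q : γ × (List ℕ × ℕ) => succs p q.2) hS (poly_succs Poly.snd)
  · exact poly_okS Poly.snd (hK.comp Poly.fst) (hB.comp Poly.fst)

/-! ### Sizes -/

theorem esz_list_le [Enc E α] (l : List α) (m : ℕ) (h : ∀ a ∈ l, esz E a ≤ m) :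
    esz E l ≤ 1 + l.length * (1 + m) := by
  induction l with
  | nil => simp
  | cons a l ih =>
    have h1 := ih fun b hb => h b (List.mem_cons_of_mem _ hb)
    have h2 := h a List.mem_cons_self
    rw [esz_cons, List.length_cons, Nat.add_mul]
    omega

variable (p) in
/-- Vectors of the right length within the caps. -/
def Bxd (K B : ℕ) (y : List ℕ × ℕ) : Prop := y.1.length = (QQ p).length ∧ okS K B y = true

theorem bxd_esz {K B : ℕ} {y : List ℕ × ℕ} (h : Bxd p K B y) :
    esz E y ≤ 3 + (QQ p).length * (2 * K + 2) + 2 * B := by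
  obtain ⟨h1, h2⟩ := h
  unfold okS at h2
  rw [Bool.and_eq_true, List.all_eq_true, decide_eq_true_eq] at h2
  have h3 := esz_list_le (E := E) y.1 (2 * K + 1) (fun a ha => by
    have := of_decide_eq_true (h2.1 a ha)
    rw [esz_nat]; omega)
  obtain ⟨a, b⟩ := y
  rw [esz_prod, esz_nat]
  rw [h1] at h3
  have e : 1 + (2 * K + 1) = 2 * K + 2 := by ring
  rw [e] at h3
  simp only at h3 h2 ⊢
  omega

theorem bxd_length {K B : ℕ} {T : List (List ℕ × ℕ)} (hn : T.Nodup) (h : ∀ y ∈ T, Bxd p K B y) :
    T.length ≤ (K + 1) ^ (QQ p).length * (B + 1) := by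
  let f : List ℕ × ℕ → (Fin (QQ p).length → Fin (K + 1)) × Fin (B + 1) := fun y =>
    (fun i => ⟨min ((y.1[i.val]?).getD 0) K, by omega⟩, ⟨min y.2 B, by omega⟩)
  have h1 : (T.map f).Nodup := by
    refine List.Nodup.map_on ?_ hn
    intro y hy z hz hyz
    obtain ⟨hy1, hy2⟩ := h y hy
    obtain ⟨hz1, hz2⟩ := h z hz
    unfold okS at hy2 hz2
    rw [Bool.and_eq_true, List.all_eq_true, decide_eq_true_eq] at hy2 hz2
    rw [Prod.mk.injEq] at hyz
    obtain ⟨h3, h4⟩ := hyz
    refine Prod.ext ?_ ?_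
    · refine List.ext_getElem (by rw [hy1, hz1]) fun i hi1 hi2 => ?_
      have h5 := congrFun h3 ⟨i, by rw [← hy1]; exact hi1⟩
      rw [Fin.mk.injEq] at h5
      simp only [List.getElem?_eq_getElem hi1, List.getElem?_eq_getElem hi2,
        Option.getD_some] at h5
      have h6 := of_decide_eq_true (hy2.1 _ (List.getElem_mem hi1))
      have h7 := of_decide_eq_true (hz2.1 _ (List.getElem_mem hi2))
      omega
    · rw [Fin.mk.injEq] at h4
      omega
  have h2 := h1.length_le_card
  rw [List.length_map, Fintype.card_prod, Fintype.card_fun, Fintype.card_fin, Fintype.card_fin,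
    Fintype.card_fin] at h2
  exact h2

theorem len_addq (q : Pc (Fin p)) (l : List ℕ) : (addq q l).length = (QQ p).length := by
  simp [addq, mk]

theorem succs_len {x y : List ℕ × ℕ} (h : y ∈ succs p x) : y.1.length = (QQ p).length := by
  unfold succs at h
  rw [List.mem_append, List.mem_flatMap, List.mem_flatMap] at h
  rcases h with ⟨i, _, h⟩ | ⟨t, _, h⟩
  · simp only [List.mem_cons, List.not_mem_nil, or_false] at h
    rcases h with rfl | rfl | rfl <;> exact len_addq _ _
  · split at h
    · rw [List.mem_singleton] at h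
      subst h
      simp [catq, mk]
    · simp at h

theorem cloL_mem {K B : ℕ} {S : List (List ℕ × ℕ)} (k : ℕ) :
    ∀ y ∈ (stepC p K B)^[k] S, y ∈ S ∨ Bxd p K B y := by
  induction k with
  | zero => intro y hy; exact Or.inl hy
  | succ k ih =>
    intro y hy
    rw [Function.iterate_succ_apply', mem_stepC] at hy
    rcases hy with hy | ⟨⟨x, _, hy⟩, hok⟩
    · exact ih y hy
    · exact Or.inr ⟨succs_len hy, hok⟩

theorem cloL_esz {K B : ℕ} {S : List (List ℕ × ℕ)} (k : ℕ) :
    esz E ((stepC p K B)^[k] S) ≤ 1 + (esz E S + (K + 1) ^ (QQ p).length * (B + 1)) *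
      (1 + (esz E S + (3 + (QQ p).length * (2 * K + 2) + 2 * B))) := by
  classical
  cases k with
  | zero =>
    have h : esz E S ≤ (esz E S + (K + 1) ^ (QQ p).length * (B + 1)) *
      (1 + (esz E S + (3 + (QQ p).length * (2 * K + 2) + 2 * B))) :=
      le_trans (Nat.le_add_right _ _) (Nat.le_mul_of_pos_right _ (by omega))
    exact le_trans h (Nat.le_add_left _ _)
  | succ k =>
    have hmem := cloL_mem (p := p) (K := K) (B := B) (S := S) (k + 1)
    set T := (stepC p K B)^[k + 1] S with hT
    have hnd : T.Nodup := by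
      rw [hT, Function.iterate_succ_apply']
      exact (ddup_spec _).1
    have h1 : T.length ≤ esz E S + (K + 1) ^ (QQ p).length * (B + 1) := by
      have h2 := List.length_eq_length_filter_add (l := T) (fun y => decide (y ∈ S))
      have h3 : (T.filter fun y => decide (y ∈ S)).length ≤ S.length :=
        (List.Nodup.subperm (hnd.filter _) (fun y hy => by
          have := (List.mem_filter.1 hy).2
          exact of_decide_eq_true this)).length_le
      have h4 : (T.filter fun y => !decide (y ∈ S)).length ≤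
          (K + 1) ^ (QQ p).length * (B + 1) := by
        refine bxd_length (hnd.filter _) fun y hy => ?_
        obtain ⟨h5, h6⟩ := List.mem_filter.1 hy
        have : y ∉ S := by simpa using h6
        exact (hmem y h5).resolve_left this
      have h5 := length_le_esz (E := E) S
      omega
    have h2 := esz_list_le (E := E) T (esz E S + (3 + (QQ p).length * (2 * K + 2) + 2 * B))
      (fun y hy => by
        rcases hmem y hy with h | h
        · have := mem_esz_le (E := E) S y h
          omega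
        · have := bxd_esz (E := E) h
          omega)
    refine h2.trans (Nat.add_le_add_left (Nat.mul_le_mul_right _ h1) _)

theorem poly_cloL {M : γ → ℕ} (hS : Poly E S) (hK : Poly E K) (hB : Poly E B)
    (hM : Poly E M) : Poly E (fun c => cloL p (K c) (B c) (M c) (S c)) := by
  obtain ⟨pS, hpS⟩ := hS.bound
  obtain ⟨pK, hpK⟩ := hK.bound
  obtain ⟨pB, hpB⟩ := hB.bound
  refine Poly.natIter (f := M) (b := S)
    (g := fun x : γ × List (List ℕ × ℕ) => stepC p (K x.1) (B x.1) x.2) hM hS
    (poly_stepC Poly.snd (hK.comp Poly.fst) (hB.comp Poly.fst))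
    (1 + (pS + (pK + 1) ^ (QQ p).length * (pB + 1)) *
      (1 + (pS + (3 + (C (QQ p).length) * (2 * pK + 2) + 2 * pB)))) ?_
  intro c k _
  have h1 := cloL_esz (p := p) (E := E) (K := K c) (B := B c) (S := S c) k
  have h2 := hpS c
  have h3 : K c ≤ pK.eval (esz E c) := by
    have := hpK c; rw [esz_nat] at this; omega
  have h4 : B c ≤ pB.eval (esz E c) := by
    have := hpB c; rw [esz_nat] at this; omega
  refine h1.trans ?_
  simp only [eval_add, eval_mul, eval_pow, eval_one, eval_C, eval_ofNat]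
  gcongr

theorem poly_combL {prs : γ → List Bool} (hp : Poly E prs) (hK : Poly E K) (hB : Poly E B)
    (hS : Poly E S) (hS' : Poly E S') :
    Poly E (fun c => combL p (prs c) (K c) (B c) (S c) (S' c)) := by
  refine Poly.ddup (Poly.filter (g := fun q : γ × (List ℕ × ℕ) => okS (K q.1) (B q.1) q.2) ?_
    (poly_okS Poly.snd (hK.comp Poly.fst) (hB.comp Poly.fst)))
  refine Poly.flatMap (g := fun q : γ × (List ℕ × ℕ) => (S' q.1).flatMap fun b =>
    if gdv p (prs q.1) b.1 then
    [(addv (p := p) q.2.1 (shv (p := p) b.1), q.2.2 + b.2 + crv p b.1)] else []) hS ?_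
  refine Poly.flatMap (g := fun r : (γ × (List ℕ × ℕ)) × (List ℕ × ℕ) =>
    if gdv p (prs r.1.1) r.2.1 then
    [(addv (p := p) r.1.2.1 (shv (p := p) r.2.1), r.1.2.2 + r.2.2 + crv p r.2.1)] else [])
    (hS'.comp Poly.fst) ?_
  have h1 : Poly E (fun r : (γ × (List ℕ × ℕ)) × (List ℕ × ℕ) => r.1.1) := Poly.fst.comp Poly.fst
  have h2 : Poly E (fun r : (γ × (List ℕ × ℕ)) × (List ℕ × ℕ) => r.1.2.1) :=
    Poly.fst.comp (Poly.snd.comp Poly.fst)
  have h3 : Poly E (fun r : (γ × (List ℕ × ℕ)) × (List ℕ × ℕ) => r.1.2.2) :=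
    Poly.snd.comp (Poly.snd.comp Poly.fst)
  have h4 : Poly E (fun r : (γ × (List ℕ × ℕ)) × (List ℕ × ℕ) => r.2.1) := Poly.fst.comp Poly.snd
  have h5 : Poly E (fun r : (γ × (List ℕ × ℕ)) × (List ℕ × ℕ) => r.2.2) := Poly.snd.comp Poly.snd
  exact Poly.ite (poly_gdv (hp.comp h1) h4) (Poly.cons (Poly.pair (poly_addv h2 (poly_shv h4))
    (Poly.add (Poly.add h3 h5) (poly_crv h4))) (Poly.const [])) (Poly.const [])

theorem combL_bxd {prs : List Bool} {K B : ℕ} {S S' : List (List ℕ × ℕ)} :
    (combL p prs K B S S').Nodup ∧ ∀ y ∈ combL p prs K B S S', Bxd p K B y := by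
  refine ⟨(ddup_spec _).1, fun y hy => ?_⟩
  obtain ⟨⟨a, _, b, _, _, rfl⟩, hok⟩ := mem_combL.1 hy
  exact ⟨by simp [addv, mk], hok⟩

/-! ### The loop -/

variable {n s u v : γ → ℕ} {rows : γ → List (List Bool)} {al : γ → Tbl}

theorem poly_prl (hn : Poly E n) (hr : Poly E rows) (hu : Poly E u) (hv : Poly E v) :
    Poly E (fun c => prl p (n c) (rows c) (u c) (v c)) :=
  poly_mapConst _ fun i => poly_ent hr (Poly.add (Poly.mul (Poly.const _) hn) hu) hv

theorem poly_adjb (hn : Poly E n) (hr : Poly E rows) (hu : Poly E u) (hv : Poly E v) :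
    Poly E (fun c => adjb p (n c) (rows c) (u c) (v c)) :=
  Poly.any (g := fun q : γ × Bool => q.2) (poly_prl hn hr hu hv) Poly.snd

theorem poly_nbs (hn : Poly E n) (hr : Poly E rows) (ha : Poly E al) (hv : Poly E v) :
    Poly E (fun c => nbs p (n c) (rows c) (al c) (v c)) :=
  Poly.filter (g := fun q : γ × (ℕ × List (List ℕ × ℕ)) =>
    adjb p (n q.1) (rows q.1) (v q.1) q.2.1) ha
    (poly_adjb (hn.comp Poly.fst) (hr.comp Poly.fst) (hv.comp Poly.fst) (Poly.fst.comp Poly.snd))

theorem poly_pick (hn : Poly E n) (hr : Poly E rows) (hs : Poly E s) (ha : Poly E al) :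
    Poly E (fun c => pick p (n c) (rows c) (s c) (al c)) :=
  Poly.filter (g := fun q : γ × (ℕ × List (List ℕ × ℕ)) => !decide (q.2.1 = s q.1) &&
    decide ((nbs p (n q.1) (rows q.1) (al q.1) q.2.1).length = 1)) ha
    (Poly.and (Poly.not (Poly.eq (Poly.fst.comp Poly.snd) (hs.comp Poly.fst)))
      (Poly.eq (Poly.length (poly_nbs (hn.comp Poly.fst) (hr.comp Poly.fst) (ha.comp Poly.fst)
        (Poly.fst.comp Poly.snd))) (Poly.const 1)))

theorem poly_upd {ev eu : γ → ℕ × List (List ℕ × ℕ)} (hn : Poly E n) (hr : Poly E rows)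
    (hK : Poly E K) (hB : Poly E B) (ha : Poly E al) (hev : Poly E ev) (heu : Poly E eu) :
    Poly E (fun c => upd p (n c) (rows c) (K c) (B c) (al c) (ev c) (eu c)) := by
  have hf : Poly E (fun c => (al c).filter fun f => !decide (f.1 = (ev c).1)) :=
    Poly.filter (g := fun q : γ × (ℕ × List (List ℕ × ℕ)) =>
      !decide (q.2.1 = (ev q.1).1)) ha (Poly.not (Poly.eq (Poly.fst.comp Poly.snd)
        (Poly.fst.comp (hev.comp Poly.fst))))
  have h1 : Poly E (fun q : γ × (ℕ × List (List ℕ × ℕ)) => q.2.1) := Poly.fst.comp Poly.snd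
  have hn1 := hn.comp (Poly.fst (E := E) (α := γ) (β := ℕ × List (List ℕ × ℕ)))
  have hr1 := hr.comp (Poly.fst (E := E) (α := γ) (β := ℕ × List (List ℕ × ℕ)))
  have hK1 := hK.comp (Poly.fst (E := E) (α := γ) (β := ℕ × List (List ℕ × ℕ)))
  have hB1 := hB.comp (Poly.fst (E := E) (α := γ) (β := ℕ × List (List ℕ × ℕ)))
  have he1 := hev.comp (Poly.fst (E := E) (α := γ) (β := ℕ × List (List ℕ × ℕ)))
  have hu1 := heu.comp (Poly.fst (E := E) (α := γ) (β := ℕ × List (List ℕ × ℕ)))
  have hg : Poly E (fun q : γ × (ℕ × List (List ℕ × ℕ)) =>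
      if decide (q.2.1 = (eu q.1).1) then
      (q.2.1, combL p (prl p (n q.1) (rows q.1) q.2.1 (ev q.1).1) (K q.1) (B q.1) q.2.2
      (cloL p (K q.1) (B q.1) (2 * K q.1) (ev q.1).2)) else q.2) :=
    Poly.ite (Poly.eq h1 (Poly.fst.comp hu1)) (Poly.pair h1
      (poly_combL (poly_prl hn1 hr1 h1 (Poly.fst.comp he1)) hK1 hB1 (Poly.snd.comp Poly.snd)
        (poly_cloL (Poly.snd.comp he1) hK1 hB1 (Poly.mul (Poly.const 2) hK1)))) Poly.snd
  refine (Poly.map hf hg).congr fun c => ?_
  unfold upd
  refine List.map_congr_left fun f _ => ?_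
  simp only [decide_eq_true_eq]

theorem poly_stepA (hn : Poly E n) (hr : Poly E rows) (hs : Poly E s) (hK : Poly E K)
    (hB : Poly E B) (ha : Poly E al) :
    Poly E (fun c => stepA p (n c) (rows c) (s c) (K c) (B c) (al c)) := by
  have h1 : Poly E (fun c => (pick p (n c) (rows c) (s c) (al c)).head?) :=
    Poly.head? (poly_pick hn hr hs ha)
  have hn1 := hn.comp (Poly.fst (E := E) (α := γ) (β := ℕ × List (List ℕ × ℕ)))
  have hr1 := hr.comp (Poly.fst (E := E) (α := γ) (β := ℕ × List (List ℕ × ℕ)))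
  have ha1 := ha.comp (Poly.fst (E := E) (α := γ) (β := ℕ × List (List ℕ × ℕ)))
  have hK1 := hK.comp (Poly.fst (E := E) (α := γ) (β := ℕ × List (List ℕ × ℕ)))
  have hB1 := hB.comp (Poly.fst (E := E) (α := γ) (β := ℕ × List (List ℕ × ℕ)))
  have h2 : Poly E (fun q : γ × (ℕ × List (List ℕ × ℕ)) =>
      match (nbs p (n q.1) (rows q.1) (al q.1) q.2.1).head? with
      | none => al q.1
      | some eu => upd p (n q.1) (rows q.1) (K q.1) (B q.1) (al q.1) q.2 eu) := by
    have h3 : Poly E (fun r : (γ × (ℕ × List (List ℕ × ℕ))) × (ℕ × List (List ℕ × ℕ)) =>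
        upd p (n r.1.1) (rows r.1.1) (K r.1.1) (B r.1.1) (al r.1.1) r.1.2 r.2) :=
      poly_upd (hn1.comp Poly.fst) (hr1.comp Poly.fst) (hK1.comp Poly.fst)
      (hB1.comp Poly.fst) (ha1.comp Poly.fst) (Poly.snd.comp Poly.fst) Poly.snd
    refine (Poly.optCases (Poly.head? (poly_nbs (p := p) hn1 hr1 ha1
      (Poly.fst.comp Poly.snd))) ha1 h3).congr fun q => ?_
    cases (nbs p (n q.1) (rows q.1) (al q.1) q.2.1).head? <;> rfl
  refine (Poly.optCases h1 ha h2).congr fun c => ?_
  unfold stepA
  cases (pick p (n c) (rows c) (s c) (al c)).head? with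
  | none => rfl
  | some ev =>
    simp only
    cases (nbs p (n c) (rows c) (al c) ev.1).head? <;> rfl

/-- Bounded tables. -/
def TB (p : ℕ) [NeZero p] (n K B : ℕ) (al : Tbl) : Prop :=
  al.length ≤ n ∧ ∀ e ∈ al, e.1 < n ∧ e.2.Nodup ∧ ∀ y ∈ e.2, Bxd p K B y

theorem TB.step {n s K B : ℕ} {rows : List (List Bool)} {al : Tbl} (h : TB p n K B al) :
    TB p n K B (stepA p n rows s K B al) := by
  unfold stepA
  split
  · exact h
  · rename_i ev _
    split
    · exact h
    · rename_i eu _
      unfold upd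
      refine ⟨?_, ?_⟩
      · rw [List.length_map]
        exact (List.length_filter_le _ _).trans h.1
      · intro e he
        obtain ⟨f, hf, rfl⟩ := List.mem_map.1 he
        have hf' := h.2 f (List.mem_filter.1 hf).1
        split
        · exact ⟨hf'.1, combL_bxd.1, combL_bxd.2⟩
        · exact hf'

theorem TB.init {n K B : ℕ} : TB p n K B (al0 p n) := by
  refine ⟨by simp [al0], fun e he => ?_⟩
  obtain ⟨v, hv, rfl⟩ := List.mem_map.1 he
  refine ⟨List.mem_range.1 hv, List.nodup_singleton _, fun y hy => ?_⟩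
  rw [List.mem_singleton] at hy
  subst hy
  refine ⟨by simp [vec, mk], ?_⟩
  unfold okS vec mk
  simp

theorem TB.esz_le {n K B : ℕ} {al : Tbl} (h : TB p n K B al) :
    esz E al ≤ 1 + n * (1 + (2 + 2 * n + (1 + (K + 1) ^ (QQ p).length * (B + 1) *
      (1 + (3 + (QQ p).length * (2 * K + 2) + 2 * B))))) := by
  refine (esz_list_le al (2 + 2 * n + (1 + (K + 1) ^ (QQ p).length * (B + 1) *
      (1 + (3 + (QQ p).length * (2 * K + 2) + 2 * B)))) fun e he => ?_).trans
      (Nat.add_le_add_left (Nat.mul_le_mul_right _ h.1) _)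
  obtain ⟨h1, h2, h3⟩ := h.2 e he
  obtain ⟨a, T⟩ := e
  rw [esz_prod, esz_nat]
  have h4 := esz_list_le (E := E) T (3 + (QQ p).length * (2 * K + 2) + 2 * B)
    (fun y hy => bxd_esz (h3 y hy))
  have h5 := bxd_length h2 h3
  have h6 := Nat.mul_le_mul_right (1 + (3 + (QQ p).length * (2 * K + 2) + 2 * B)) h5
  simp only at h1 h4 h6 ⊢
  omega

theorem poly_al0 (hn : Poly E n) : Poly E (fun c => al0 p (n c)) :=
  Poly.map (g := fun q : γ × ℕ => (q.2, [(vec (0 : Multiset (Pc (Fin p))), 0)])) hn.range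
    (Poly.pair Poly.snd (Poly.const _))

theorem poly_loop (hn : Poly E n) (hr : Poly E rows) (hs : Poly E s) (hK : Poly E K)
    (hB : Poly E B) :
    Poly E (fun c => (stepA p (n c) (rows c) (s c) (K c) (B c))^[n c] (al0 p (n c))) := by
  obtain ⟨pn, hpn⟩ := hn.bound
  obtain ⟨pK, hpK⟩ := hK.bound
  obtain ⟨pB, hpB⟩ := hB.bound
  refine Poly.natIter (f := n) (b := fun c => al0 p (n c))
    (g := fun x : γ × Tbl => stepA p (n x.1) (rows x.1) (s x.1) (K x.1) (B x.1) x.2) hn
    (poly_al0 hn) (poly_stepA (hn.comp Poly.fst) (hr.comp Poly.fst) (hs.comp Poly.fst)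
      (hK.comp Poly.fst) (hB.comp Poly.fst) Poly.snd)
    (1 + pn * (1 + (2 + 2 * pn + (1 + (pK + 1) ^ (QQ p).length * (pB + 1) *
      (1 + (3 + (C (QQ p).length) * (2 * pK + 2) + 2 * pB)))))) ?_
  intro c k _
  have h0 : TB p (n c) (K c) (B c) ((stepA p (n c) (rows c) (s c) (K c) (B c))^[k]
      (al0 p (n c))) := by
    clear * -
    induction k with
    | zero => exact TB.init
    | succ k ih => rw [Function.iterate_succ_apply']; exact ih.step
  have h1 := h0.esz_le (E := E)
  have h2 : n c ≤ pn.eval (esz E c) := by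
    have := hpn c; rw [esz_nat] at this; omega
  have h3 : K c ≤ pK.eval (esz E c) := by
    have := hpK c; rw [esz_nat] at this; omega
  have h4 : B c ≤ pB.eval (esz E c) := by
    have := hpB c; rw [esz_nat] at this; omega
  refine h1.trans ?_
  simp only [eval_add, eval_mul, eval_pow, eval_one, eval_C, eval_ofNat]
  gcongr

theorem poly_costs (hK : Poly E K) (hB : Poly E B) (ha : Poly E al) :
    Poly E (fun c => costs p (K c) (B c) (al c)) := by
  refine Poly.filter (g := fun q : γ × ℕ => (al q.1).any fun e =>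
    (cloL p (K q.1) (B q.1) (2 * K q.1) e.2).any fun y => decide (y = (tgv p, q.2)))
    hB.succ.range ?_
  refine Poly.any (g := fun r : (γ × ℕ) × (ℕ × List (List ℕ × ℕ)) =>
    (cloL p (K r.1.1) (B r.1.1) (2 * K r.1.1) r.2.2).any fun y =>
      decide (y = (tgv p, r.1.2))) (ha.comp Poly.fst) ?_
  have h1 : Poly E (fun r : (γ × ℕ) × (ℕ × List (List ℕ × ℕ)) => r.1.1) :=
    Poly.fst.comp Poly.fst
  refine Poly.any (g := fun t : ((γ × ℕ) × (ℕ × List (List ℕ × ℕ))) × (List ℕ × ℕ) =>
      decide (t.2 = (tgv p, t.1.1.2))) (poly_cloL (Poly.snd.comp Poly.snd) (hK.comp h1)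
      (hB.comp h1) (Poly.mul (Poly.const 2) (hK.comp h1))) ?_
  exact Poly.eq Poly.snd (Poly.pair (Poly.const _) (Poly.snd.comp (Poly.fst.comp Poly.fst)))

/-! ### Binary output -/

/-- One step of the conversion to binary. -/
def bst (x : ℕ × List Bool) : ℕ × List Bool :=
  if decide (x.1 = 0) then x else (x.1 / 2, decide (x.1 % 2 = 1) :: x.2)

/-- Conversion to binary. -/
def binary (k : ℕ) : List Bool := ((bst^[k] (k, [])).2).reverse

theorem bits_succ (k : ℕ) (hk : k ≠ 0) :
    Nat.bits k = decide (k % 2 = 1) :: Nat.bits (k / 2) := by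
  conv_lhs => rw [← Nat.bit_bodd_div2 k]
  rw [Nat.bits_append_bit _ _ (fun h => ?_)]
  · rw [Nat.div2_val]
    congr 1
    rw [Nat.mod_two_of_bodd]
    cases k.bodd <;> rfl
  · have h1 := Nat.bodd_add_div2 k
    rw [h] at h1
    cases hb : k.bodd
    · rw [hb] at h1; simp at h1; exact absurd h1.symm hk
    · rfl

theorem bst_iter (m : ℕ) : ∀ (k : ℕ) (acc : List Bool), k ≤ m →
    ((bst^[m] (k, acc)).2).reverse = acc.reverse ++ Nat.bits k := by
  induction m with
  | zero =>
    intro k acc h
    have : k = 0 := by omega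
    subst this
    simp
  | succ m ih =>
    intro k acc h
    rw [Function.iterate_succ_apply]
    by_cases hk : k = 0
    · subst hk
      have : bst (0, acc) = (0, acc) := by simp [bst]
      rw [this]
      exact ih 0 acc (by omega)
    · have : bst (k, acc) = (k / 2, decide (k % 2 = 1) :: acc) := by simp [bst, hk]
      rw [this, ih _ _ (by omega), bits_succ k hk]
      simp

theorem binary_eq (k : ℕ) : binary k = Nat.bits k := by
  unfold binary
  rw [bst_iter k k [] le_rfl]
  simp

theorem bst_le (y : ℕ × List Bool) : (bst y).1 ≤ y.1 ∧ (bst y).2.length ≤ y.2.length + 1 := by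
  unfold bst
  split
  · exact ⟨le_rfl, Nat.le_succ _⟩
  · simp only [List.length_cons]
    refine ⟨?_, le_rfl⟩
    omega

theorem bst_size (m k : ℕ) : (bst^[m] (k, [])).1 ≤ k ∧ ((bst^[m] (k, [])).2).length ≤ m := by
  induction m with
  | zero => simp
  | succ m ih =>
    rw [Function.iterate_succ_apply']
    have := bst_le (bst^[m] (k, []))
    omega

theorem poly_binary {f : γ → ℕ} (hf : Poly E f) : Poly E (fun c => Nat.bits (f c)) := by
  obtain ⟨pf, hpf⟩ := hf.bound
  have h1 : Poly E (fun x : γ × (ℕ × List Bool) => bst x.2) := by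
    have h2 : Poly E (fun x : γ × (ℕ × List Bool) => x.2.1) := Poly.fst.comp Poly.snd
    exact Poly.ite (Poly.eq h2 (Poly.const 0)) Poly.snd (Poly.pair
      (Poly.div h2 (Poly.const 2) (fun _ => by omega)) (Poly.cons (Poly.eq
        (Poly.mod h2 (Poly.const 2) (fun _ => by omega)) (Poly.const 1))
        (Poly.snd.comp Poly.snd)))
  have h := Poly.natIter (f := f) (b := fun c => (f c, ([] : List Bool)))
    (g := fun x : γ × (ℕ × List Bool) => bst x.2) hf (Poly.pair hf (Poly.const []))
    h1 (3 + 2 * pf + 4 * pf) (by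
      intro c k hk
      obtain ⟨h3, h4⟩ := bst_size k (f c)
      have h5 : f c ≤ pf.eval (esz E c) := by
        have := hpf c; rw [esz_nat] at this; omega
      have h6 := esz_list_le (E := E) ((bst^[k] (f c, [])).2) 3 (fun b _ => esz_bool b)
      generalize hy : bst^[k] (f c, []) = y at h3 h4 h6
      obtain ⟨y1, y2⟩ := y
      simp only [eval_add, eval_mul, eval_ofNat]
      rw [esz_prod, esz_nat]
      simp only at h3 h4 h6
      omega)
  refine (Poly.reverse (Poly.snd.comp h)).congr fun c => ?_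
  rw [← binary_eq]
  rfl

end

end Pool.Agent.Dm81
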