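import Pool.Agent.Lib_MP_ce2681_lc.Defs
import Pool.Agent.Lib_MP_888b70_co.Tree

/-!
# Extending movements; every instance can be covered
-/

set_option linter.unusedSectionVars false
set_option linter.unusedVariables false

namespace Pool.Agent.Dm81

variable {p : ℕ} (I : PTree p)

/-- Some movement of `τ` steps ends at `v` and covers `U`. -/
def PTree.Rch (τ : ℕ) (v : Fin I.n) (U : Set (Fin I.n)) : Prop :=
  ∃ x, I.Moves τ x ∧ x τ = v ∧ ∀ u ∈ U, ∃ t ≤ τ, x t = u

variable {I}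

theorem PTree.Rch.start : I.Rch 0 I.start {I.start} :=
  ⟨fun _ => I.start, ⟨rfl, fun t ht => absurd ht (Nat.not_lt_zero _)⟩, rfl,
    fun u hu => ⟨0, le_rfl, hu.symm⟩⟩

theorem PTree.Rch.step {τ : ℕ} {v w : Fin I.n} {U : Set (Fin I.n)} (h : I.Rch τ v U)
    (hw : w = v ∨ (I.at τ).Adj v w) : I.Rch (τ + 1) w (insert w U) := by
  obtain ⟨x, ⟨h1, h2⟩, h3, h4⟩ := h
  refine ⟨fun t => if t ≤ τ then x t else w, ⟨by simp [h1], fun t ht => ?_⟩, by simp, ?_⟩
  · by_cases h5 : t < τ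
    · beta_reduce
      rw [if_pos h5.le, if_pos (by omega)]
      exact h2 t h5
    · have : t = τ := by omega
      subst this
      beta_reduce
      rw [if_pos le_rfl, if_neg (by omega), h3]
      exact hw
  · rintro u (rfl | hu)
    · exact ⟨τ + 1, le_rfl, by simp⟩
    · obtain ⟨t, ht, hx⟩ := h4 u hu
      exact ⟨t, by omega, by beta_reduce; rw [if_pos ht]; exact hx⟩

theorem PTree.Rch.mono {τ : ℕ} {v : Fin I.n} {U U' : Set (Fin I.n)} (h : I.Rch τ v U)
    (hU : U' ⊆ U) : I.Rch τ v U' := by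
  obtain ⟨x, h1, h3, h4⟩ := h
  exact ⟨x, h1, h3, fun u hu => h4 u (hU hu)⟩

theorem PTree.Rch.cur {τ : ℕ} {v : Fin I.n} {U : Set (Fin I.n)} (h : I.Rch τ v U) :
    I.Rch τ v (insert v U) := by
  obtain ⟨x, h1, h3, h4⟩ := h
  refine ⟨x, h1, h3, ?_⟩
  rintro u (rfl | hu)
  · exact ⟨τ, le_rfl, h3⟩
  · exact h4 u hu

theorem PTree.Rch.wait {τ : ℕ} {v : Fin I.n} {U : Set (Fin I.n)} (h : I.Rch τ v U) (d : ℕ) :
    I.Rch (τ + d) v U := by
  induction d with
  | zero => exact h
  | succ d ih => exact (ih.step (Or.inl rfl)).mono (Set.subset_insert _ _)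

theorem PTree.Rch.wait' {τ τ' : ℕ} {v : Fin I.n} {U : Set (Fin I.n)} (h : I.Rch τ v U)
    (hle : τ ≤ τ') : I.Rch τ' v U := by
  obtain ⟨d, rfl⟩ := Nat.exists_eq_add_of_le hle
  exact h.wait d

/-- The tree of an instance. -/
def PTree.T (I : PTree p) : SimpleGraph (Fin I.n) := ⨆ i, I.snap i

theorem PTree.Rch.edge {τ : ℕ} {v w : Fin I.n} {U : Set (Fin I.n)} (h : I.Rch τ v U)
    (hw : I.T.Adj v w) : I.Rch (τ + p) w (insert w U) := by
  obtain ⟨j, hj⟩ := SimpleGraph.iSup_adj.1 hw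
  have hp := I.pos
  have hjp := j.2
  obtain ⟨d, hd, hdj⟩ : ∃ d < p, (τ + d) % p = j.val := by
    have hr := Nat.mod_lt τ hp
    by_cases hc : τ % p ≤ j.val
    · refine ⟨j.val - τ % p, by omega, ?_⟩
      rw [Nat.add_mod, Nat.mod_eq_of_lt (a := j.val - τ % p) (by omega)]
      rw [Nat.mod_eq_of_lt (by omega)]
      omega
    · refine ⟨j.val + p - τ % p, by omega, ?_⟩
      rw [Nat.add_mod, Nat.mod_eq_of_lt (a := j.val + p - τ % p) (by omega)]
      have : τ % p + (j.val + p - τ % p) = j.val + p := by omega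
      rw [this, Nat.add_mod_right, Nat.mod_eq_of_lt hjp]
  have h1 : (I.at (τ + d)).Adj v w := by
    unfold PTree.at
    have : (⟨(τ + d) % p, Nat.mod_lt _ I.pos⟩ : Fin p) = j := Fin.ext hdj
    rw [this]
    exact hj
  exact ((h.wait d).step (Or.inr h1)).wait' (by omega)

theorem PTree.Rch.walk {τ : ℕ} {v w : Fin I.n} {U : Set (Fin I.n)} (h : I.Rch τ v U)
    (q : I.T.Walk v w) : I.Rch (τ + q.length * p) w (insert w U) := by
  induction q generalizing τ U with
  | nil => simpa using h.cur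
  | cons hadj q ih =>
    have h1 := ih (h.edge hadj)
    rw [SimpleGraph.Walk.length_cons, Nat.add_mul, Nat.one_mul]
    have : τ + (q.length * p + p) = τ + p + q.length * p := by ring
    rw [this]
    exact h1.mono (Set.insert_subset_insert (Set.subset_insert _ _))

theorem PTree.Rch.to {τ : ℕ} {v : Fin I.n} {U : Set (Fin I.n)} (h : I.Rch τ v U) (w : Fin I.n) :
    I.Rch (τ + I.n * p) w (insert w U) := by
  obtain ⟨q, hq, _⟩ := I.tree.existsUnique_path v w
  have h1 := hq.length_lt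
  rw [Fintype.card_fin] at h1
  exact (h.walk q).wait' (Nat.add_le_add_left (Nat.mul_le_mul_right _ h1.le) _)

theorem rch_all (S : Finset (Fin I.n)) : ∃ v, I.Rch (S.card * (I.n * p)) v S := by
  classical
  induction S using Finset.induction_on with
  | empty => exact ⟨I.start, by simpa using PTree.Rch.start.mono (Set.empty_subset _)⟩
  | insert a S ha ih =>
    obtain ⟨v, hv⟩ := ih
    refine ⟨a, ?_⟩
    rw [Finset.card_insert_of_notMem ha, Nat.add_mul, Nat.one_mul, Finset.coe_insert]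
    exact hv.to a

theorem coverable_iff (τ : ℕ) : I.CoverableBy τ ↔ ∃ v, I.Rch τ v Set.univ := by
  constructor
  · rintro ⟨x, h1, h2⟩
    exact ⟨x τ, x, h1, rfl, fun u _ => h2 u⟩
  · rintro ⟨v, x, h1, _, h2⟩
    exact ⟨x, h1, fun u => h2 u trivial⟩

theorem coverable_bound : I.CoverableBy (I.n * I.n * p) := by
  obtain ⟨v, hv⟩ := rch_all (I := I) Finset.univ
  rw [Finset.card_univ, Fintype.card_fin, Finset.coe_univ, ← Nat.mul_assoc] at hv
  exact (coverable_iff _).2 ⟨v, hv⟩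

theorem coverable_mono {τ τ' : ℕ} (h : I.CoverableBy τ) (hle : τ ≤ τ') : I.CoverableBy τ' := by
  obtain ⟨v, hv⟩ := (coverable_iff _).1 h
  exact (coverable_iff _).2 ⟨v, hv.wait' hle⟩

theorem coverTime_le_iff (τ : ℕ) : I.coverTime ≤ τ ↔ I.CoverableBy τ := by
  have hne : {τ | I.CoverableBy τ}.Nonempty := ⟨_, coverable_bound⟩
  constructor
  · intro h
    exact coverable_mono (Nat.sInf_mem hne) h
  · intro h
    exact Nat.sInf_le h

theorem coverTime_le : I.coverTime ≤ I.n * I.n * p := (coverTime_le_iff _).2 coverable_bound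

end Pool.Agent.Dm81
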