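import Pool.Agent.Lib_MP_ce2681_lc.Bound

/-!
# Caterpillars whose leaf edges are present at few times
-/

set_option linter.unusedSectionVars false
set_option linter.unusedVariables false

namespace Pool.Agent.Dm81

open Pool.Agent.TW81

/-- Presence of the leaf edge `j` at time `τ`. -/
def lp (m L : ℕ) (A : ℕ → ℕ → Bool) (j τ : ℕ) : Bool :=
  (decide (τ % (m + 1) = 0) && decide (1 ≤ τ / (m + 1))) &&
    (A j (τ / (m + 1) - 1) || decide (τ / (m + 1) = L + 2))

/-- Adjacency at time `τ`. -/
def cadj (m L : ℕ) (A : ℕ → ℕ → Bool) (τ u v : ℕ) : Bool :=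
  ((decide (u < m) && decide (v < m)) && (decide (u + 1 = v) || decide (v + 1 = u))) ||
  (((decide (u < m) && decide (v = m + u)) && lp m L A u τ) ||
    ((decide (v < m) && decide (u = m + v)) && lp m L A v τ))

theorem cadj_iff (m L : ℕ) (A : ℕ → ℕ → Bool) (τ u v : ℕ) : cadj m L A τ u v = true ↔
    (u < m ∧ v < m ∧ (u + 1 = v ∨ v + 1 = u)) ∨ (u < m ∧ v = m + u ∧ lp m L A u τ = true) ∨
    (v < m ∧ u = m + v ∧ lp m L A v τ = true) := by
  simp [cadj, and_assoc]

/-- The snapshot. -/
def csnap (m L : ℕ) (A : ℕ → ℕ → Bool) (τ : ℕ) : SimpleGraph (Fin (2 * m)) where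
  Adj u v := cadj m L A τ u v = true
  symm := ⟨fun u v h => by
    rw [cadj_iff] at h ⊢
    rcases h with ⟨h1, h2, h3⟩ | h | h
    · exact Or.inl ⟨h2, h1, h3.symm⟩
    · exact Or.inr (Or.inr h)
    · exact Or.inr (Or.inl h)⟩
  loopless := ⟨fun u h => by
    rw [cadj_iff] at h
    omega⟩

/-- The rooted tree. -/
def crt (m : ℕ) (hm : 0 < m) : RT (Fin (2 * m)) where
  root := ⟨0, by omega⟩
  par v := if v.val < m then ⟨v.val - 1, by omega⟩ else ⟨v.val - m, by omega⟩
  rk v := if v.val < m then v.val else v.val - m + 1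
  lt v hv := by
    have hv0 : v.val ≠ 0 := fun e => hv (Fin.ext e)
    have := v.2
    by_cases h : v.val < m
    · simp only [if_pos h]
      rw [if_pos (by omega)]
      omega
    · simp only [if_neg h]
      rw [if_pos (by omega)]
      omega

theorem crt_adj {m : ℕ} (hm : 0 < m) (u v : Fin (2 * m)) : (crt m hm).graph.Adj u v ↔
    (u.val < m ∧ v.val < m ∧ (u.val + 1 = v.val ∨ v.val + 1 = u.val)) ∨
    (u.val < m ∧ v.val = m + u.val) ∨ (v.val < m ∧ u.val = m + v.val) := by
  have key : ∀ a b : Fin (2 * m), (a ≠ (crt m hm).root ∧ (crt m hm).par a = b) ↔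
      (a.val < m ∧ b.val + 1 = a.val) ∨ (b.val < m ∧ a.val = m + b.val) := by
    intro a b
    have e1 : a ≠ (crt m hm).root ↔ a.val ≠ 0 :=
      not_congr ⟨fun e => congrArg Fin.val e, fun e => Fin.ext e⟩
    have e2 : (crt m hm).par a = b ↔
        (if a.val < m then a.val - 1 else a.val - m) = b.val := by
      constructor
      · intro e
        rw [← e]
        simp only [crt]
        split <;> rfl
      · intro e
        ext
        rw [← e]
        simp only [crt]
        split <;> rfl
    rw [e1, e2]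
    have := a.2
    split <;> omega
  show ((u ≠ (crt m hm).root ∧ (crt m hm).par u = v) ∨
    (v ≠ (crt m hm).root ∧ (crt m hm).par v = u)) ↔ _
  rw [key, key]
  omega

/-- The period. -/
def catP (m L : ℕ) : ℕ := (m + 1) * (L + 3)

theorem sup_csnap {m L : ℕ} (hm : 0 < m) (A : ℕ → ℕ → Bool) :
    (⨆ i : Fin (catP m L), csnap m L A i.val) = (crt m hm).graph := by
  ext u v
  rw [SimpleGraph.iSup_adj, crt_adj]
  have hpos : 0 < catP m L := Nat.mul_pos (by omega) (by omega)
  have hlt : (m + 1) * (L + 2) < catP m L := Nat.mul_lt_mul_of_pos_left (by omega) (by omega)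
  have hlp : ∀ j, lp m L A j ((m + 1) * (L + 2)) = true := by
    intro j
    unfold lp
    rw [Nat.mul_mod_right, Nat.mul_div_cancel_left _ (by omega : 0 < m + 1)]
    simp
  constructor
  · rintro ⟨i, h⟩
    have h : cadj m L A i.val u v = true := h
    rw [cadj_iff] at h
    rcases h with h | ⟨h1, h2, _⟩ | ⟨h1, h2, _⟩
    · exact Or.inl h
    · exact Or.inr (Or.inl ⟨h1, h2⟩)
    · exact Or.inr (Or.inr ⟨h1, h2⟩)
  · rintro (h | ⟨h1, h2⟩ | ⟨h1, h2⟩)
    · exact ⟨⟨0, hpos⟩, (cadj_iff _ _ _ _ _ _).2 (Or.inl h)⟩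
    · exact ⟨⟨_, hlt⟩, (cadj_iff _ _ _ _ _ _).2 (Or.inr (Or.inl ⟨h1, h2, hlp _⟩))⟩
    · exact ⟨⟨_, hlt⟩, (cadj_iff _ _ _ _ _ _).2 (Or.inr (Or.inr ⟨h1, h2, hlp _⟩))⟩

/-- The instance. -/
def catI (m L : ℕ) (hm : 0 < m) (A : ℕ → ℕ → Bool) : PTree (catP m L) where
  n := 2 * m
  snap i := csnap m L A i.val
  start := ⟨0, by omega⟩
  pos := Nat.mul_pos (by omega) (by omega)
  tree := by
    rw [sup_csnap hm]
    exact (crt m hm).isTree

/-- The maximum degree is at most three. -/
theorem cat_degree (m L : ℕ) (hm : 0 < m) (A : ℕ → ℕ → Bool) (v : Fin (2 * m)) :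
    ((⨆ i, (catI m L hm A).snap i).neighborSet v).encard ≤ 3 := by
  have e : (⨆ i, (catI m L hm A).snap i) = (crt m hm).graph := sup_csnap hm A
  rw [e]
  have hv := v.2
  have hsub : (crt m hm).graph.neighborSet v ⊆
      {(if h : v.val + 1 < 2 * m then ⟨v.val + 1, h⟩ else v), (⟨v.val - 1, by omega⟩),
        (if h : v.val < m then ⟨m + v.val, by omega⟩ else ⟨v.val - m, by omega⟩)} := by
    intro w hw
    rw [SimpleGraph.mem_neighborSet, crt_adj] at hw
    simp only [Set.mem_insert_iff, Set.mem_singleton_iff]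
    rcases hw with ⟨h1, h2, h3 | h3⟩ | ⟨h1, h2⟩ | ⟨h1, h2⟩
    · left
      rw [dif_pos (by omega)]
      ext
      exact h3.symm
    · right; left
      ext
      show w.val = v.val - 1
      omega
    · right; right
      rw [dif_pos h1]
      ext
      exact h2
    · right; right
      rw [dif_neg (by omega)]
      ext
      show w.val = v.val - m
      omega
  refine (Set.encard_le_encard hsub).trans ?_
  refine (Set.encard_insert_le _ _).trans ?_
  have h2 := Set.encard_insert_le {(if h : v.val < m then (⟨m + v.val, by omega⟩ : Fin (2 * m))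
    else ⟨v.val - m, by omega⟩)} (⟨v.val - 1, by omega⟩ : Fin (2 * m))
  rw [Set.encard_singleton] at h2
  calc _ ≤ ((1 : ℕ∞) + 1) + 1 := by gcongr
    _ = 3 := by norm_num

/-- The admissible transitions at a slot. -/
def Tr (m : ℕ) (A : ℕ → ℕ → Bool) (x y : Option ℕ) (a : ℕ) : Prop :=
  x = y ∨ (x = none ∧ ∃ j < m, y = some j ∧ A j a = true) ∨
    (y = none ∧ ∃ j < m, x = some j ∧ A j a = true)

/-- Schedules. -/
def Sched (m L : ℕ) (A : ℕ → ℕ → Bool) (h : ℕ → Option ℕ) : Prop :=
  h 0 = none ∧ (∀ a ≤ L, Tr m A (h a) (h (a + 1)) a) ∧ ∀ j < m, ∃ a ≤ L + 1, h a = some j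

section

variable {m L : ℕ} {hm : 0 < m} {A : ℕ → ℕ → Bool}

theorem cat_at {t : ℕ} (ht : t < catP m L) : (catI m L hm A).at t = csnap m L A t := by
  unfold PTree.at
  show csnap m L A (t % catP m L) = _
  rw [Nat.mod_eq_of_lt ht]

theorem lt_catP {t : ℕ} (ht : t ≤ (L + 1) * (m + 1) + 1) : t < catP m L := by
  have : catP m L = (L + 1) * (m + 1) + 2 * (m + 1) := by unfold catP; ring
  omega

/-- The leaf where a vertex is. -/
def lf (m v : ℕ) : Option ℕ := if m ≤ v then some (v - m) else none

theorem sched_of_cover (h : (catI m L hm A).CoverableBy ((L + 1) * (m + 1) + 1)) :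
    ∃ g, Sched m L A g := by
  obtain ⟨x, ⟨h0, h1⟩, h2⟩ := h
  have hx : ∀ t, (x t).val < 2 * m := fun t => (x t).2
  have step : ∀ t < (L + 1) * (m + 1) + 1, (x (t + 1)).val = (x t).val ∨
      cadj m L A t (x t).val (x (t + 1)).val = true := by
    intro t ht
    rcases h1 t ht with h | h
    · exact Or.inl (congrArg Fin.val h)
    · right
      rw [cat_at (lt_catP (by omega))] at h
      exact h
  -- the leaf is constant between the slots
  have cst : ∀ a ≤ L + 1, ∀ r, a * (m + 1) + 1 + r ≤ (L + 1) * (m + 1) + 1 → r ≤ m →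
      lf m (x (a * (m + 1) + 1 + r)) = lf m (x (a * (m + 1) + 1)) := by
    intro a ha r
    induction r with
    | zero => intro _ _; rfl
    | succ r ih =>
      intro h3 h4
      rw [← ih (by omega) (by omega)]
      have hmod : (a * (m + 1) + 1 + r) % (m + 1) ≠ 0 := by
        have : a * (m + 1) + 1 + r = (1 + r) + (m + 1) * a := by ring
        rw [this, Nat.add_mul_mod_self_left, Nat.mod_eq_of_lt (by omega)]
        omega
      have hlp : ∀ j, lp m L A j (a * (m + 1) + 1 + r) = false := by
        intro j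
        unfold lp
        simp [hmod]
      rcases step (a * (m + 1) + 1 + r) (by omega) with h5 | h5
      · have e : a * (m + 1) + 1 + (r + 1) = a * (m + 1) + 1 + r + 1 := by ring
        rw [e, h5]
      · have e : a * (m + 1) + 1 + (r + 1) = a * (m + 1) + 1 + r + 1 := by ring
        rw [e]
        rw [cadj_iff, hlp, hlp] at h5
        unfold lf
        have : (x (a * (m + 1) + 1 + r)).val < m ∧
            (x (a * (m + 1) + 1 + r + 1)).val < m := by
          rcases h5 with h5 | h5 | h5
          · exact ⟨h5.1, h5.2.1⟩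
          · simp at h5
          · simp at h5
        rw [if_neg (by omega), if_neg (by omega)]
  have x0 : (x 0).val = 0 := congrArg Fin.val h0
  have hlp0 : ∀ j, lp m L A j 0 = false := by
    intro j
    unfold lp
    simp
  have hg0 : lf m (x 1) = none := by
    unfold lf
    rw [if_neg]
    rcases step 0 (by omega) with h5 | h5
    · have : (x 1).val = (x 0).val := h5
      omega
    · rw [cadj_iff, hlp0, hlp0] at h5
      have h5 : ((x 0).val < m ∧ (x 1).val < m ∧ _) ∨ _ := h5
      rcases h5 with h5 | h5 | h5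
      · have := h5.2.1; omega
      · simp at h5
      · simp at h5
  refine ⟨fun a => lf m (x (a * (m + 1) + 1)), by simpa using hg0, ?_, ?_⟩
  · intro a ha
    have hle : (a + 1) * (m + 1) ≤ (L + 1) * (m + 1) := Nat.mul_le_mul_right _ (by omega)
    have e1 : a * (m + 1) + 1 + m = (a + 1) * (m + 1) := by ring
    have h3 := cst a (by omega) m (by omega) le_rfl
    rw [e1] at h3
    beta_reduce
    rw [← h3]
    have hmod : ((a + 1) * (m + 1)) % (m + 1) = 0 := Nat.mul_mod_left _ _
    have hdiv : ((a + 1) * (m + 1)) / (m + 1) = a + 1 := Nat.mul_div_cancel _ (by omega)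
    have hlp : ∀ j, lp m L A j ((a + 1) * (m + 1)) = A j a := by
      intro j
      unfold lp
      rw [hmod, hdiv]
      have h8 : ¬ (a = L + 1) := by omega
      simp [h8]
    rcases step ((a + 1) * (m + 1)) (by omega) with h5 | h5
    · left; rw [h5]
    · rw [cadj_iff, hlp, hlp] at h5
      unfold lf
      rcases h5 with ⟨h5, h6, _⟩ | ⟨h5, h6, h7⟩ | ⟨h5, h6, h7⟩
      · left; rw [if_neg (by omega), if_neg (by omega)]
      · right; left
        refine ⟨by rw [if_neg (by omega)], (x ((a + 1) * (m + 1))).val, h5, ?_, h7⟩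
        rw [h6, if_pos (by omega)]
        congr 1
        omega
      · right; right
        refine ⟨by rw [if_neg (by omega)], (x ((a + 1) * (m + 1) + 1)).val, h5, ?_, h7⟩
        rw [h6, if_pos (by omega)]
        congr 1
        omega
  · intro j hj
    obtain ⟨t, ht, hxt⟩ := h2 ⟨m + j, by show m + j < 2 * m; omega⟩
    have hxt : (x t).val = m + j := congrArg Fin.val hxt
    have ht0 : t ≠ 0 := by
      rintro rfl
      omega
    obtain ⟨t', rfl⟩ := Nat.exists_eq_succ_of_ne_zero ht0
    have hdm := Nat.div_add_mod t' (m + 1)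
    have hr := Nat.mod_lt t' (by omega : 0 < m + 1)
    have ha : t' / (m + 1) ≤ L + 1 := by
      have : t' ≤ (L + 1) * (m + 1) := by omega
      calc t' / (m + 1) ≤ ((L + 1) * (m + 1)) / (m + 1) := Nat.div_le_div_right this
        _ = L + 1 := Nat.mul_div_cancel _ (by omega)
    refine ⟨t' / (m + 1), ha, ?_⟩
    have e1 : (t' / (m + 1)) * (m + 1) + 1 + t' % (m + 1) = t'.succ := by
      rw [Nat.mul_comm]; omega
    have h3 := cst (t' / (m + 1)) ha (t' % (m + 1)) (by rw [e1]; exact ht) (by omega)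
    rw [e1] at h3
    beta_reduce
    rw [← h3, hxt]
    unfold lf
    rw [if_pos (by omega)]
    congr 1
    omega

/-- Spine moves. -/
theorem spine_up {τ i : ℕ} {U : Set (Fin (2 * m))} (hi : i < 2 * m)
    (h : (catI m L hm A).Rch τ ⟨i, hi⟩ U) (d : ℕ) (hd : i + d < m)
    (ht : τ + d ≤ (L + 1) * (m + 1) + 1) :
    (catI m L hm A).Rch (τ + d) ⟨i + d, by show i + d < 2 * m; omega⟩ U := by
  induction d with
  | zero => exact h
  | succ d ih =>
    have h1 := ih (by omega) (by omega)
    refine (h1.step (w := ⟨i + (d + 1), by show i + (d + 1) < 2 * m; omega⟩)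
      (Or.inr ?_)).mono (Set.subset_insert _ _)
    rw [cat_at (lt_catP (by omega))]
    exact (cadj_iff _ _ _ _ _ _).2 (Or.inl ⟨by show i + d < m; omega,
      by show i + (d + 1) < m; omega, Or.inl rfl⟩)

theorem spine_down {τ i : ℕ} {U : Set (Fin (2 * m))} (d : ℕ) (hd : i + d < m)
    (h : (catI m L hm A).Rch τ ⟨i + d, by show i + d < 2 * m; omega⟩ U)
    (ht : τ + d ≤ (L + 1) * (m + 1) + 1) :
    (catI m L hm A).Rch (τ + d) ⟨i, by show i < 2 * m; omega⟩ U := by
  induction d generalizing τ with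
  | zero => exact h
  | succ d ih =>
    have h1 : (catI m L hm A).Rch (τ + 1) ⟨i + d, by show i + d < 2 * m; omega⟩ U := by
      refine (h.step (w := ⟨i + d, by show i + d < 2 * m; omega⟩)
        (Or.inr ?_)).mono (Set.subset_insert _ _)
      rw [cat_at (lt_catP (by omega))]
      exact (cadj_iff _ _ _ _ _ _).2 (Or.inl ⟨by show i + (d + 1) < m; omega,
        by show i + d < m; omega, Or.inr rfl⟩)
    have h2 := ih (by omega) h1 (by omega)
    have e : τ + (d + 1) = τ + 1 + d := by ring
    rw [e]; exact h2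

theorem spine_move {τ i j : ℕ} {U : Set (Fin (2 * m))} (hi : i < m) (hj : j < m)
    (h : (catI m L hm A).Rch τ ⟨i, by show i < 2 * m; omega⟩ U)
    (ht : τ + m ≤ (L + 1) * (m + 1) + 1) :
    (catI m L hm A).Rch (τ + m) ⟨j, by show j < 2 * m; omega⟩ U := by
  rcases Nat.le_total i j with hij | hij
  · obtain ⟨d, rfl⟩ := Nat.exists_eq_add_of_le hij
    exact (spine_up (by omega) h d hj (by omega)).wait' (by omega)
  · obtain ⟨d, rfl⟩ := Nat.exists_eq_add_of_le hij
    exact (spine_down d hi h (by omega)).wait' (by omega)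

theorem cover_of_sched {g : ℕ → Option ℕ} (hg : Sched m L A g) :
    (catI m L hm A).CoverableBy ((L + 1) * (m + 1) + 1) := by
  obtain ⟨g0, g1, g2⟩ := hg
  have key : ∀ a ≤ L + 1, ∃ (v : ℕ) (hv : v < 2 * m) (U : Set (Fin (2 * m))),
      (catI m L hm A).Rch (a * (m + 1) + 1) ⟨v, hv⟩ U ∧ (g a = none → v < m) ∧
      (∀ j, g a = some j → j < m ∧ v = m + j) ∧
      ∀ b ≤ a, ∀ j (hj : j < m), g b = some j →
        (⟨j, by omega⟩ : Fin (2 * m)) ∈ U ∧ (⟨m + j, by omega⟩ : Fin (2 * m)) ∈ U := by
    intro a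
    induction a with
    | zero =>
      intro _
      refine ⟨0, by omega, {⟨0, by omega⟩}, ?_, fun _ => hm, ?_, ?_⟩
      · have := (PTree.Rch.start (I := catI m L hm A)).wait 1
        rw [Nat.zero_add] at this
        rw [Nat.zero_mul, Nat.zero_add]
        exact this
      · intro j hj; rw [g0] at hj; simp at hj
      · intro b hb j _ hj
        have : b = 0 := by omega
        subst this
        rw [g0] at hj; simp at hj
    | succ a ih =>
      intro ha
      obtain ⟨v, hv, U, h1, h2, h3, h4⟩ := ih (by omega)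
      have hle : (a + 1) * (m + 1) ≤ (L + 1) * (m + 1) := Nat.mul_le_mul_right _ (by omega)
      have e1 : a * (m + 1) + 1 + m = (a + 1) * (m + 1) := by ring
      have hmod : ((a + 1) * (m + 1)) % (m + 1) = 0 := Nat.mul_mod_left _ _
      have hdiv : ((a + 1) * (m + 1)) / (m + 1) = a + 1 := Nat.mul_div_cancel _ (by omega)
      have hlp : ∀ j, A j a = true → lp m L A j ((a + 1) * (m + 1)) = true := by
        intro j hj
        unfold lp
        rw [hmod, hdiv]
        simp [hj]
      have hat : (catI m L hm A).at ((a + 1) * (m + 1)) = csnap m L A ((a + 1) * (m + 1)) :=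
        cat_at (lt_catP (by omega))
      rcases g1 a (by omega) with h5 | ⟨h5, j, hj, h6, h7⟩ | ⟨h5, j, hj, h6, h7⟩
      · refine ⟨v, hv, U, ?_, fun h => h2 (h5 ▸ h), fun j hj => h3 j (h5 ▸ hj), ?_⟩
        · have := h1.wait (m + 1)
          have e : a * (m + 1) + 1 + (m + 1) = (a + 1) * (m + 1) + 1 := by ring
          rwa [e] at this
        · intro b hb j hj hgj
          rcases Nat.lt_or_ge b (a + 1) with hb' | hb'
          · exact h4 b (by omega) j hj hgj
          · have : b = a + 1 := by omega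
            subst this
            exact h4 a le_rfl j hj (h5 ▸ hgj)
      · have h8 := spine_move (h2 h5) hj h1 (by omega)
        rw [e1] at h8
        have h9 := (h8.cur).step (w := ⟨m + j, by show m + j < 2 * m; omega⟩) (Or.inr (by
          rw [hat]
          exact (cadj_iff _ _ _ _ _ _).2 (Or.inr (Or.inl ⟨hj, rfl, hlp j h7⟩))))
        refine ⟨m + j, by omega, _, h9, fun h => ?_, fun j' hj' => ?_, ?_⟩
        · rw [h] at h6; simp at h6
        · rw [h6] at hj'
          injection hj' with hj'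
          subst hj'
          exact ⟨hj, rfl⟩
        · intro b hb j' hj' hgj
          rcases Nat.lt_or_ge b (a + 1) with hb' | hb'
          · obtain ⟨h10, h11⟩ := h4 b (by omega) j' hj' hgj
            exact ⟨Or.inr (Or.inr h10), Or.inr (Or.inr h11)⟩
          · have : b = a + 1 := by omega
            subst this
            rw [h6] at hgj
            injection hgj with hgj
            subst hgj
            exact ⟨Or.inr (Or.inl rfl), Or.inl rfl⟩
      · obtain ⟨_, rfl⟩ := h3 j h6
        have h8 := h1.wait m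
        rw [e1] at h8
        have h9 := h8.step (w := ⟨j, by show j < 2 * m; omega⟩) (Or.inr (by
          rw [hat]
          exact (cadj_iff _ _ _ _ _ _).2 (Or.inr (Or.inr ⟨hj, rfl, hlp j h7⟩))))
        refine ⟨j, by omega, _, h9, fun _ => hj, fun j' hj' => ?_, ?_⟩
        · rw [h5] at hj'; simp at hj'
        · intro b hb j' hj' hgj
          rcases Nat.lt_or_ge b (a + 1) with hb' | hb'
          · obtain ⟨h10, h11⟩ := h4 b (by omega) j' hj' hgj
            exact ⟨Or.inr h10, Or.inr h11⟩
          · have : b = a + 1 := by omega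
            subst this
            rw [h5] at hgj; simp at hgj
  obtain ⟨v, hv, U, h1, _, _, h4⟩ := key (L + 1) le_rfl
  refine (coverable_iff _).2 ⟨⟨v, hv⟩, h1.mono ?_⟩
  rintro ⟨u, hu⟩ _
  have hu : u < 2 * m := hu
  by_cases hum : u < m
  · obtain ⟨a, ha, hga⟩ := g2 u hum
    exact (h4 a ha u hum hga).1
  · obtain ⟨a, ha, hga⟩ := g2 (u - m) (by omega)
    have := (h4 a ha (u - m) (by omega) hga).2
    have e : (⟨m + (u - m), by omega⟩ : Fin (2 * m)) = ⟨u, hu⟩ := by
      ext; show m + (u - m) = u; omega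
    rwa [e] at this

theorem cat_iff : (catI m L hm A).coverTime ≤ (L + 1) * (m + 1) + 1 ↔ ∃ g, Sched m L A g := by
  rw [coverTime_le_iff]
  exact ⟨sched_of_cover, fun ⟨g, hg⟩ => cover_of_sched hg⟩

end

end Pool.Agent.Dm81
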