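import Mathlib.Data.Multiset.MapFold
import Mathlib.Data.Multiset.Count
import Mathlib.Data.Finset.Basic
import Mathlib.Logic.Relation
import Mathlib.Tactic

/-!
# Chains of steps and elimination of a leaf
-/

set_option linter.unusedSectionVars false
set_option linter.unusedVariables false

namespace Pool.Agent.Dm81

/-- Steps of a walk: moves (or waits), jumps provided by a gadget, and the final stop. -/
inductive St (V Z : Type)
  | mv (u v : V) (i : Z)
  | jp (v : V) (i : Z) (o : Option Z)
  | sp (v : V) (i : Z)

/-- Pieces: from a residue to a residue, or to the end of the walk. -/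
abbrev Pc (Z : Type) := Z × Option Z

section

variable {V Z : Type} [DecidableEq V] (nx : Z → Z) (pr : Z → V → V → Prop)

/-- Where a step begins. -/
def St.src : St V Z → V × Z
  | .mv u _ i => (u, i)
  | .jp v i _ => (v, i)
  | .sp v i => (v, i)

/-- Where a step ends. -/
def St.tgt : St V Z → Option (V × Z)
  | .mv _ v i => some (v, nx i)
  | .jp v _ o => o.map fun j => (v, j)
  | .sp _ _ => none

/-- A list of steps is a chain from `o` to the end of the walk. -/
def Chain : List (St V Z) → Option (V × Z) → Prop
  | [], o => o = none
  | st :: l, o => o = some st.src ∧ Chain l (st.tgt nx)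

/-- The jump of a step at `v`. -/
def jv (v : V) : St V Z → Option (Pc Z)
  | .mv _ _ _ => none
  | .jp x i o => if x = v then some (i, o) else none
  | .sp _ _ => none

/-- The multiset of jumps at `v`. -/
def J (v : V) (l : List (St V Z)) : Multiset (Pc Z) := (l.filterMap (jv v) : List (Pc Z))

/-- The piece of a step inside `v`. -/
def inn (v : V) : St V Z → Option (Pc Z)
  | .mv x y i => if x = v ∧ y = v then some (i, some (nx i)) else none
  | .jp x i o => if x = v then some (i, o) else none
  | .sp x i => if x = v then some (i, none) else none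

/-- The multiset of the pieces inside `v`. -/
def I (v : V) (l : List (St V Z)) : Multiset (Pc Z) := (l.filterMap (inn nx v) : List (Pc Z))

/-- The cost of a step. -/
def St.cost : St V Z → ℕ
  | .mv _ _ _ => 1
  | _ => 0

/-- The cost of a list of steps. -/
def cM (l : List (St V Z)) : ℕ := (l.map St.cost).sum

/-- The waits at `v`. -/
def wv (v : V) : St V Z → Option Z
  | .mv x y i => if x = v ∧ y = v then some i else none
  | _ => none

/-- The stops at `v`. -/
def sv (v : V) : St V Z → Option Z
  | .sp x i => if x = v then some i else none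
  | _ => none

def W (v : V) (l : List (St V Z)) : Multiset Z := (l.filterMap (wv v) : List Z)
def T (v : V) (l : List (St V Z)) : Multiset Z := (l.filterMap (sv v) : List Z)

/-- Admissible steps within `X`. -/
def Ok (X : Finset V) : St V Z → Prop
  | .mv u v i => u ∈ X ∧ v ∈ X ∧ (u = v ∨ pr i u v)
  | .jp v _ _ => v ∈ X
  | .sp v _ => v ∈ X

/-- The vertex `w` is visited. -/
def Vis (w : V) (l : List (St V Z)) : Prop := ∃ st ∈ l, st.src.1 = w

/-- Concatenation of two pieces. -/
def Cat (A B : Multiset (Pc Z)) : Prop :=
  ∃ i j k R, A = (i, some j) ::ₘ (j, k) ::ₘ R ∧ B = (i, k) ::ₘ R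

/-- Repeated concatenation. -/
abbrev Cs : Multiset (Pc Z) → Multiset (Pc Z) → Prop := Relation.ReflTransGen Cat

theorem Cat.add {A B : Multiset (Pc Z)} (h : Cat A B) (R : Multiset (Pc Z)) :
    Cat (A + R) (B + R) := by
  obtain ⟨i, j, k, S, rfl, rfl⟩ := h
  exact ⟨i, j, k, S + R, by simp, by simp⟩

theorem Cs.add {A B : Multiset (Pc Z)} (h : Cs A B) (R : Multiset (Pc Z)) :
    Cs (A + R) (B + R) := by
  induction h with
  | refl => exact .refl
  | tail _ h ih => exact ih.tail (h.add R)

theorem Cs.cons {A B : Multiset (Pc Z)} (h : Cs A B) (x : Pc Z) : Cs (x ::ₘ A) (x ::ₘ B) := by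
  have := h.add {x}
  rwa [add_comm, Multiset.singleton_add, add_comm, Multiset.singleton_add] at this

theorem Cs.join {A B : Multiset (Pc Z)} {i j : Z} {k : Option Z} (h : Cs A ((j, k) ::ₘ B)) :
    Cs ((i, some j) ::ₘ A) ((i, k) ::ₘ B) :=
  (h.cons (i, some j)).tail ⟨i, j, k, B, rfl, rfl⟩

/-- The piece of a wait, of a stop, and the empty piece. -/
def wP (i : Z) : Pc Z := (i, some (nx i))
def sP (i : Z) : Pc Z := (i, none)
def eP (i : Z) : Pc Z := (i, some i)

/-- The inner piece of an excursion that leaves the parent at residue `d.1`. -/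
def dI (d : Pc Z) : Pc Z := (nx d.1, d.2)
/-- The jump of the parent given by an excursion. -/
def dS (d : Pc Z) : Pc Z := (d.1, d.2.map nx)
/-- The number of edge crossings of an excursion. -/
def dC (d : Pc Z) : ℕ := if d.2.isSome then 2 else 1

variable {nx pr}

@[simp] theorem J_nil (v : V) : J v ([] : List (St V Z)) = 0 := rfl
@[simp] theorem J_mv (v x y : V) (i : Z) (l : List (St V Z)) : J v (.mv x y i :: l) = J v l := rfl
@[simp] theorem J_sp (v x : V) (i : Z) (l : List (St V Z)) : J v (.sp x i :: l) = J v l := rfl
theorem J_jp (v x : V) (i : Z) (o : Option Z) (l : List (St V Z)) :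
    J v (.jp x i o :: l) = if x = v then (i, o) ::ₘ J v l else J v l := by
  unfold J
  split <;> rename_i h <;> simp [jv, h]
@[simp] theorem J_jp_self (v : V) (i : Z) (o : Option Z) (l : List (St V Z)) :
    J v (.jp v i o :: l) = (i, o) ::ₘ J v l := by simp [J_jp]
theorem J_jp_ne {v x : V} (h : x ≠ v) (i : Z) (o : Option Z) (l : List (St V Z)) :
    J v (.jp x i o :: l) = J v l := by simp [J_jp, h]
theorem J_append (v : V) (l m : List (St V Z)) : J v (l ++ m) = J v l + J v m := by
  unfold J
  rw [List.filterMap_append]; rfl

@[simp] theorem cM_nil : cM ([] : List (St V Z)) = 0 := rfl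
@[simp] theorem cM_cons (s : St V Z) (l : List (St V Z)) : cM (s :: l) = s.cost + cM l := by
  simp [cM]
theorem cM_append (l m : List (St V Z)) : cM (l ++ m) = cM l + cM m := by simp [cM]

@[simp] theorem I_nil (v : V) : I nx v ([] : List (St V Z)) = 0 := rfl
theorem I_cons_some {v : V} {s : St V Z} {x : Pc Z} (h : inn nx v s = some x)
    (l : List (St V Z)) : I nx v (s :: l) = x ::ₘ I nx v l := by
  simp [I, h]
theorem I_cons_none {v : V} {s : St V Z} (h : inn nx v s = none)
    (l : List (St V Z)) : I nx v (s :: l) = I nx v l := by
  simp [I, h]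

@[simp] theorem W_nil (v : V) : W v ([] : List (St V Z)) = 0 := rfl
theorem W_cons_some {v : V} {s : St V Z} {x : Z} (h : wv v s = some x)
    (l : List (St V Z)) : W v (s :: l) = x ::ₘ W v l := by
  simp [W, h]
theorem W_cons_none {v : V} {s : St V Z} (h : wv v s = none)
    (l : List (St V Z)) : W v (s :: l) = W v l := by
  simp [W, h]

theorem vis_cons {w : V} {s : St V Z} {l : List (St V Z)} :
    Vis w (s :: l) ↔ s.src.1 = w ∨ Vis w l := by
  simp [Vis]

/-- What is kept when the steps at `v` are contracted. -/
structure Kept (nx : Z → Z) (pr : Z → V → V → Prop) (X : Finset V) (u v : V)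
    (l l' : List (St V Z)) (D : Multiset (Pc Z)) : Prop where
  ok : ∀ st ∈ l', Ok pr (X.erase v) st
  J₁ : ∀ w, w ≠ u → w ≠ v → J w l' = J w l
  J₂ : J u l' = J u l + D.map (dS nx)
  vis : ∀ w, w ≠ v → Vis w l → Vis w l'
  val : ∀ d ∈ D, pr d.1 u v ∧ ∀ j, d.2 = some j → pr j v u

theorem Kept.cons {X : Finset V} {u v : V} {l l' : List (St V Z)}
    {D : Multiset (Pc Z)} (h : Kept nx pr X u v l l' D) {s : St V Z} (hs : s.src.1 ≠ v)
    (hok : Ok pr (X.erase v) s) : Kept nx pr X u v (s :: l) (s :: l') D where
  ok st hst := by
    rcases List.mem_cons.1 hst with rfl | hst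
    · exact hok
    · exact h.ok st hst
  J₁ w h1 h2 := by
    cases s with
    | mv x y i => simpa using h.J₁ w h1 h2
    | sp x i => simpa using h.J₁ w h1 h2
    | jp x i o => simp only [J_jp, h.J₁ w h1 h2]
  J₂ := by
    cases s with
    | mv x y i => simpa using h.J₂
    | sp x i => simpa using h.J₂
    | jp x i o =>
      simp only [J_jp, h.J₂]
      split
      · rw [Multiset.cons_add]
      · rfl
  vis w h1 h2 := by
    rcases vis_cons.1 h2 with h2 | h2
    · exact vis_cons.2 (Or.inl h2)
    · exact vis_cons.2 (Or.inr (h.vis w h1 h2))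
  val := h.val

theorem Kept.skip {X : Finset V} {u v : V} {l l' : List (St V Z)}
    {D : Multiset (Pc Z)} (h : Kept nx pr X u v l l' D) {s : St V Z} (hs : s.src.1 = v)
    (huv : u ≠ v) : Kept nx pr X u v (s :: l) l' D where
  ok := h.ok
  J₁ w h1 h2 := by
    rw [h.J₁ w h1 h2]
    cases s with
    | mv x y i => rfl
    | sp x i => rfl
    | jp x i o =>
      have : x = v := hs
      rw [J_jp, if_neg (by rw [this]; exact fun e => h2 e.symm)]
  J₂ := by
    rw [h.J₂]
    cases s with
    | mv x y i => rfl
    | sp x i => rfl
    | jp x i o =>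
      have : x = v := hs
      rw [J_jp, if_neg (by rw [this]; exact fun e => huv e.symm)]
  vis w h1 h2 := by
    rcases vis_cons.1 h2 with h2 | h2
    · exact absurd (h2.symm.trans hs) h1
    · exact h.vis w h1 h2
  val := h.val

theorem chain_none {l : List (St V Z)} (h : Chain nx l none) : l = [] := by
  cases l with
  | nil => rfl
  | cons s l => simp [Chain] at h

/-- Contracting the steps at a leaf `v` whose only neighbour is `u`. -/
theorem parse {X : Finset V} {u v : V} (hu : u ∈ X) (huv : u ≠ v)
    (hnb : ∀ w ∈ X, ∀ i, (pr i v w ∨ pr i w v) → w = u ∨ w = v) (l : List (St V Z)) :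
    ∀ o, Chain nx l o → (∀ st ∈ l, Ok pr X st) →
    ((∀ i, o ≠ some (v, i)) → ∃ (D : Multiset (Pc Z)) (E : Multiset Z) (l' : List (St V Z)),
      Chain nx l' o ∧ Kept nx pr X u v l l' D ∧
      Cs (I nx v l + E.map eP) (D.map (dI nx)) ∧ E.card ≤ D.card ∧
      cM l' + (W v l).card + (D.map dC).sum = cM l ∧ (Vis v l → D ≠ 0)) ∧
    (∀ i, o = some (v, i) → ∃ (k : Option Z) (D : Multiset (Pc Z)) (E : Multiset Z)
      (l' : List (St V Z)), Chain nx l' (k.map fun j => (u, nx j)) ∧ (∀ j, k = some j → pr j v u) ∧
      Kept nx pr X u v l l' D ∧ Cs (I nx v l + E.map eP) ((i, k) ::ₘ D.map (dI nx)) ∧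
      E.card ≤ D.card + 1 ∧
      cM l' + (W v l).card + (D.map dC).sum + (if k.isSome then 1 else 0) = cM l) := by
  induction l with
  | nil =>
    intro o ho _
    have ho : o = none := ho
    subst ho
    refine ⟨fun _ => ⟨0, 0, [], rfl, ⟨by simp, by simp, by simp, by simp [Vis], by simp⟩,
      .refl, le_rfl, by simp, by simp [Vis]⟩, fun i hi => by simp at hi⟩
  | cons s l ih =>
    rintro o ⟨rfl, hc⟩ hok
    have hok' : ∀ st ∈ l, Ok pr X st := fun st h => hok st (List.mem_cons_of_mem _ h)
    have hs := hok s List.mem_cons_self
    obtain ⟨iha, ihb⟩ := ih _ hc hok'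
    cases s with
    | mv x y i =>
      obtain ⟨hx, hy, hxy⟩ := hs
      by_cases hxv : x = v
      · subst hxv
        refine ⟨fun h => absurd rfl (h i), fun i' hi' => ?_⟩
        have : i = i' := by simpa [St.src] using hi'
        subst this
        by_cases hyv : y = x
        · subst hyv
          obtain ⟨k, D, E, l', h1, h2, h3, h4, h5, h6⟩ := ihb (nx i) rfl
          refine ⟨k, D, E, l', h1, h2, h3.skip rfl huv, ?_, h5, ?_⟩
          · rw [I_cons_some (x := (i, some (nx i))) (by simp [inn]), Multiset.cons_add]
            exact h4.join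
          · rw [W_cons_some (x := i) (by simp [wv]), Multiset.card_cons, cM_cons]
            simp only [St.cost]
            omega
        · have hyu : y = u := by
            rcases hnb y hy i (Or.inl (hxy.resolve_left fun e => hyv e.symm)) with h | h
            · exact h
            · exact absurd h hyv
          subst hyu
          obtain ⟨D, E, l', h1, h3, h4, h5, h6, _⟩ := iha (by
            intro j hj
            simp only [St.tgt, Option.some.injEq, Prod.mk.injEq] at hj
            exact hyv hj.1)
          refine ⟨some i, D, i ::ₘ E, l', h1, ?_, h3.skip rfl huv, ?_, ?_, ?_⟩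
          · intro j hj
            have : i = j := by simpa using hj
            subst this
            exact hxy.resolve_left fun e => hyv e.symm
          · rw [I_cons_none (by simp [inn, hyv]), Multiset.map_cons, Multiset.add_cons]
            exact h4.cons _
          · rw [Multiset.card_cons]; omega
          · rw [W_cons_none (by simp [wv, hyv]), cM_cons]
            simp only [St.cost, Option.isSome_some, if_true]
            omega
      · refine ⟨fun _ => ?_, fun i' hi' => by
          exfalso
          simp only [St.src, Option.some.injEq, Prod.mk.injEq] at hi'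
          exact hxv hi'.1⟩
        by_cases hyv : y = v
        · subst hyv
          have hpr : pr i x y := hxy.resolve_left hxv
          have hxu : x = u := by
            rcases hnb x hx i (Or.inr hpr) with h | h
            · exact h
            · exact absurd h hxv
          subst hxu
          obtain ⟨k, D, E, l', h1, h2, h3, h4, h5, h6⟩ := ihb (nx i) rfl
          refine ⟨(i, k) ::ₘ D, E, .jp x i (k.map nx) :: l', ⟨rfl, ?_⟩, ⟨?_, ?_, ?_, ?_, ?_⟩, ?_,
            ?_, ?_, ?_⟩
          · simp only [St.tgt, Option.map_map]
            exact h1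
          · intro st hst
            rcases List.mem_cons.1 hst with rfl | hst
            · exact Finset.mem_erase.2 ⟨huv, hu⟩
            · exact h3.ok st hst
          · intro w hw1 hw2
            rw [J_jp_ne (fun e => hw1 e.symm), h3.J₁ w hw1 hw2]
            rfl
          · rw [J_jp_self, h3.J₂, Multiset.map_cons]
            simp [dS]
          · intro w hw1 hw2
            rcases vis_cons.1 hw2 with hw2 | hw2
            · exact vis_cons.2 (Or.inl hw2)
            · exact vis_cons.2 (Or.inr (h3.vis w hw1 hw2))
          · intro d hd
            rcases Multiset.mem_cons.1 hd with rfl | hd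
            · exact ⟨hpr, h2⟩
            · exact h3.val d hd
          · rw [I_cons_none (by simp [inn, hxv]), Multiset.map_cons]
            exact h4
          · rw [Multiset.card_cons]; exact h5
          · rw [W_cons_none (by simp [wv, hxv]), cM_cons, cM_cons, Multiset.map_cons,
              Multiset.sum_cons]
            have e1 : dC (i, k) = 1 + (if k.isSome then 1 else 0) := by
              cases k <;> rfl
            rw [e1]
            simp only [St.cost]
            omega
          · intro _ h0
            exact Multiset.cons_ne_zero h0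
        · obtain ⟨D, E, l', h1, h3, h4, h5, h6, h7⟩ := iha (by
            intro j hj
            simp only [St.tgt, Option.some.injEq, Prod.mk.injEq] at hj
            exact hyv hj.1)
          refine ⟨D, E, .mv x y i :: l', ⟨rfl, h1⟩, h3.cons hxv ⟨Finset.mem_erase.2 ⟨hxv, hx⟩,
            Finset.mem_erase.2 ⟨hyv, hy⟩, hxy⟩, ?_, h5, ?_, ?_⟩
          · rw [I_cons_none (by simp [inn, hxv])]
            exact h4
          · rw [W_cons_none (by simp [wv, hxv]), cM_cons, cM_cons]
            omega
          · intro h
            rcases vis_cons.1 h with h | h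
            · exact absurd h hxv
            · exact h7 h
    | jp x i o =>
      by_cases hxv : x = v
      · subst hxv
        refine ⟨fun h => absurd rfl (h i), fun i' hi' => ?_⟩
        have : i = i' := by simpa [St.src] using hi'
        subst this
        cases o with
        | none =>
          obtain ⟨D, E, l', h1, h3, h4, h5, h6, _⟩ := iha (by simp [St.tgt])
          refine ⟨none, D, E, l', h1, by simp, h3.skip rfl huv, ?_, by omega, ?_⟩
          · rw [I_cons_some (x := (i, none)) (by simp [inn]), Multiset.cons_add]
            exact h4.cons _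
          · rw [W_cons_none (by simp [wv]), cM_cons]
            simp [St.cost]
            omega
        | some j =>
          obtain ⟨k, D, E, l', h1, h2, h3, h4, h5, h6⟩ := ihb j rfl
          refine ⟨k, D, E, l', h1, h2, h3.skip rfl huv, ?_, h5, ?_⟩
          · rw [I_cons_some (x := (i, some j)) (by simp [inn]), Multiset.cons_add]
            exact h4.join
          · rw [W_cons_none (by simp [wv]), cM_cons]
            simp only [St.cost]
            omega
      · refine ⟨fun _ => ?_, fun i' hi' => by
          exfalso
          simp only [St.src, Option.some.injEq, Prod.mk.injEq] at hi'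
          exact hxv hi'.1⟩
        obtain ⟨D, E, l', h1, h3, h4, h5, h6, h7⟩ := iha (by
            intro j hj
            cases o with
            | none => simp [St.tgt] at hj
            | some o =>
              simp only [St.tgt, Option.map_some, Option.some.injEq, Prod.mk.injEq] at hj
              exact hxv hj.1)
        refine ⟨D, E, .jp x i o :: l', ⟨rfl, h1⟩, h3.cons hxv (Finset.mem_erase.2 ⟨hxv, hs⟩),
          ?_, h5, ?_, ?_⟩
        · rw [I_cons_none (by simp [inn, hxv])]
          exact h4
        · rw [W_cons_none (by simp [wv]), cM_cons, cM_cons]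
          omega
        · intro h
          rcases vis_cons.1 h with h | h
          · exact absurd h hxv
          · exact h7 h
    | sp x i =>
      by_cases hxv : x = v
      · subst hxv
        refine ⟨fun h => absurd rfl (h i), fun i' hi' => ?_⟩
        have : i = i' := by simpa [St.src] using hi'
        subst this
        obtain ⟨D, E, l', h1, h3, h4, h5, h6, _⟩ := iha (by simp [St.tgt])
        refine ⟨none, D, E, l', h1, by simp, h3.skip rfl huv, ?_, by omega, ?_⟩
        · rw [I_cons_some (x := (i, none)) (by simp [inn]), Multiset.cons_add]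
          exact h4.cons _
        · rw [W_cons_none (by simp [wv]), cM_cons]
          simp [St.cost]
          omega
      · refine ⟨fun _ => ?_, fun i' hi' => by
          exfalso
          simp only [St.src, Option.some.injEq, Prod.mk.injEq] at hi'
          exact hxv hi'.1⟩
        obtain ⟨D, E, l', h1, h3, h4, h5, h6, h7⟩ := iha (by simp [St.tgt])
        refine ⟨D, E, .sp x i :: l', ⟨rfl, h1⟩, h3.cons hxv (Finset.mem_erase.2 ⟨hxv, hs⟩),
          ?_, h5, ?_, ?_⟩
        · rw [I_cons_none (by simp [inn, hxv])]
          exact h4
        · rw [W_cons_none (by simp [wv]), cM_cons, cM_cons]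
          omega
        · intro h
          rcases vis_cons.1 h with h | h
          · exact absurd h hxv
          · exact h7 h

end

end Pool.Agent.Dm81
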