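import Mathlib.Computability.TuringMachine.Computable
import Mathlib.Combinatorics.SimpleGraph.Acyclic
import Mathlib.Data.Nat.Bits
import Mathlib.Data.List.FinRange
import Mathlib.Data.Set.Card
import Pool.Agent.Lib_MP_33ea09_lc.Defs

/-!
# Periodic temporal trees and their foremost coverage
-/

namespace Pool.Agent.Dm81

open Turing

/-- A periodic temporal tree with period `p ≥ 1` on the vertices `0, …, n - 1`, with a start vertex:
`snap i` is the set of edges present at the times that are `i` modulo `p`. The union of the
snapshots is a tree, so every edge of this tree is present at least once per period. -/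
structure PTree (p : ℕ) where
  n : ℕ
  snap : Fin p → SimpleGraph (Fin n)
  start : Fin n
  pos : 0 < p
  tree : (⨆ i, snap i).IsTree

variable {p : ℕ}

/-- The snapshot at time `t`. -/
def PTree.at (I : PTree p) (t : ℕ) : SimpleGraph (Fin I.n) := I.snap ⟨t % p, Nat.mod_lt _ I.pos⟩

/-- `x t` is the position of the agent at time `t`, for `t = 0, …, τ`: it begins at the start
vertex, and at each time it waits or crosses an edge that is present at this time. -/
def PTree.Moves (I : PTree p) (τ : ℕ) (x : ℕ → Fin I.n) : Prop :=
  x 0 = I.start ∧ ∀ t < τ, x (t + 1) = x t ∨ (I.at t).Adj (x t) (x (t + 1))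

/-- Some movement covers every vertex by time `τ`. -/
def PTree.CoverableBy (I : PTree p) (τ : ℕ) : Prop :=
  ∃ x, I.Moves τ x ∧ ∀ v, ∃ t ≤ τ, x t = v

/-- The cover time: the least `τ` such that some movement covers every vertex by time `τ`. -/
noncomputable def PTree.coverTime (I : PTree p) : ℕ := sInf {τ | I.CoverableBy τ}

open Classical in
/-- An instance as a string: for each snapshot the rows of its adjacency matrix, and at the end the
row with a single `true` at the start vertex; every row is followed by the separator `none`. -/
noncomputable def PTree.encode (I : PTree p) : List (Option Bool) :=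
  (List.finRange p).flatMap (fun i => (List.finRange I.n).flatMap fun u =>
    (List.finRange I.n).map (fun v => some (decide ((I.snap i).Adj u v))) ++ [none]) ++
  ((List.finRange I.n).map (fun v => some (decide (v = I.start))) ++ [none])

/-- The decision problem DMVP for one agent in the periodic class, with the period part of the
input, on trees of maximum degree at most `Δ` (all trees if `Δ = ⊤`): a string is a yes-instance
if it is the encoding of a periodic temporal tree followed by a number `t` in binary, and the
cover time is at most `t`. -/
def DMVP (Δ : ℕ∞) : Set (List (Option Bool)) :=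
  {w | ∃ (p : ℕ) (I : PTree p) (t : ℕ), w = I.encode ++ (Nat.bits t).map some ∧
    (∀ v, ((⨆ i, I.snap i).neighborSet v).encard ≤ Δ) ∧ I.coverTime ≤ t}

end Pool.Agent.Dm81
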