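import Pool.Agent.Lib_MP_ce2681_lc.Chain
import Mathlib.Algebra.BigOperators.Group.Finset.Basic
import Mathlib.Algebra.Order.BigOperators.Group.Finset

/-!
# The elimination step of the dynamic programme
-/

set_option linter.unusedSectionVars false
set_option linter.unusedVariables false

namespace Pool.Agent.Dm81

open Finset

section

/-- `n` steps of a relation. -/
inductive RN {α : Type} (R : α → α → Prop) : ℕ → α → α → Prop
  | refl (x : α) : RN R 0 x x
  | tail {n : ℕ} {x y z : α} : RN R n x y → R y z → RN R (n + 1) x z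

theorem RN.trans {α : Type} {R : α → α → Prop} {n m : ℕ} {x y z : α} (h : RN R n x y)
    (h' : RN R m y z) : RN R (n + m) x z := by
  induction h' with
  | refl => exact h
  | tail _ h2 ih => exact (ih h).tail h2

variable {V Z : Type} [DecidableEq V] {nx : Z → Z} {pr : Z → V → V → Prop}

/-- States: pieces and a cost. -/
abbrev Sta (Z : Type) := Multiset (Pc Z) × ℕ

variable (nx) in
/-- The moves between states. -/
inductive Rst : Sta Z → Sta Z → Prop
  | wait (i : Z) (N : Multiset (Pc Z)) (c : ℕ) : Rst (N, c) (wP nx i ::ₘ N, c + 1)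
  | emp (i : Z) (N : Multiset (Pc Z)) (c : ℕ) : Rst (N, c) (eP i ::ₘ N, c)
  | stp (i : Z) (N : Multiset (Pc Z)) (c : ℕ) : Rst (N, c) (sP i ::ₘ N, c)
  | cat (i j : Z) (k : Option Z) (N : Multiset (Pc Z)) (c : ℕ) :
      Rst ((i, some j) ::ₘ (j, k) ::ₘ N, c) ((i, k) ::ₘ N, c)

variable (nx) in
/-- The moves between states, restricted by `cap`. -/
def RC (cap : Sta Z → Prop) (x y : Sta Z) : Prop := Rst nx x y ∧ cap y

/-! ### Forward -/

section forward

variable {cap : Sta Z → Prop} {K B : ℕ}
  (hcap : ∀ x : Sta Z, x.1.card ≤ K → x.2 ≤ B → cap x)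

include hcap

theorem addMany (f : Z → Pc Z) (δ : ℕ)
    (hf : ∀ i N c, Rst nx (N, c) (f i ::ₘ N, c + δ)) (w : Multiset Z) (N : Multiset (Pc Z))
    (k : ℕ) (h1 : N.card + w.card ≤ K) (h2 : k + δ * w.card ≤ B) :
    RN (RC nx cap) w.card (N, k) (N + w.map f, k + δ * w.card) := by
  induction w using Multiset.induction_on with
  | empty => simpa using RN.refl _
  | cons i w ih =>
    rw [Multiset.card_cons] at h1 h2
    have h3 := ih (by omega) (by rw [Nat.mul_succ] at h2; omega)
    rw [Multiset.card_cons]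
    refine h3.tail ⟨?_, hcap _ ?_ h2⟩
    · rw [Multiset.map_cons, Multiset.add_cons, Nat.mul_succ, ← Nat.add_assoc]
      exact hf i _ _
    · simp only [Multiset.card_add, Multiset.card_map, Multiset.card_cons]
      omega

theorem catMany {A C : Multiset (Pc Z)} (h : Cs A C) (k : ℕ) (h1 : A.card ≤ K) (h2 : k ≤ B) :
    C.card ≤ A.card ∧ RN (RC nx cap) (A.card - C.card) (A, k) (C, k) := by
  induction h with
  | refl => simpa using RN.refl _
  | @tail b c _ h ih =>
    obtain ⟨i, j, l, R, rfl, rfl⟩ := h
    obtain ⟨h3, h4⟩ := ih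
    rw [Multiset.card_cons, Multiset.card_cons] at h3 h4
    rw [Multiset.card_cons]
    refine ⟨by omega, ?_⟩
    have : A.card - (R.card + 1) = (A.card - (R.card + 1 + 1)) + 1 := by omega
    rw [this]
    refine h4.tail ⟨.cat _ _ _ _ _, hcap _ ?_ h2⟩
    simp only [Multiset.card_cons]
    omega

theorem forward {N C : Multiset (Pc Z)} {w t e : Multiset Z} {k : ℕ}
    (h1 : N.card + w.card + t.card + e.card ≤ K) (h2 : k + w.card ≤ B)
    (h : Cs (N + w.map (wP nx) + t.map sP + e.map eP) C) :
    ∃ n ≤ 2 * K, RN (RC nx cap) n (N, k) (C, k + w.card) := by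
  have a1 := addMany (nx := nx) hcap (wP nx) 1 (fun i N c => .wait i N c) w N k (by omega)
    (by omega)
  rw [Nat.one_mul] at a1
  have a2 := addMany (nx := nx) hcap sP 0 (fun i N c => .stp i N c) t (N + w.map (wP nx))
    (k + w.card) (by simp; omega) (by omega)
  have a3 := addMany (nx := nx) hcap eP 0 (fun i N c => .emp i N c) e
    (N + w.map (wP nx) + t.map sP) (k + w.card) (by simp; omega) (by omega)
  rw [Nat.zero_mul, Nat.add_zero] at a2 a3
  have a4 := catMany (nx := nx) hcap h (k + w.card) (by simp; omega) (by omega)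
  refine ⟨_, ?_, ((a1.trans a2).trans a3).trans a4.2⟩
  simp only [Multiset.card_add, Multiset.card_map]
  omega

end forward

/-! ### Backward: expanding jumps -/

theorem chain_replace {p q r : List (St V Z)} {st : St V Z} {o : Option (V × Z)}
    (h : Chain nx (p ++ st :: q) o)
    (hr : Chain nx q (st.tgt nx) → Chain nx (r ++ q) (some st.src)) :
    Chain nx (p ++ (r ++ q)) o := by
  induction p generalizing o with
  | nil =>
    obtain ⟨rfl, h⟩ := h
    exact hr h
  | cons a p ih =>
    obtain ⟨rfl, h⟩ := h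
    exact ⟨rfl, ih h⟩

theorem mem_J {v : V} {l : List (St V Z)} {x : Pc Z} (h : x ∈ J v l) :
    St.jp v x.1 x.2 ∈ l := by
  unfold J at h
  rw [Multiset.mem_coe, List.mem_filterMap] at h
  obtain ⟨s, hs, h⟩ := h
  cases s with
  | mv x y i => simp [jv] at h
  | sp x i => simp [jv] at h
  | jp y i o =>
    simp only [jv] at h
    split at h
    · rename_i hy
      subst hy
      injection h with h
      subst h
      exact hs
    · simp at h

theorem vis_append {w : V} {l m : List (St V Z)} : Vis w (l ++ m) ↔ Vis w l ∨ Vis w m := by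
  simp [Vis, or_and_right, exists_or]

/-- Replacing a jump by a list of steps. -/
theorem replace {X : Finset V} {v : V} {i : Z} {k : Option Z} {l : List (St V Z)}
    {o : Option (V × Z)} (hc : Chain nx l o) (hok : ∀ st ∈ l, Ok pr X st) (hm : (i, k) ∈ J v l)
    (r : List (St V Z))
    (hr : ∀ q, Chain nx q (k.map fun j => (v, j)) → Chain nx (r ++ q) (some (v, i)))
    (hr2 : ∀ st ∈ r, Ok pr X st)
    (hr3 : ∀ q, Chain nx q (k.map fun j => (v, j)) → Vis v (r ++ q)) :
    ∃ l', Chain nx l' o ∧ (∀ st ∈ l', Ok pr X st) ∧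
      J v l' + {(i, k)} = J v l + J v r ∧ (∀ w, w ≠ v → J w l' = J w l + J w r) ∧
      cM l' = cM l + cM r ∧ ∀ w, (Vis w l ∨ Vis w r) → Vis w l' := by
  obtain ⟨p, q, rfl⟩ := List.append_of_mem (mem_J hm)
  have hq : Chain nx q (k.map fun j => (v, j)) := by
    clear hok hm
    induction p generalizing o with
    | nil => exact hc.2
    | cons a p ih => exact ih hc.2
  refine ⟨p ++ (r ++ q), chain_replace hc (fun _ => hr q hq), ?_, ?_, ?_, ?_, ?_⟩
  · intro st hst
    rcases List.mem_append.1 hst with h | h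
    · exact hok st (List.mem_append_left _ h)
    · rcases List.mem_append.1 h with h | h
      · exact hr2 st h
      · exact hok st (List.mem_append_right _ (List.mem_cons_of_mem _ h))
  · simp only [J_append, J_jp_self]
    rw [← Multiset.singleton_add (i, k)]
    abel
  · intro w hw
    simp only [J_append, J_jp_ne (fun e => hw e.symm)]
    abel
  · simp only [cM_append, cM_cons, St.cost]
    omega
  · intro w hw
    rw [vis_append, vis_append]
    rcases hw with hw | hw
    · rw [vis_append, vis_cons] at hw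
      rcases hw with hw | hw | hw
      · exact Or.inl hw
      · have hw : v = w := hw
        subst hw
        exact Or.inr (vis_append.1 (hr3 q hq))
      · exact Or.inr (Or.inr hw)
    · exact Or.inr (Or.inl hw)

theorem vis_of_chain {l : List (St V Z)} {v : V} {i : Z} (h : Chain nx l (some (v, i))) :
    Vis v l := by
  cases l with
  | nil => simp [Chain] at h
  | cons s l =>
    obtain ⟨h, _⟩ := h
    refine ⟨s, List.mem_cons_self, ?_⟩
    rw [Option.some.injEq] at h
    rw [← h]

/-- Undoing a move between states. -/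
theorem expand_one {X : Finset V} {v : V} (hv : v ∈ X) {x y : Sta Z} (h : Rst nx x y)
    {l : List (St V Z)} {o : Option (V × Z)} (hc : Chain nx l o) (hok : ∀ st ∈ l, Ok pr X st)
    (hJ : J v l = y.1) :
    ∃ l', Chain nx l' o ∧ (∀ st ∈ l', Ok pr X st) ∧ J v l' = x.1 ∧
      (∀ w, w ≠ v → J w l' = J w l) ∧ cM l' + x.2 = cM l + y.2 ∧ ∀ w, Vis w l → Vis w l' := by
  have fin : ∀ (i : Z) (k : Option Z) (r : List (St V Z)) (l' : List (St V Z))
      (A B : Multiset (Pc Z)), J v l = (i, k) ::ₘ A → J v r + A = B →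
      J v l' + {(i, k)} = J v l + J v r → J v l' = B := by
    intro i k r l' A B h1 h2 h3
    rw [h1, ← Multiset.singleton_add, add_comm (J v l')] at h3
    have h4 : {(i, k)} + J v l' = {(i, k)} + (A + J v r) := by rw [h3]; abel
    rw [add_left_cancel h4, ← h2]; abel
  cases h with
  | wait i N c =>
    obtain ⟨l', h1, h2, h3, h4, h5, h6⟩ := replace (i := i) (k := some (nx i)) hc hok
      (by rw [hJ]; exact Multiset.mem_cons_self _ _) [.mv v v i]
      (fun q hq => ⟨rfl, hq⟩) (by simp [Ok, hv]) (fun q hq => vis_cons.2 (Or.inl rfl))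
    refine ⟨l', h1, h2, fin _ _ _ _ N _ hJ (by simp) h3, fun w hw => by rw [h4 w hw]; simp, ?_,
      fun w hw => h6 w (Or.inl hw)⟩
    rw [h5]; simp [St.cost]; omega
  | emp i N c =>
    obtain ⟨l', h1, h2, h3, h4, h5, h6⟩ := replace (i := i) (k := some i) hc hok
      (by rw [hJ]; exact Multiset.mem_cons_self _ _) []
      (fun q hq => hq) (by simp) (fun q hq => vis_of_chain hq)
    refine ⟨l', h1, h2, fin _ _ _ _ N _ hJ (by simp) h3, fun w hw => by rw [h4 w hw]; simp, ?_,
      fun w hw => h6 w (Or.inl hw)⟩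
    rw [h5]; simp
  | stp i N c =>
    obtain ⟨l', h1, h2, h3, h4, h5, h6⟩ := replace (i := i) (k := none) hc hok
      (by rw [hJ]; exact Multiset.mem_cons_self _ _) [.sp v i]
      (fun q hq => ⟨rfl, hq⟩) (by simp [Ok, hv]) (fun q hq => vis_cons.2 (Or.inl rfl))
    refine ⟨l', h1, h2, fin _ _ _ _ N _ hJ (by simp) h3, fun w hw => by rw [h4 w hw]; simp, ?_,
      fun w hw => h6 w (Or.inl hw)⟩
    rw [h5]; simp [St.cost]
  | cat i j k N c =>
    obtain ⟨l', h1, h2, h3, h4, h5, h6⟩ := replace (i := i) (k := k) hc hok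
      (by rw [hJ]; exact Multiset.mem_cons_self _ _) [.jp v i (some j), .jp v j k]
      (fun q hq => ⟨rfl, rfl, hq⟩) (by simp [Ok, hv]) (fun q hq => vis_cons.2 (Or.inl rfl))
    refine ⟨l', h1, h2, fin _ _ _ _ N _ hJ (by simp) h3, fun w hw => ?_, ?_,
      fun w hw => h6 w (Or.inl hw)⟩
    · rw [h4 w hw, J_jp_ne (fun e => hw e.symm), J_jp_ne (fun e => hw e.symm)]; simp
    · rw [h5]; simp [St.cost]

theorem expand_many {X : Finset V} {v : V} (hv : v ∈ X) {cap : Sta Z → Prop} {n : ℕ}
    {x y : Sta Z} (h : RN (RC nx cap) n x y) :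
    ∀ {l : List (St V Z)} {o : Option (V × Z)}, Chain nx l o → (∀ st ∈ l, Ok pr X st) →
    J v l = y.1 →
    ∃ l', Chain nx l' o ∧ (∀ st ∈ l', Ok pr X st) ∧ J v l' = x.1 ∧
      (∀ w, w ≠ v → J w l' = J w l) ∧ cM l' + x.2 = cM l + y.2 ∧ ∀ w, Vis w l → Vis w l' := by
  induction h with
  | refl x => intro l o hc hok hJ; exact ⟨l, hc, hok, hJ, fun _ _ => rfl, rfl, fun _ h => h⟩
  | tail _ h ih =>
    intro l o hc hok hJ
    obtain ⟨l₁, a1, a2, a3, a4, a5, a6⟩ := expand_one hv h.1 hc hok hJ
    obtain ⟨l₂, b1, b2, b3, b4, b5, b6⟩ := ih a1 a2 a3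
    exact ⟨l₂, b1, b2, b3, fun w hw => by rw [b4 w hw, a4 w hw], by omega,
      fun w hw => b6 w (a6 w hw)⟩

/-- Expanding the jumps of the parent that stand for excursions. -/
theorem expand_exc {X : Finset V} {u v : V} (hu : u ∈ X) (hv : v ∈ X) (huv : u ≠ v)
    (D : Multiset (Pc Z)) (hD : ∀ d ∈ D, pr d.1 u v ∧ ∀ j, d.2 = some j → pr j v u) :
    ∀ {l : List (St V Z)} {o : Option (V × Z)} {N : Multiset (Pc Z)}, Chain nx l o →
    (∀ st ∈ l, Ok pr X st) → J u l = N + D.map (dS nx) →
    ∃ l', Chain nx l' o ∧ (∀ st ∈ l', Ok pr X st) ∧ J u l' = N ∧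
      J v l' = J v l + D.map (dI nx) ∧
      (∀ w, w ≠ u → w ≠ v → J w l' = J w l) ∧ cM l' = cM l + (D.map dC).sum ∧
      ∀ w, (Vis w l ∨ (w = v ∧ D ≠ 0)) → Vis w l' := by
  induction D using Multiset.induction_on with
  | empty =>
    intro l o N hc hok hJ
    refine ⟨l, hc, hok, by simpa using hJ, by simp, fun _ _ _ => rfl, by simp, ?_⟩
    rintro w (h | h)
    · exact h
    · exact absurd rfl h.2
  | cons d D ih =>
    intro l o N hc hok hJ
    obtain ⟨i, k⟩ := d
    obtain ⟨hp1, hp2⟩ := hD (i, k) (Multiset.mem_cons_self _ _)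
    have hm : (i, k.map nx) ∈ J u l := by
      rw [hJ, Multiset.map_cons]
      exact Multiset.mem_add.2 (Or.inr (Multiset.mem_cons_self _ _))
    set r : List (St V Z) := .mv u v i :: .jp v (nx i) k :: (match k with
      | none => []
      | some j => [.mv v u j]) with hr
    obtain ⟨l₁, a1, a2, a3, a4, a5, a6⟩ := replace (pr := pr) hc hok hm r (by
        intro q hq
        refine ⟨rfl, rfl, ?_⟩
        cases k with
        | none => exact hq
        | some j => exact ⟨rfl, hq⟩) (by
        intro st hst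
        cases k with
        | none =>
          simp only [hr, List.mem_cons, List.not_mem_nil, or_false] at hst
          rcases hst with rfl | rfl
          · exact ⟨hu, hv, Or.inr hp1⟩
          · exact hv
        | some j =>
          simp only [hr, List.mem_cons, List.not_mem_nil, or_false] at hst
          rcases hst with rfl | rfl | rfl
          · exact ⟨hu, hv, Or.inr hp1⟩
          · exact hv
          · exact ⟨hv, hu, Or.inr (hp2 j rfl)⟩) (fun q hq => vis_cons.2 (Or.inl rfl))
    have hru : J u r = 0 := by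
      cases k <;> simp [hr, J_jp_ne (fun e => huv e.symm)]
    have hrv : J v r = {(nx i, k)} := by
      cases k <;> simp [hr]
    have hrw : ∀ w, w ≠ v → J w r = 0 := by
      intro w hw
      cases k <;> simp [hr, J_jp_ne (fun e => hw e.symm)]
    have hrc : cM r = dC (i, k) := by
      cases k <;> simp [hr, St.cost, dC]
    have hJ₁ : J u l₁ = N + D.map (dS nx) := by
      rw [hru, hJ, Multiset.map_cons, add_zero] at a3
      have e1 : dS nx (i, k) = (i, k.map nx) := rfl
      rw [e1, ← Multiset.singleton_add] at a3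
      have : {(i, k.map nx)} + J u l₁ = {(i, k.map nx)} + (N + D.map (dS nx)) := by
        rw [add_comm, a3]; abel
      exact add_left_cancel this
    obtain ⟨l₂, b1, b2, b3, b4, b5, b6, b7⟩ :=
      ih (fun d hd => hD d (Multiset.mem_cons_of_mem hd)) a1 a2 hJ₁
    refine ⟨l₂, b1, b2, b3, ?_, ?_, ?_, ?_⟩
    · rw [b4, a4 v (fun e => huv e.symm), hrv, Multiset.map_cons]
      have e1 : dI nx (i, k) = (nx i, k) := rfl
      rw [e1, ← Multiset.singleton_add]
      abel
    · intro w hw1 hw2
      rw [b5 w hw1 hw2, a4 w hw1, hrw w hw2, add_zero]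
    · rw [b6, a5, hrc, Multiset.map_cons, Multiset.sum_cons]
      omega
    · rintro w (hw | ⟨rfl, _⟩)
      · exact b7 w (Or.inl (a6 w (Or.inl hw)))
      · refine b7 w (Or.inl (a6 w (Or.inr ?_)))
        exact ⟨.jp w (nx i) k, by simp [hr], rfl⟩

/-! ### Solutions -/

variable (nx pr) in
/-- There is a chain from `a` that visits all of `X`, uses exactly the jumps `N` and costs `c`. -/
def Sol (X : Finset V) (N : V → Multiset (Pc Z)) (a : V × Z) (c : ℕ) : Prop :=
  ∃ l, Chain nx l (some a) ∧ (∀ st ∈ l, Ok pr X st) ∧ (∀ v ∈ X, J v l = N v) ∧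
    (∀ v ∈ X, Vis v l) ∧ cM l = c

variable (nx pr) in
/-- The cost `c` is achievable with gadgets chosen from `A`. -/
def Ach (X : Finset V) (A : V → Set (Sta Z)) (a : V × Z) (c : ℕ) : Prop :=
  ∃ (N : V → Multiset (Pc Z)) (k : V → ℕ), (∀ v ∈ X, (N v, k v) ∈ A v) ∧
    ∃ c', Sol nx pr X N a c' ∧ c = c' + ∑ v ∈ X, k v

variable (nx) in
/-- The states reachable from `S`. -/
def Clo (cap : Sta Z → Prop) (M : ℕ) (S : Set (Sta Z)) : Set (Sta Z) :=
  {y | ∃ x ∈ S, ∃ n ≤ M, RN (RC nx cap) n x y}

variable (nx pr) in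
/-- Combining the states of a vertex `u` with the reachable states of a child `v`. -/
def Comb (cap : Sta Z → Prop) (u v : V) (S S' : Set (Sta Z)) : Set (Sta Z) :=
  {z | cap z ∧ ∃ x ∈ S, ∃ (D : Multiset (Pc Z)) (c : ℕ), (D.map (dI nx), c) ∈ S' ∧ D ≠ 0 ∧
    (∀ d ∈ D, pr d.1 u v ∧ ∀ j, d.2 = some j → pr j v u) ∧
    z = (x.1 + D.map (dS nx), x.2 + c + (D.map dC).sum)}

theorem I_eq (v : V) (l : List (St V Z)) :
    I nx v l = J v l + (W v l).map (wP nx) + (T v l).map sP := by
  induction l with
  | nil => rfl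
  | cons s l ih =>
    cases s with
    | mv x y i =>
      by_cases h : x = v ∧ y = v
      · rw [I_cons_some (x := (i, some (nx i))) (by simp [inn, h]), W_cons_some (x := i)
          (by simp [wv, h]), ih]
        have : T v (St.mv x y i :: l) = T v l := by simp [T, sv]
        rw [this, J_mv, Multiset.map_cons]
        simp only [wP, Multiset.add_cons, Multiset.cons_add]
      · rw [I_cons_none (by simp [inn, h]), W_cons_none (by simp [wv, h]), ih]
        have : T v (St.mv x y i :: l) = T v l := by simp [T, sv]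
        rw [this, J_mv]
    | jp x i o =>
      have h1 : T v (St.jp x i o :: l) = T v l := by simp [T, sv]
      rw [h1, W_cons_none (by simp [wv])]
      by_cases h : x = v
      · rw [I_cons_some (x := (i, o)) (by simp [inn, h]), ih, J_jp, if_pos h]
        simp only [Multiset.cons_add]
      · rw [I_cons_none (by simp [inn, h]), ih, J_jp_ne h]
    | sp x i =>
      rw [W_cons_none (by simp [wv])]
      by_cases h : x = v
      · rw [I_cons_some (x := (i, none)) (by simp [inn, h]), ih]
        have h1 : T v (St.sp x i :: l) = i ::ₘ T v l := by simp [T, sv, h]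
        rw [h1, J_sp, Multiset.map_cons]
        simp only [sP, Multiset.add_cons]
      · rw [I_cons_none (by simp [inn, h]), ih]
        have h1 : T v (St.sp x i :: l) = T v l := by simp [T, sv, h]
        rw [h1, J_sp]

theorem T_card (v : V) (l : List (St V Z)) (o : Option (V × Z)) (h : Chain nx l o) :
    (T v l).card ≤ 1 := by
  induction l generalizing o with
  | nil => simp [T]
  | cons s l ih =>
    obtain ⟨_, h⟩ := h
    cases s with
    | mv x y i =>
      have : T v (St.mv x y i :: l) = T v l := by simp [T, sv]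
      rw [this]; exact ih _ h
    | jp x i o =>
      have : T v (St.jp x i o :: l) = T v l := by simp [T, sv]
      rw [this]; exact ih _ h
    | sp x i =>
      have h : Chain nx l none := h
      rw [chain_none h]
      by_cases hx : x = v <;> simp [T, sv, hx]

theorem card_le_cross (D : Multiset (Pc Z)) : D.card ≤ (D.map dC).sum := by
  induction D using Multiset.induction_on with
  | empty => simp
  | cons d D ih =>
    rw [Multiset.card_cons, Multiset.map_cons, Multiset.sum_cons]
    have : 1 ≤ dC d := by unfold dC; split <;> omega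
    omega

/-- **Elimination of a leaf.** -/
theorem elim {cap : Sta Z → Prop} {K B : ℕ}
    (hcap : ∀ x : Sta Z, x.1.card ≤ K → x.2 ≤ B → cap x) (hK : B + 1 ≤ K)
    {X : Finset V} {u v : V} (hu : u ∈ X) (hv : v ∈ X) (huv : u ≠ v)
    (hnb : ∀ w ∈ X, ∀ i, (pr i v w ∨ pr i w v) → w = u ∨ w = v)
    {A : V → Set (Sta Z)} (hA : ∀ w ∈ X, ∀ x ∈ A w, x.1.card ≤ x.2) {a : V × Z}
    (ha : a.1 ≠ v) {c : ℕ} (hc : c ≤ B) :
    Ach nx pr X A a c ↔ Ach nx pr (X.erase v)
      (Function.update A u (Comb nx pr cap u v (A u) (Clo nx cap (2 * K) (A v)))) a c := by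
  have hu' : u ∈ X.erase v := Finset.mem_erase.2 ⟨huv, hu⟩
  constructor
  · rintro ⟨N, k, h1, c', ⟨l, h2, h3, h4, h5, rfl⟩, rfl⟩
    obtain ⟨D, E, l', b1, b2, b3, b4, b5, b6⟩ := (parse hu huv hnb l (some a) h2 h3).1 (by
      intro i hi
      rw [Option.some.injEq] at hi
      exact ha (by rw [hi]))
    have hkv : k v + k u + ∑ w ∈ (X.erase v).erase u, k w = ∑ w ∈ X, k w := by
      rw [← Finset.add_sum_erase X k hv, ← Finset.add_sum_erase (X.erase v) k hu']
      ring
    have hcD := card_le_cross D
    have hNv := hA v hv _ (h1 v hv)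
    have hNu := hA u hu _ (h1 u hu)
    simp only at hNv hNu
    have hT := T_card (nx := nx) v l _ h2
    have hf : ∃ n ≤ 2 * K, RN (RC nx cap) n (N v, k v) (D.map (dI nx), k v + (W v l).card) := by
      refine forward (nx := nx) hcap (t := T v l) (e := E) ?_ (by omega) ?_
      · omega
      · rw [← h4 v hv, ← I_eq]; exact b3
    refine ⟨Function.update N u (N u + D.map (dS nx)), Function.update k u
      (k u + (k v + (W v l).card) + (D.map dC).sum), ?_, cM l', ⟨l', b1, b2.ok, ?_, ?_, rfl⟩, ?_⟩
    · intro w hw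
      by_cases hwu : w = u
      · subst hwu
        simp only [Function.update_self]
        refine ⟨hcap _ ?_ ?_, (N w, k w), h1 w hu, D, k v + (W v l).card, ⟨_, h1 v hv, hf⟩,
          b6 (h5 v hv), b2.val, rfl⟩
        · simp only [Multiset.card_add, Multiset.card_map]
          omega
        · simp only
          omega
      · simp only [Function.update_of_ne hwu]
        exact h1 w (Finset.mem_of_mem_erase hw)
    · intro w hw
      by_cases hwu : w = u
      · subst hwu
        rw [Function.update_self, b2.J₂, h4 w hu]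
      · rw [Function.update_of_ne hwu, b2.J₁ w hwu (Finset.ne_of_mem_erase hw),
          h4 w (Finset.mem_of_mem_erase hw)]
    · intro w hw
      exact b2.vis w (Finset.ne_of_mem_erase hw) (h5 w (Finset.mem_of_mem_erase hw))
    · rw [← Finset.add_sum_erase (X.erase v) _ hu', Function.update_self]
      rw [Finset.sum_congr rfl (fun w hw => Function.update_of_ne (Finset.ne_of_mem_erase hw) _ k)]
      have e2 : ((X.erase v).erase u).sum k = ∑ w ∈ (X.erase v).erase u, k w := rfl
      rw [e2]
      omega
  · rintro ⟨N, k, h1, c', ⟨l, h2, h3, h4, h5, rfl⟩, rfl⟩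
    have h6 := h1 u hu'
    rw [Function.update_self] at h6
    obtain ⟨_, x, hx, D, c₁, ⟨y, hy, n, _, hn⟩, hD0, hDv, hz⟩ := h6
    rw [Prod.mk.injEq] at hz
    obtain ⟨hz1, hz2⟩ := hz
    have h3' : ∀ st ∈ l, Ok pr X st := by
      intro st hst
      have := h3 st hst
      cases st with
      | mv x y i =>
        exact ⟨Finset.mem_of_mem_erase this.1, Finset.mem_of_mem_erase this.2.1, this.2.2⟩
      | jp x i o => exact Finset.mem_of_mem_erase this
      | sp x i => exact Finset.mem_of_mem_erase this
    have hJv : J v l = 0 := by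
      rw [Multiset.eq_zero_iff_forall_notMem]
      intro z hz
      have := h3 _ (mem_J hz)
      exact (Finset.notMem_erase v X) this
    obtain ⟨l₁, a1, a2, a3, a4, a5, a6, a7⟩ := expand_exc (pr := pr) hu hv huv D hDv h2 h3'
      ((h4 u hu').trans hz1)
    rw [hJv, zero_add] at a4
    obtain ⟨l₂, b1, b2, b3, b4, b5, b6⟩ := expand_many hv hn a1 a2 a4
    refine ⟨Function.update (Function.update N u x.1) v y.1,
      Function.update (Function.update k u x.2) v y.2, ?_, cM l₂, ⟨l₂, b1, b2, ?_, ?_, rfl⟩, ?_⟩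
    · intro w hw
      by_cases hwv : w = v
      · subst hwv; simpa only [Function.update_self] using hy
      · rw [Function.update_of_ne hwv, Function.update_of_ne hwv]
        by_cases hwu : w = u
        · subst hwu; simpa only [Function.update_self] using hx
        · rw [Function.update_of_ne hwu, Function.update_of_ne hwu]
          have := h1 w (Finset.mem_erase.2 ⟨hwv, hw⟩)
          rwa [Function.update_of_ne hwu] at this
    · intro w hw
      by_cases hwv : w = v
      · subst hwv; rw [Function.update_self, b3]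
      · rw [Function.update_of_ne hwv, b4 w hwv]
        by_cases hwu : w = u
        · subst hwu; rw [Function.update_self, a3]
        · rw [Function.update_of_ne hwu, a5 w hwu hwv]
          exact h4 w (Finset.mem_erase.2 ⟨hwv, hw⟩)
    · intro w hw
      by_cases hwv : w = v
      · exact b6 w (a7 w (Or.inr ⟨hwv, hD0⟩))
      · exact b6 w (a7 w (Or.inl (h5 w (Finset.mem_erase.2 ⟨hwv, hw⟩))))
    · rw [← Finset.add_sum_erase X _ hv, Function.update_self,
        Finset.sum_congr rfl (fun w hw => Function.update_of_ne (Finset.ne_of_mem_erase hw) _ _),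
        ← Finset.add_sum_erase (X.erase v) _ hu', ← Finset.add_sum_erase (X.erase v) _ hu',
        Function.update_self,
        Finset.sum_congr rfl (fun w hw => Function.update_of_ne (Finset.ne_of_mem_erase hw) _ _)]
      simp only at b5
      omega

/-- The last step: a single vertex is left. -/
theorem last {cap : Sta Z → Prop} {K B : ℕ}
    (hcap : ∀ x : Sta Z, x.1.card ≤ K → x.2 ≤ B → cap x) (hK : B + 1 ≤ K)
    {A : V → Set (Sta Z)} {a : V × Z} (hA : ∀ x ∈ A a.1, x.1.card ≤ x.2) {c : ℕ} (hc : c ≤ B) :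
    Ach nx pr {a.1} A a c ↔ (({(a.2, none)} : Multiset (Pc Z)), c) ∈ Clo nx cap (2 * K) (A a.1) := by
  constructor
  · rintro ⟨N, k, h1, c', ⟨l, h2, h3, h4, h5, rfl⟩, rfl⟩
    have key : ∀ (l : List (St V Z)) (i : Z), Chain nx l (some (a.1, i)) →
        (∀ st ∈ l, Ok pr {a.1} st) → Cs (I nx a.1 l) {(i, none)} ∧ cM l = (W a.1 l).card := by
      intro l
      induction l with
      | nil => intro i h; simp [Chain] at h
      | cons s l ih =>
        rintro i ⟨h1, h2⟩ h3
        have h3' : ∀ st ∈ l, Ok pr {a.1} st := fun st h => h3 st (List.mem_cons_of_mem _ h)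
        have hs := h3 s List.mem_cons_self
        cases s with
        | mv x y j =>
          simp only [St.src, Option.some.injEq, Prod.mk.injEq] at h1
          obtain ⟨h1, rfl⟩ := h1
          have hy : y = a.1 := Finset.mem_singleton.1 hs.2.1
          subst hy
          obtain ⟨h4, h5⟩ := ih (nx i) h2 h3'
          rw [I_cons_some (x := (i, some (nx i))) (by simp [inn, h1]), W_cons_some (x := i)
            (by simp [wv, h1]), cM_cons, Multiset.card_cons]
          refine ⟨Cs.join (j := nx i) (B := 0) h4, ?_⟩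
          simp only [St.cost]; omega
        | jp x j o =>
          simp only [St.src, Option.some.injEq, Prod.mk.injEq] at h1
          obtain ⟨h1, rfl⟩ := h1
          cases o with
          | none =>
            have h2 : Chain nx l none := h2
            rw [chain_none h2, I_cons_some (x := (i, none)) (by simp [inn, h1])]
            exact ⟨.refl, by simp [St.cost, W, wv]⟩
          | some o =>
            rw [← h1] at h2
            obtain ⟨h4, h5⟩ := ih o h2 h3'
            rw [I_cons_some (x := (i, some o)) (by simp [inn, h1]), W_cons_none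
              (by simp [wv]), cM_cons]
            exact ⟨Cs.join (j := o) (B := 0) h4, by simp only [St.cost]; omega⟩
        | sp x j =>
          simp only [St.src, Option.some.injEq, Prod.mk.injEq] at h1
          obtain ⟨h1, rfl⟩ := h1
          have h2 : Chain nx l none := h2
          rw [chain_none h2, I_cons_some (x := (i, none)) (by simp [inn, h1])]
          exact ⟨.refl, by simp [St.cost, W, wv]⟩
    obtain ⟨b1, b2⟩ := key l a.2 h2 h3
    rw [Finset.sum_singleton] at hc ⊢
    have h6 := h1 a.1 (Finset.mem_singleton_self _)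
    have h7 := hA _ h6
    simp only at h7
    have hT := T_card (nx := nx) a.1 l _ h2
    rw [I_eq, h4 a.1 (Finset.mem_singleton_self _)] at b1
    refine ⟨_, h6, ?_⟩
    obtain ⟨n, hn, h8⟩ := forward (nx := nx) hcap (N := N a.1) (C := {(a.2, none)})
      (w := W a.1 l) (t := T a.1 l) (e := 0) (k := k a.1) (by rw [Multiset.card_zero]; omega) (by omega)
      (by rw [Multiset.map_zero, add_zero]; exact b1)
    refine ⟨n, hn, ?_⟩
    rw [b2, add_comm]
    exact h8
  · rintro ⟨x, hx, n, _, hn⟩
    obtain ⟨l, h1, h2, h3, _, h5, h6⟩ := expand_many (pr := pr) (X := {a.1})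
      (Finset.mem_singleton_self a.1) hn (l := [.jp a.1 a.2 none]) (o := some a) ⟨rfl, rfl⟩
      (by simp [Ok]) (by simp)
    refine ⟨fun _ => x.1, fun _ => x.2, ?_, cM l, ⟨l, h1, h2, ?_, ?_, rfl⟩, ?_⟩
    · intro v hv
      rw [Finset.mem_singleton.1 hv]; exact hx
    · intro v hv
      rw [Finset.mem_singleton.1 hv]; exact h3
    · intro v hv
      rw [Finset.mem_singleton.1 hv]
      exact h6 _ ⟨_, List.mem_cons_self, rfl⟩
    · rw [Finset.sum_singleton]
      simp [St.cost] at h5
      omega

end

end Pool.Agent.Dm81
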