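import Pool.Agent.Lib_MP_ce2681_lc.Jisp
import Pool.Agent.Lib_MP_ce2681_lc.LoopP
import Pool.Agent.Lib_MP_33ea09_lc.CookH
import Pool.Agent.Lib_MP_33ea09_lc.GenP

/-!
# NP-hardness of DMVP on trees of maximum degree three
-/

set_option linter.unusedSectionVars false
set_option linter.unusedVariables false

namespace Pool.Agent.Dm81

open Pool.Agent.PT81 Pool.Agent.IsoImp Pool.Agent.Bx81 Turing

noncomputable section

/-- The time bound. -/
def jt (J : Ins) : ℕ := (jL J + 1) * (jm J + 1) + 1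

theorem jm_pos (J : Ins) : 0 < jm J := by unfold jm; omega

/-- The instance. -/
def jI (J : Ins) : PTree (catP (jm J) (jL J)) := catI (jm J) (jL J) (jm_pos J) (ps J)

/-- The string of the instance. -/
def jstr (J : Ins) : List (Option Bool) :=
  ((List.range (catP (jm J) (jL J))).flatMap fun τ => (List.range (2 * jm J)).flatMap fun u =>
    (List.range (2 * jm J)).map (fun v => some (cadj (jm J) (jL J) (ps J) τ u v)) ++ [none]) ++
  ((List.range (2 * jm J)).map (fun v => some (decide (v = 0))) ++ [none]) ++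
  (Nat.bits (jt J)).map some

theorem range_eq_map (n : ℕ) : List.range n = (List.finRange n).map Fin.val := by
  rw [List.map_coe_finRange_eq_range]

theorem jstr_eq (J : Ins) : jstr J = (jI J).encode ++ (Nat.bits (jt J)).map some := by
  classical
  unfold jstr PTree.encode
  congr 1
  simp only [range_eq_map, List.flatMap_map, List.map_map]
  congr 1
  · refine congrArg (fun f => List.flatMap f (List.finRange (catP (jm J) (jL J))))
      (funext fun i => ?_)
    refine congrArg (fun f => List.flatMap f (List.finRange (2 * jm J))) (funext fun u => ?_)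
    congr 1
    refine List.map_congr_left fun v _ => ?_
    simp only [Function.comp]
    congr 1
    rw [Bool.eq_iff_iff, decide_eq_true_eq]
    rfl
  · congr 1
    refine List.map_congr_left fun v _ => ?_
    simp only [Function.comp]
    congr 1
    rw [decide_eq_decide]
    exact ⟨fun e => Fin.ext e, fun e => congrArg Fin.val e⟩

theorem jI_le_iff (J : Ins) : (jI J).coverTime ≤ jt J ↔
    ∃ a : ℕ → Bool, ∀ k < J.M, ∃ i < J.n, J.lit i (a i) k = true := by
  rw [← sched_iff]
  exact cat_iff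

section poly

variable {E : PT81.Env} {γ : Type} [Enc E γ] {φ : γ → Cnf} (hφ : Poly E φ)
include hφ

theorem poly_zl : Poly E (fun c => zl (insOf (φ c))) :=
  Poly.add (Poly.mul (Poly.const 2) (poly_M hφ)) (Poly.const 4)

theorem poly_jm : Poly E (fun c => jm (insOf (φ c))) :=
  Poly.add (Poly.add (Poly.mul (Poly.const 3) (poly_n hφ)) (poly_M hφ)) (Poly.const 1)

theorem poly_jL : Poly E (fun c => jL (insOf (φ c))) :=
  Poly.mul (Poly.mul (Poly.const 2) (poly_n hφ)) (poly_zl hφ)

theorem poly_jt : Poly E (fun c => jt (insOf (φ c))) :=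
  Poly.add (Poly.mul (Poly.add (poly_jL hφ) (Poly.const 1)) (Poly.add (poly_jm hφ)
    (Poly.const 1))) (Poly.const 1)

theorem poly_catP : Poly E (fun c => catP (jm (insOf (φ c))) (jL (insOf (φ c)))) :=
  Poly.mul (Poly.add (poly_jm hφ) (Poly.const 1)) (Poly.add (poly_jL hφ) (Poly.const 3))

theorem poly_ps {j a : γ → ℕ} (hj : Poly E j) (ha : Poly E a) :
    Poly E (fun c => ps (insOf (φ c)) (j c) (a c)) := by
  have hz := poly_zl hφ
  have hn := poly_n hφ
  have hM := poly_M hφ
  have c0 : ∀ c, 0 < zl (insOf (φ c)) := fun c => by unfold zl; omega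
  have h2j := Poly.mul (Poly.const 2) hj
  have hM2 := Poly.add (Poly.mul (Poly.const 2) hM) (Poly.const 1)
  have hjn := Poly.sub hj hn
  have hjm := Poly.sub hj (Poly.add hn hM)
  have hnm := Poly.add hn hM
  have hdiv := Poly.div ha hz c0
  have h1 : Poly E (fun c => (decide (a c = (2 * j c) * zl (insOf (φ c))) ||
      decide (a c = (2 * j c) * zl (insOf (φ c)) + (2 * (insOf (φ c)).M + 1))) ||
      (decide (a c = (2 * j c + 1) * zl (insOf (φ c))) ||
      decide (a c = (2 * j c + 1) * zl (insOf (φ c)) + (2 * (insOf (φ c)).M + 1)))) :=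
    Poly.or (Poly.or (Poly.eq ha (Poly.mul h2j hz)) (Poly.eq ha (Poly.add (Poly.mul h2j hz) hM2)))
      (Poly.or (Poly.eq ha (Poly.mul (Poly.add h2j (Poly.const 1)) hz))
        (Poly.eq ha (Poly.add (Poly.mul (Poly.add h2j (Poly.const 1)) hz) hM2)))
  have h2 : Poly E (fun c => (decide (a c < jL (insOf (φ c))) &&
      (decide (a c % zl (insOf (φ c)) = 1 + 2 * (j c - (insOf (φ c)).n)) ||
      decide (a c % zl (insOf (φ c)) = 2 + 2 * (j c - (insOf (φ c)).n)))) &&
      (insOf (φ c)).lit (a c / zl (insOf (φ c)) / 2)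
        (decide (a c / zl (insOf (φ c)) % 2 = 0)) (j c - (insOf (φ c)).n)) :=
    Poly.and (Poly.and (Poly.lt ha (poly_jL hφ)) (Poly.or
      (Poly.eq (Poly.mod ha hz c0) (Poly.add (Poly.const 1) (Poly.mul (Poly.const 2) hjn)))
      (Poly.eq (Poly.mod ha hz c0) (Poly.add (Poly.const 2) (Poly.mul (Poly.const 2) hjn)))))
      (poly_lit hφ (Poly.div hdiv (Poly.const 2) (fun _ => by omega))
        (Poly.eq (Poly.mod hdiv (Poly.const 2) (fun _ => by omega)) (Poly.const 0)) hjn)
  have h3 : Poly E (fun c => decide (a c = (j c - ((insOf (φ c)).n + (insOf (φ c)).M)) *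
      zl (insOf (φ c)) + (2 * (insOf (φ c)).M + 2)) ||
      decide (a c = (j c - ((insOf (φ c)).n + (insOf (φ c)).M)) * zl (insOf (φ c)) +
      (2 * (insOf (φ c)).M + 3))) :=
    Poly.or (Poly.eq ha (Poly.add (Poly.mul hjm hz) (Poly.add (Poly.mul (Poly.const 2) hM)
        (Poly.const 2))))
      (Poly.eq ha (Poly.add (Poly.mul hjm hz) (Poly.add (Poly.mul (Poly.const 2) hM)
        (Poly.const 3))))
  have h4 : Poly E (fun c => decide (a c = jL (insOf (φ c)))) := Poly.eq ha (poly_jL hφ)
  refine (Poly.ite (Poly.lt hj hn) h1 (Poly.ite (Poly.lt hj hnm) h2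
    (Poly.ite (Poly.lt hj (Poly.add (Poly.mul (Poly.const 3) hn) hM)) h3 h4))).congr fun c => ?_
  unfold ps
  simp only [decide_eq_true_eq]

theorem poly_lp {j τ : γ → ℕ} (hj : Poly E j) (hτ : Poly E τ) :
    Poly E (fun c => lp (jm (insOf (φ c))) (jL (insOf (φ c))) (ps (insOf (φ c))) (j c) (τ c)) := by
  have hm := Poly.add (poly_jm hφ) (Poly.const 1)
  have hd := Poly.div hτ hm (fun _ => by omega)
  exact Poly.and (Poly.and (Poly.eq (Poly.mod hτ hm (fun _ => by omega)) (Poly.const 0))
    (Poly.le (Poly.const 1) hd)) (Poly.or (poly_ps hφ hj (Poly.sub hd (Poly.const 1)))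
      (Poly.eq hd (Poly.add (poly_jL hφ) (Poly.const 2))))

theorem poly_cadj {τ u v : γ → ℕ} (hτ : Poly E τ) (hu : Poly E u) (hv : Poly E v) :
    Poly E (fun c => cadj (jm (insOf (φ c))) (jL (insOf (φ c))) (ps (insOf (φ c))) (τ c) (u c)
      (v c)) := by
  have hm := poly_jm hφ
  exact Poly.or (Poly.and (Poly.and (Poly.lt hu hm) (Poly.lt hv hm))
      (Poly.or (Poly.eq (Poly.add hu (Poly.const 1)) hv) (Poly.eq (Poly.add hv (Poly.const 1)) hu)))
    (Poly.or (Poly.and (Poly.and (Poly.lt hu hm) (Poly.eq hv (Poly.add hm hu)))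
      (poly_lp hφ hu hτ)) (Poly.and (Poly.and (Poly.lt hv hm) (Poly.eq hu (Poly.add hm hv)))
      (poly_lp hφ hv hτ)))

theorem poly_jstr [Enc E (Option Bool)] : Poly E (fun c => jstr (insOf (φ c))) := by
  have h2m := Poly.mul (Poly.const 2) (poly_jm hφ)
  have hsome : ∀ {δ : Type} [Enc E δ] {f : δ → Bool}, Poly E f →
      Poly E (fun c => (some (f c) : Option Bool)) := by
    intro δ _ f hf
    exact Poly.comp₁ (fun b : Bool => (some b : Option Bool)) hf
  refine Poly.append (Poly.append ?_ (Poly.append ?_ (Poly.const _))) ?_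
  · refine Poly.flatMap (g := fun q : γ × ℕ => (List.range (2 * jm (insOf (φ q.1)))).flatMap
      fun u => (List.range (2 * jm (insOf (φ q.1)))).map (fun v => some (cadj
        (jm (insOf (φ q.1))) (jL (insOf (φ q.1))) (ps (insOf (φ q.1))) q.2 u v)) ++ [none])
      (poly_catP hφ).range ?_
    refine Poly.flatMap (g := fun r : (γ × ℕ) × ℕ => (List.range (2 * jm (insOf (φ r.1.1)))).map
      (fun v => some (cadj (jm (insOf (φ r.1.1))) (jL (insOf (φ r.1.1)))
        (ps (insOf (φ r.1.1))) r.1.2 r.2 v)) ++ [none]) (h2m.comp Poly.fst).range ?_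
    refine Poly.append ?_ (Poly.const _)
    have h1 : Poly E (fun r : (γ × ℕ) × ℕ => r.1.1) := Poly.fst.comp Poly.fst
    refine Poly.map (g := fun t : ((γ × ℕ) × ℕ) × ℕ => some (cadj (jm (insOf (φ t.1.1.1)))
      (jL (insOf (φ t.1.1.1))) (ps (insOf (φ t.1.1.1))) t.1.1.2 t.1.2 t.2))
      (h2m.comp h1).range ?_
    exact hsome (poly_cadj (hφ.comp (h1.comp Poly.fst)) (Poly.snd.comp (Poly.fst.comp Poly.fst))
      (Poly.snd.comp Poly.fst) Poly.snd)
  · exact Poly.map (g := fun q : γ × ℕ => some (decide (q.2 = 0))) h2m.range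
      (hsome (Poly.eq Poly.snd (Poly.const 0)))
  · exact Poly.map (g := fun q : γ × Bool => some q.2) (poly_binary (poly_jt hφ))
      (hsome Poly.snd)

end poly

/-- Every language of `NP` reduces to instances on trees of maximum degree at most three. -/
theorem hard_strong {Γ : Type} [Fintype Γ] (L : Set (List Γ)) (hL : InNP L) :
    ∃ f : List Γ → List (Option Bool), PolyTime f ∧ ∀ x, ∃ (p : ℕ) (I : PTree p) (t : ℕ),
      f x = I.encode ++ (Nat.bits t).map some ∧
      (∀ v, ((⨆ i, I.snap i).neighborSet v).encard ≤ 3) ∧ (x ∈ L ↔ I.coverTime ≤ t) := by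
  classical
  obtain ⟨R, q, hR, hq⟩ := hL
  obtain ⟨F, hF, hFL⟩ := Cook81.cook_levin hR hq
  refine ⟨fun x => jstr (insOf (F x)), ?_, fun x => ?_⟩
  · let _ : Enc (io Γ (Option Bool)) Γ := finEnc _ _
    let _ : Enc (io Γ (Option Bool)) (Option Bool) := finEnc _ _
    exact poly_toTM2 (poly_jstr (hF (io Γ (Option Bool)))) _ _ _ (fun _ => rfl)
  · refine ⟨_, jI (insOf (F x)), jt (insOf (F x)), jstr_eq _, cat_degree _ _ _ _, ?_⟩
    rw [jI_le_iff, ins_sat, hFL x]
    rfl

end

end Pool.Agent.Dm81
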