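import Pool.Agent.Lib_MP_ce2681_lc.Cat
import Pool.Agent.Lib_MP_33ea09_lc.Label

/-!
# Schedules and satisfying assignments
-/

set_option linter.unusedSectionVars false
set_option linter.unusedVariables false

namespace Pool.Agent.Dm81

open Pool.Agent.Bx81

variable (J : Ins)

/-- The length of a zone. -/
def zl : ℕ := 2 * J.M + 4

/-- The number of jobs. -/
def jm : ℕ := 3 * J.n + J.M + 1

/-- The last slot. -/
def jL : ℕ := 2 * J.n * zl J

/-- The slots at which a job can begin or end. -/
def ps (j a : ℕ) : Bool :=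
  if j < J.n then
    (decide (a = (2 * j) * zl J) || decide (a = (2 * j) * zl J + (2 * J.M + 1))) ||
      (decide (a = (2 * j + 1) * zl J) || decide (a = (2 * j + 1) * zl J + (2 * J.M + 1)))
  else if j < J.n + J.M then
    (decide (a < jL J) && (decide (a % zl J = 1 + 2 * (j - J.n)) ||
      decide (a % zl J = 2 + 2 * (j - J.n)))) &&
      J.lit (a / zl J / 2) (decide (a / zl J % 2 = 0)) (j - J.n)
  else if j < 3 * J.n + J.M then
    decide (a = (j - (J.n + J.M)) * zl J + (2 * J.M + 2)) ||
      decide (a = (j - (J.n + J.M)) * zl J + (2 * J.M + 3))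
  else decide (a = jL J)

theorem ps_var {j : ℕ} (hj : j < J.n) (a : ℕ) : ps J j a = true ↔
    a = (2 * j) * zl J ∨ a = (2 * j) * zl J + (2 * J.M + 1) ∨
    a = (2 * j) * zl J + zl J ∨ a = (2 * j) * zl J + zl J + (2 * J.M + 1) := by
  unfold ps
  rw [if_pos hj]
  have : (2 * j + 1) * zl J = (2 * j) * zl J + zl J := by ring
  rw [this]
  simp [or_assoc]

theorem ps_cl {k : ℕ} (hk : k < J.M) (a : ℕ) : ps J (J.n + k) a = true ↔
    a < jL J ∧ (a % zl J = 1 + 2 * k ∨ a % zl J = 2 + 2 * k) ∧
      J.lit (a / zl J / 2) (decide (a / zl J % 2 = 0)) k = true := by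
  unfold ps
  rw [if_neg (by omega), if_pos (by omega), Nat.add_sub_cancel_left]
  simp [and_assoc]

theorem ps_bl {b : ℕ} (hb : b < 2 * J.n) (a : ℕ) : ps J (J.n + J.M + b) a = true ↔
    a = b * zl J + (2 * J.M + 2) ∨ a = b * zl J + (2 * J.M + 3) := by
  unfold ps
  rw [if_neg (by omega), if_neg (by omega), if_pos (by omega), Nat.add_sub_cancel_left]
  simp

theorem ps_fin (a : ℕ) : ps J (3 * J.n + J.M) a = true ↔ a = jL J := by
  unfold ps
  rw [if_neg (by omega), if_neg (by omega), if_neg (by omega)]
  simp

section sound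

variable {m L : ℕ} {A : ℕ → ℕ → Bool} {g : ℕ → Option ℕ}

theorem sched_first (h0 : g 0 = none) (h1 : ∀ a ≤ L, Tr m A (g a) (g (a + 1)) a) {j : ℕ}
    (a : ℕ) (ha : a ≤ L + 1) (hj : g a = some j) :
    ∃ e < a, A j e = true ∧ ∀ c, e < c → c ≤ a → g c = some j := by
  induction a with
  | zero => rw [h0] at hj; simp at hj
  | succ a ih =>
    by_cases h : g a = some j
    · obtain ⟨e, he, h2, h3⟩ := ih (by omega) h
      refine ⟨e, by omega, h2, fun c hc hc' => ?_⟩
      rcases Nat.lt_or_ge c (a + 1) with h4 | h4
      · exact h3 c hc (by omega)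
      · have : c = a + 1 := by omega
        rw [this]; exact hj
    · rcases h1 a (by omega) with h2 | ⟨_, j', _, h2, h3⟩ | ⟨h2, _⟩
      · exact absurd (h2.trans hj) h
      · rw [hj] at h2
        injection h2 with h2
        subst h2
        refine ⟨a, by omega, h3, fun c hc hc' => ?_⟩
        have : c = a + 1 := by omega
        rw [this]; exact hj
      · rw [hj] at h2; simp at h2

theorem sched_last (h1 : ∀ a ≤ L, Tr m A (g a) (g (a + 1)) a) {j : ℕ}
    (hL : g (L + 1) ≠ some j) (d : ℕ) : ∀ a, a + d = L + 1 → g a = some j →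
    ∃ f, a ≤ f ∧ f ≤ L ∧ A j f = true ∧ ∀ c, a ≤ c → c ≤ f → g c = some j := by
  induction d with
  | zero =>
    intro a ha hj
    have : a = L + 1 := by omega
    rw [this] at hj
    exact absurd hj hL
  | succ d ih =>
    intro a ha hj
    by_cases h : g (a + 1) = some j
    · obtain ⟨f, h2, h3, h4, h5⟩ := ih (a + 1) (by omega) h
      refine ⟨f, by omega, h3, h4, fun c hc hc' => ?_⟩
      rcases Nat.lt_or_ge a c with h6 | h6
      · exact h5 c h6 hc'
      · have : c = a := by omega
        rw [this]; exact hj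
    · rcases h1 a (by omega) with h2 | ⟨h2, _⟩ | ⟨_, j', _, h2, h3⟩
      · exact absurd (h2.symm.trans hj) h
      · rw [hj] at h2; simp at h2
      · rw [hj] at h2
        injection h2 with h2
        subst h2
        refine ⟨a, le_rfl, by omega, h3, fun c hc hc' => ?_⟩
        have : c = a := by omega
        rw [this]; exact hj

end sound

theorem sat_of_sched {g : ℕ → Option ℕ} (hg : Sched (jm J) (jL J) (ps J) g) :
    ∃ a : ℕ → Bool, ∀ k < J.M, ∃ i < J.n, J.lit i (a i) k = true := by
  classical
  obtain ⟨g0, g1, g2⟩ := hg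
  have hz : g (jL J + 1) = some (3 * J.n + J.M) := by
    obtain ⟨a, ha, hga⟩ := g2 (3 * J.n + J.M) (by unfold jm; omega)
    obtain ⟨e, he, h1, _⟩ := sched_first g0 g1 a ha hga
    rw [ps_fin] at h1
    have : a = jL J + 1 := by omega
    rw [← this]; exact hga
  have itv : ∀ j < 3 * J.n + J.M, ∃ e f, e < f ∧ f ≤ jL J ∧ ps J j e = true ∧
      ps J j f = true ∧ ∀ c, e < c → c ≤ f → g c = some j := by
    intro j hj
    obtain ⟨a, ha, hga⟩ := g2 j (by unfold jm; omega)
    have hL : g (jL J + 1) ≠ some j := by
      rw [hz]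
      intro h
      injection h with h
      omega
    obtain ⟨e, he, h1, h2⟩ := sched_first g0 g1 a ha hga
    obtain ⟨f, hf, h3, h4, h5⟩ := sched_last g1 hL (jL J + 1 - a) a (by omega) hga
    refine ⟨e, f, by omega, h3, h1, h4, fun c hc hc' => ?_⟩
    rcases Nat.le_total c a with h6 | h6
    · exact h2 c hc h6
    · exact h5 c h6 hc'
  have hbl : ∀ b < 2 * J.n, g (b * zl J + (2 * J.M + 2) + 1) = some (J.n + J.M + b) := by
    intro b hb
    obtain ⟨e, f, h1, _, h3, h4, h5⟩ := itv (J.n + J.M + b) (by omega)
    rw [ps_bl J hb] at h3 h4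
    exact h5 _ (by omega) (by omega)
  have hzl : zl J = 2 * J.M + 4 := rfl
  have hvar : ∀ i < J.n, (∀ c, (2 * i) * zl J < c → c ≤ (2 * i) * zl J + (2 * J.M + 1) →
      g c = some i) ∨ (∀ c, (2 * i) * zl J + zl J < c →
        c ≤ (2 * i) * zl J + zl J + (2 * J.M + 1) → g c = some i) := by
    intro i hi
    obtain ⟨e, f, h1, _, h3, h4, h5⟩ := itv i (by omega)
    rw [ps_var J hi] at h3 h4
    have h6 := hbl (2 * i) (by omega)
    have h7 : ¬ (e < (2 * i) * zl J + (2 * J.M + 2) + 1 ∧
        (2 * i) * zl J + (2 * J.M + 2) + 1 ≤ f) := by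
      rintro ⟨h8, h9⟩
      rw [h5 _ h8 h9] at h6
      injection h6 with h6
      omega
    by_cases hc : e = (2 * i) * zl J
    · left
      intro c hc1 hc2
      exact h5 c (by omega) (by omega)
    · right
      intro c hc1 hc2
      exact h5 c (by omega) (by omega)
  let P2 : ℕ → Prop := fun i => ∀ c, (2 * i) * zl J + zl J < c →
        c ≤ (2 * i) * zl J + zl J + (2 * J.M + 1) → g c = some i
  refine ⟨fun i => decide (P2 i), fun k hk => ?_⟩
  obtain ⟨e, f, h1, hfL, h3, h4, h5⟩ := itv (J.n + k) (by omega)
  rw [ps_cl J hk] at h3 h4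
  obtain ⟨heL, her, hlit⟩ := h3
  obtain ⟨hfL', hfr, _⟩ := h4
  have de := Nat.div_add_mod e (zl J)
  have df := Nat.div_add_mod f (zl J)
  have hq : e / zl J < 2 * J.n := Nat.div_lt_of_lt_mul (by
    unfold jL at heL; rwa [Nat.mul_comm] at heL)
  have hqq : e / zl J ≤ f / zl J := Nat.div_le_div_right h1.le
  obtain ⟨q, hqd⟩ : ∃ q, e / zl J = q := ⟨_, rfl⟩
  obtain ⟨q', hqd'⟩ : ∃ q', f / zl J = q' := ⟨_, rfl⟩
  rw [hqd] at de hq hqq hlit
  rw [hqd'] at df hqq
  have hb := hbl q hq
  rw [Nat.mul_comm] at hb
  have her1 : e % zl J = 1 + 2 * k := by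
    rcases her with h6 | h6
    · exact h6
    · exfalso
      have hne : q ≠ q' := by
        intro h7
        rw [← h7] at df
        omega
      have h8 : zl J * (q + 1) ≤ zl J * q' := Nat.mul_le_mul_left _ (by omega)
      rw [Nat.mul_succ] at h8
      have h9 := h5 (zl J * q + (2 * J.M + 2) + 1) (by omega) (by omega)
      rw [h9] at hb
      injection hb with hb
      omega
  have hge : g (e + 1) = some (J.n + k) := h5 (e + 1) (by omega) (by omega)
  refine ⟨q / 2, by omega, ?_⟩
  show J.lit (q / 2) (decide (P2 (q / 2))) k = true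
  have hcomm : zl J * q = q * zl J := Nat.mul_comm _ _
  rcases Nat.mod_two_eq_zero_or_one q with hq2 | hq2
  · have hqe : 2 * (q / 2) = q := by omega
    have : decide (P2 (q / 2)) = true := by
      rw [decide_eq_true_eq]
      refine (hvar (q / 2) (by omega)).resolve_left fun hP1 => ?_
      have h10 := hP1 (e + 1) (by rw [hqe]; omega) (by rw [hqe]; omega)
      rw [hge] at h10
      injection h10 with h10
      omega
    rw [hq2] at hlit
    simp only [decide_true] at hlit
    rw [this]
    exact hlit
  · have hqe : 2 * (q / 2) + 1 = q := by omega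
    have hqe' : 2 * (q / 2) * zl J + zl J = q * zl J := by
      rw [← Nat.succ_mul]
      congr 1
    have : decide (P2 (q / 2)) = false := by
      rw [decide_eq_false_iff_not]
      intro hP2
      have h10 := hP2 (e + 1) (by rw [hqe']; omega) (by rw [hqe']; omega)
      rw [hge] at h10
      injection h10 with h10
      omega
    rw [hq2] at hlit
    simp only [Nat.one_ne_zero, decide_false] at hlit
    rw [this]
    exact hlit

/-! ### From assignments to schedules -/

section complete

variable (a : ℕ → Bool) (ik : ℕ → ℕ)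

/-- The zone of a clause. -/
def qk (k : ℕ) : ℕ := 2 * ik k + (if a (ik k) then 0 else 1)

/-- The zones occupied by the variables. -/
def occ (q : ℕ) : Bool := decide (q % 2 = 1) == a (q / 2)

/-- The state at offset `r` of zone `q`. -/
def stt (q r : ℕ) : Option ℕ :=
  if r = 2 * J.M + 2 then some (J.n + J.M + q)
  else if occ a q then (if r < 2 * J.M + 1 then some (q / 2) else none)
  else if r % 2 = 1 ∧ (r - 1) / 2 < J.M ∧ qk a ik ((r - 1) / 2) = q then
    some (J.n + (r - 1) / 2) else none

/-- The schedule. -/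
def gg (c : ℕ) : Option ℕ :=
  match c with
  | 0 => none
  | b + 1 => if b < jL J then stt J a ik (b / zl J) (b % zl J) else some (3 * J.n + J.M)

variable {J a ik}

theorem stt_last (q : ℕ) : stt J a ik q (2 * J.M + 3) = none := by
  unfold stt
  rw [if_neg (by omega)]
  split
  · rw [if_neg (by omega)]
  · rw [if_neg]
    rintro ⟨_, h, _⟩
    omega

theorem stt_tr (ha : ∀ k < J.M, ik k < J.n ∧ J.lit (ik k) (a (ik k)) k = true) {q r b : ℕ}
    (hq : q < 2 * J.n) (hr : r < zl J) (hb : b = q * zl J + r) :
    Tr (jm J) (ps J) (if r = 0 then none else stt J a ik q (r - 1)) (stt J a ik q r) b := by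
  have hzl : zl J = 2 * J.M + 4 := rfl
  have hmod : b % zl J = r := by
    rw [hb, Nat.mul_comm, Nat.mul_add_mod, Nat.mod_eq_of_lt hr]
  have hdiv : b / zl J = q := by
    rw [hb, Nat.mul_comm, Nat.mul_add_div (by omega), Nat.div_eq_of_lt hr, Nat.add_zero]
  have hbL : b < jL J := by
    unfold jL
    calc b < q * zl J + zl J := by omega
      _ = (q + 1) * zl J := by ring
      _ ≤ 2 * J.n * zl J := Nat.mul_le_mul_right _ hq
  have hbk : ps J (J.n + J.M + q) b = true ↔ r = 2 * J.M + 2 ∨ r = 2 * J.M + 3 := by
    rw [ps_bl J hq, hb]; omega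
  have hvk : r = 0 ∨ r = 2 * J.M + 1 → ps J (q / 2) b = true := by
    intro h
    rw [ps_var J (by omega), hb]
    rcases Nat.mod_two_eq_zero_or_one q with hq2 | hq2
    · have : 2 * (q / 2) = q := by omega
      rw [this]; omega
    · have hqe' : 2 * (q / 2) * zl J + zl J = q * zl J := by
        rw [← Nat.succ_mul]
        congr 1
        omega
      omega
  have hck : ∀ k < J.M, qk a ik k = q → (r = 1 + 2 * k ∨ r = 2 + 2 * k) →
      ps J (J.n + k) b = true := by
    intro k hk hqk hrk
    rw [ps_cl J hk, hmod, hdiv]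
    refine ⟨hbL, hrk, ?_⟩
    have h1 := (ha k hk).2
    unfold qk at hqk
    cases hak : a (ik k)
    · rw [hak] at hqk h1
      simp only [Bool.false_eq_true, if_false] at hqk
      have e1 : q / 2 = ik k := by omega
      have e2 : ¬ (q % 2 = 0) := by omega
      rw [e1]
      simp only [e2, decide_false]
      exact h1
    · rw [hak] at hqk h1
      simp only [if_true] at hqk
      have e1 : q / 2 = ik k := by omega
      have e2 : q % 2 = 0 := by omega
      rw [e1]
      simp only [e2, decide_true]
      exact h1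
  have hlt1 : J.n + J.M + q < jm J := by unfold jm; omega
  have hlt2 : q / 2 < jm J := by unfold jm; omega
  by_cases h1 : r = 2 * J.M + 2
  · -- the blocker begins
    right; left
    refine ⟨?_, _, hlt1, ?_, hbk.2 (Or.inl h1)⟩
    · rw [if_neg (by omega), h1]
      unfold stt
      rw [if_neg (by omega)]
      split
      · rw [if_neg (by omega)]
      · rw [if_neg]
        rintro ⟨_, h, _⟩
        omega
    · unfold stt
      rw [if_pos h1]
  by_cases h2 : r = 2 * J.M + 3
  · right; right
    refine ⟨?_, _, hlt1, ?_, hbk.2 (Or.inr h2)⟩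
    · rw [h2]; exact stt_last q
    · rw [if_neg (by omega)]
      unfold stt
      rw [if_pos (by omega)]
  by_cases ho : occ a q = true
  · -- occupied zone
    have e1 : stt J a ik q r = if r < 2 * J.M + 1 then some (q / 2) else none := by
      unfold stt
      rw [if_neg h1, if_pos ho]
    have e2 : r ≠ 0 → stt J a ik q (r - 1) = some (q / 2) := by
      intro h
      unfold stt
      rw [if_neg (by omega), if_pos ho, if_pos (by omega)]
    rw [e1]
    by_cases h3 : r = 0
    · right; left
      refine ⟨by rw [if_pos h3], _, hlt2, by rw [if_pos (by omega)], hvk (Or.inl h3)⟩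
    · rw [if_neg h3, e2 h3]
      by_cases h4 : r < 2 * J.M + 1
      · left; rw [if_pos h4]
      · right; right
        exact ⟨by rw [if_neg h4], _, hlt2, rfl, hvk (Or.inr (by omega))⟩
  · -- free zone
    have e1 : ∀ r', r' ≠ 2 * J.M + 2 → stt J a ik q r' = if r' % 2 = 1 ∧ (r' - 1) / 2 < J.M ∧
        qk a ik ((r' - 1) / 2) = q then some (J.n + (r' - 1) / 2) else none := by
      intro r' h
      unfold stt
      rw [if_neg h, if_neg ho]
    rcases Nat.mod_two_eq_zero_or_one r with hr2 | hr2
    · -- even offset: the current state is none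
      have e3 : stt J a ik q r = none := by
        rw [e1 r h1, if_neg (by omega)]
      rw [e3]
      by_cases h3 : r = 0
      · left; rw [if_pos h3]
      · rw [if_neg h3, e1 (r - 1) (by omega)]
        split
        · rename_i h4
          right; right
          exact ⟨rfl, J.n + (r - 1 - 1) / 2, by unfold jm; omega, rfl,
            hck _ h4.2.1 h4.2.2 (by omega)⟩
        · left; rfl
    · have e2 : stt J a ik q (r - 1) = none := by
        rw [e1 (r - 1) (by omega), if_neg (by omega)]
      rw [if_neg (by omega), e2, e1 r h1]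
      split
      · rename_i h4
        right; left
        exact ⟨rfl, J.n + (r - 1) / 2, by unfold jm; omega, rfl,
          hck _ h4.2.1 h4.2.2 (by omega)⟩
      · left; rfl

theorem sched_of_sat (ha : ∀ k < J.M, ik k < J.n ∧ J.lit (ik k) (a (ik k)) k = true) :
    Sched (jm J) (jL J) (ps J) (gg J a ik) := by
  have hzl : zl J = 2 * J.M + 4 := rfl
  have hge : ∀ {q r : ℕ}, q < 2 * J.n → r < zl J →
      gg J a ik (q * zl J + r + 1) = stt J a ik q r ∧ q * zl J + r < jL J := by
    intro q r hq hr
    have hbL : q * zl J + r < jL J := by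
      unfold jL
      calc q * zl J + r < q * zl J + zl J := by omega
        _ = (q + 1) * zl J := by ring
        _ ≤ 2 * J.n * zl J := Nat.mul_le_mul_right _ hq
    refine ⟨?_, hbL⟩
    show (if q * zl J + r < jL J then stt J a ik ((q * zl J + r) / zl J)
      ((q * zl J + r) % zl J) else some (3 * J.n + J.M)) = _
    rw [if_pos hbL]
    congr 1
    · rw [Nat.mul_comm, Nat.mul_add_div (by omega), Nat.div_eq_of_lt hr, Nat.add_zero]
    · rw [Nat.mul_comm, Nat.mul_add_mod, Nat.mod_eq_of_lt hr]
  have hprev : ∀ {q r : ℕ}, q ≤ 2 * J.n → r < zl J → (r = 0 ∨ q < 2 * J.n) →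
      gg J a ik (q * zl J + r) = if r = 0 then none else stt J a ik q (r - 1) := by
    intro q r hq hr hqr
    by_cases h : r = 0
    · rw [if_pos h, h, Nat.add_zero]
      cases q with
      | zero => rw [Nat.zero_mul]; rfl
      | succ q =>
        have e : (q + 1) * zl J = q * zl J + (2 * J.M + 3) + 1 := by
          rw [Nat.add_mul, Nat.one_mul]; omega
        rw [e, (hge (q := q) (r := 2 * J.M + 3) (by omega) (by omega)).1]
        exact stt_last q
    · rw [if_neg h]
      have e : q * zl J + r = q * zl J + (r - 1) + 1 := by omega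
      rw [e, (hge (q := q) (r := r - 1) (by omega) (by omega)).1]
  refine ⟨rfl, fun b hb => ?_, fun j hj => ?_⟩
  · rcases Nat.lt_or_ge b (jL J) with hbL | hbL
    · have hq : b / zl J < 2 * J.n := Nat.div_lt_of_lt_mul (by
        unfold jL at hbL; rwa [Nat.mul_comm] at hbL)
      have hr : b % zl J < zl J := Nat.mod_lt _ (by omega)
      have e : b = (b / zl J) * zl J + b % zl J := by
        rw [Nat.mul_comm]; exact (Nat.div_add_mod _ _).symm
      have h1 := stt_tr (a := a) (ik := ik) ha hq hr e
      rw [← hprev hq.le hr (Or.inr hq), ← (hge hq hr).1, ← e] at h1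
      exact h1
    · have : b = jL J := by omega
      subst this
      right; left
      refine ⟨?_, 3 * J.n + J.M, by unfold jm; omega, ?_, (ps_fin J _).2 rfl⟩
      · have := hprev (q := 2 * J.n) (r := 0) le_rfl (by omega) (Or.inl rfl)
        rw [if_pos rfl, Nat.add_zero] at this
        exact this
      · show (if jL J < jL J then _ else _) = _
        rw [if_neg (lt_irrefl _)]
  · have hj : j < 3 * J.n + J.M + 1 := hj
    by_cases h1 : j < J.n
    · -- variables
      set q := 2 * j + (if a j then 1 else 0) with hq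
      have hq' : q < 2 * J.n ∧ q / 2 = j ∧ occ a q = true := by
        cases haj : a j
        · simp only [haj, Bool.false_eq_true, if_false] at hq
          have e1 : q / 2 = j := by omega
          have e2 : ¬ (q % 2 = 1) := by omega
          refine ⟨by omega, e1, ?_⟩
          unfold occ
          rw [e1, haj]
          simp [e2]
        · simp only [haj, if_true] at hq
          have e1 : q / 2 = j := by omega
          have e2 : q % 2 = 1 := by omega
          refine ⟨by omega, e1, ?_⟩
          unfold occ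
          rw [e1, haj]
          simp [e2]
      obtain ⟨h2, h3⟩ := hge hq'.1 (show 0 < zl J by omega)
      refine ⟨_, by omega, h2.trans ?_⟩
      unfold stt
      rw [if_neg (by omega), if_pos hq'.2.2, if_pos (by omega), hq'.2.1]
    by_cases h2 : j < J.n + J.M
    · -- clauses
      obtain ⟨k, rfl⟩ := Nat.exists_eq_add_of_le (Nat.le_of_not_lt h1)
      have hk : k < J.M := by omega
      have hi := (ha k hk).1
      have hq' : qk a ik k < 2 * J.n ∧ occ a (qk a ik k) = false := by
        unfold qk
        cases haj : a (ik k)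
        · simp only [Bool.false_eq_true, if_false]
          have e1 : (2 * ik k + 1) / 2 = ik k := by omega
          have e2 : (2 * ik k + 1) % 2 = 1 := by omega
          refine ⟨by omega, ?_⟩
          unfold occ
          rw [e1, haj]
          simp [e2]
        · simp only [if_true, Nat.add_zero]
          have e1 : (2 * ik k) / 2 = ik k := by omega
          have e2 : ¬ ((2 * ik k) % 2 = 1) := by omega
          refine ⟨by omega, ?_⟩
          unfold occ
          rw [e1, haj]
          simp [e2]
      obtain ⟨h3, h4⟩ := hge hq'.1 (show 1 + 2 * k < zl J by omega)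
      refine ⟨_, by omega, h3.trans ?_⟩
      unfold stt
      have e3 : (1 + 2 * k - 1) / 2 = k := by omega
      rw [if_neg (by omega), if_neg (by rw [hq'.2]; simp), e3, if_pos ⟨by omega, hk, rfl⟩]
    by_cases h3 : j < 3 * J.n + J.M
    · -- blockers
      obtain ⟨b, rfl⟩ := Nat.exists_eq_add_of_le (Nat.le_of_not_lt h2)
      obtain ⟨h4, h5⟩ := hge (q := b) (r := 2 * J.M + 2) (by omega) (by omega)
      refine ⟨_, by omega, h4.trans ?_⟩
      unfold stt
      rw [if_pos rfl]
    · have : j = 3 * J.n + J.M := by omega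
      subst this
      refine ⟨jL J + 1, le_rfl, ?_⟩
      show (if jL J < jL J then _ else _) = _
      rw [if_neg (lt_irrefl _)]

end complete

theorem sched_iff : (∃ g, Sched (jm J) (jL J) (ps J) g) ↔
    ∃ a : ℕ → Bool, ∀ k < J.M, ∃ i < J.n, J.lit i (a i) k = true := by
  constructor
  · rintro ⟨g, hg⟩
    exact sat_of_sched J hg
  · rintro ⟨a, h⟩
    have h' : ∀ k, ∃ i, k < J.M → i < J.n ∧ J.lit i (a i) k = true := by
      intro k
      by_cases hk : k < J.M
      · obtain ⟨i, hi⟩ := h k hk
        exact ⟨i, fun _ => hi⟩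
      · exact ⟨0, fun h => absurd h hk⟩
    choose ik hik using h'
    exact ⟨_, sched_of_sat (a := a) (ik := ik) hik⟩

end Pool.Agent.Dm81
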