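import Pool.Agent.Lib_MP_ce2681_lc.Vec
import Pool.Agent.Lib_MP_33ea09_lc.VerS

/-!
# The main loop: eliminating the leaves one after the other
-/

set_option linter.unusedSectionVars false
set_option linter.unusedVariables false

namespace Pool.Agent.Dm81

open Pool.Agent.PT81 Pool.Agent.Bx81

noncomputable section

variable {p : ℕ} [NeZero p]

/-- Presence of the edge `uv` at residue `i`. -/
def prf (n : ℕ) (rows : List (List Bool)) (i : Fin p) (u v : ℕ) : Bool :=
  ent rows (i.val * n + u) v

variable (p) in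
/-- The presence of the edge `uv` at all residues. -/
def prl (n : ℕ) (rows : List (List Bool)) (u v : ℕ) : List Bool :=
  (List.finRange p).map fun i => prf n rows i u v

theorem prb_prl (n : ℕ) (rows : List (List Bool)) (u v : ℕ) (i : Fin p) :
    prb (prl p n rows u v) i = prf n rows i u v := by
  unfold prb prl
  rw [List.getElem?_map, List.getElem?_eq_getElem (by simp)]
  simp

variable (p) in
/-- Adjacency in the tree. -/
def adjb (n : ℕ) (rows : List (List Bool)) (u v : ℕ) : Bool :=
  (prl p n rows u v).any fun b => b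

theorem adjb_iff (n : ℕ) (rows : List (List Bool)) (u v : ℕ) :
    adjb p n rows u v = true ↔ ∃ i : Fin p, prf n rows i u v = true := by
  unfold adjb prl
  simp

/-- Tables. -/
abbrev Tbl := List (ℕ × List (List ℕ × ℕ))

variable (p) in
/-- The entries adjacent to `v`. -/
def nbs (n : ℕ) (rows : List (List Bool)) (al : Tbl) (v : ℕ) : Tbl :=
  al.filter fun f => adjb p n rows v f.1

variable (p) in
/-- The entries that can be eliminated. -/
def pick (n : ℕ) (rows : List (List Bool)) (s : ℕ) (al : Tbl) : Tbl :=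
  al.filter fun e => !decide (e.1 = s) && decide ((nbs p n rows al e.1).length = 1)

variable (p) in
/-- Elimination of the entry `ev` with neighbour `eu`. -/
def upd (n : ℕ) (rows : List (List Bool)) (K B : ℕ) (al : Tbl)
    (ev eu : ℕ × List (List ℕ × ℕ)) : Tbl :=
  (al.filter fun f => !decide (f.1 = ev.1)).map fun f => if f.1 = eu.1 then
    (f.1, combL p (prl p n rows f.1 ev.1) K B f.2 (cloL p K B (2 * K) ev.2)) else f

variable (p) in
/-- One step of the main loop. -/
def stepA (n : ℕ) (rows : List (List Bool)) (s K B : ℕ) (al : Tbl) : Tbl :=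
  match (pick p n rows s al).head? with
  | none => al
  | some ev => match (nbs p n rows al ev.1).head? with
    | none => al
    | some eu => upd p n rows K B al ev eu

/-- The tree structure behind the rows. -/
structure TreeHyp (p : ℕ) [NeZero p] (n : ℕ) (rows : List (List Bool)) (s : ℕ) (par rk : ℕ → ℕ) :
    Prop where
  s_lt : s < n
  par_lt : ∀ v < n, v ≠ s → par v < n
  rk_lt : ∀ v < n, v ≠ s → rk (par v) < rk v
  symm : ∀ (i : Fin p) (u v : ℕ), u < n → v < n → prf n rows i u v = prf n rows i v u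
  adj : ∀ u v : ℕ, u < n → v < n → ((∃ i : Fin p, prf n rows i u v = true) ↔
    (u ≠ s ∧ par u = v) ∨ (v ≠ s ∧ par v = u))

/-- The invariant of the loop. -/
structure Inv (p : ℕ) [NeZero p] (n s : ℕ) (par : ℕ → ℕ) (al : Tbl) : Prop where
  nodup : (al.map Prod.fst).Nodup
  lt : ∀ e ∈ al, e.1 < n
  root : s ∈ al.map Prod.fst
  up : ∀ e ∈ al, e.1 ≠ s → par e.1 ∈ al.map Prod.fst
  good : ∀ e ∈ al, Good p e.2 ∧ ∀ x : Sta (Fin p), x ∈ den e.2 → x.1.card ≤ x.2

/-- The vertices of a table. -/
def XX (al : Tbl) : Finset ℕ := (al.map Prod.fst).toFinset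

/-- The states of a vertex in a table. -/
def TA (al : Tbl) (v : ℕ) : Set (Sta (Fin p)) := {x | ∃ e ∈ al, e.1 = v ∧ x ∈ den e.2}

theorem mem_XX {al : Tbl} {v : ℕ} : v ∈ XX al ↔ ∃ e ∈ al, e.1 = v := by
  simp [XX]

theorem Inv.eq_of_fst {n s : ℕ} {par : ℕ → ℕ} {al : Tbl} (h : Inv p n s par al)
    {e f : ℕ × List (List ℕ × ℕ)} (he : e ∈ al) (hf : f ∈ al) (hef : e.1 = f.1) : e = f :=
  List.inj_on_of_nodup_map h.nodup he hf hef

theorem TA_eq {n s : ℕ} {par : ℕ → ℕ} {al : Tbl} (h : Inv p n s par al)
    {e : ℕ × List (List ℕ × ℕ)} (he : e ∈ al) : (TA al e.1 : Set (Sta (Fin p))) = den e.2 := by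
  ext x
  constructor
  · rintro ⟨f, hf, hfe, hx⟩
    rw [h.eq_of_fst hf he hfe] at hx
    exact hx
  · intro hx
    exact ⟨e, he, rfl, hx⟩

variable (p) in
/-- The presence relation. -/
def prP (n : ℕ) (rows : List (List Bool)) (i : Fin p) (u v : ℕ) : Prop :=
  prf n rows i u v = true

theorem Ach_congr {V Z : Type} [DecidableEq V] {nx : Z → Z} {pr : Z → V → V → Prop}
    {X : Finset V} {A A' : V → Set (Sta Z)} (h : ∀ v ∈ X, A v = A' v) (a : V × Z) (c : ℕ) :
    Ach nx pr X A a c ↔ Ach nx pr X A' a c := by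
  unfold Ach
  refine exists_congr fun N => exists_congr fun k => and_congr ?_ Iff.rfl
  refine forall_congr' fun v => forall_congr' fun hv => ?_
  rw [h v hv]

section step

variable {n : ℕ} {rows : List (List Bool)} {s K B : ℕ} {par rk : ℕ → ℕ}

theorem pick_spec (H : TreeHyp p n rows s par rk) {al : Tbl} (h : Inv p n s par al)
    {ev : ℕ × List (List ℕ × ℕ)} (hev : ev ∈ pick p n rows s al) :
    ∃ eu, nbs p n rows al ev.1 = [eu] ∧ ev ∈ al ∧ eu ∈ al ∧ ev.1 ≠ s ∧ eu.1 = par ev.1 ∧
      eu.1 ≠ ev.1 ∧ ∀ f ∈ al, adjb p n rows ev.1 f.1 = true → f = eu := by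
  unfold pick at hev
  rw [List.mem_filter] at hev
  obtain ⟨h1, h2⟩ := hev
  simp only [Bool.and_eq_true, Bool.not_eq_true', decide_eq_false_iff_not,
    decide_eq_true_eq] at h2
  obtain ⟨h2, h3⟩ := h2
  obtain ⟨eu, heu⟩ := List.length_eq_one_iff.1 h3
  have hall : ∀ f ∈ al, adjb p n rows ev.1 f.1 = true → f = eu := by
    intro f hf hfa
    have : f ∈ nbs p n rows al ev.1 := List.mem_filter.2 ⟨hf, hfa⟩
    rw [heu, List.mem_singleton] at this
    exact this
  have heu' : eu ∈ nbs p n rows al ev.1 := by rw [heu]; exact List.mem_singleton_self _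
  have heu'' := (List.mem_filter.1 heu').1
  have hlt := h.lt ev h1
  obtain ⟨f, hf, hfp⟩ := List.mem_map.1 (h.up ev h1 h2)
  have hfe : f = eu := by
    refine hall f hf ?_
    rw [adjb_iff, H.adj _ _ hlt (h.lt f hf)]
    exact Or.inl ⟨h2, hfp.symm⟩
  subst hfe
  refine ⟨f, heu, h1, heu'', h2, hfp, ?_, hall⟩
  intro e
  have := H.rk_lt ev.1 hlt h2
  rw [← hfp, e] at this
  exact lt_irrefl _ this

theorem pick_nonempty (H : TreeHyp p n rows s par rk) {al : Tbl} (h : Inv p n s par al)
    (hl : 2 ≤ al.length) : pick p n rows s al ≠ [] := by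
  have hne : ((XX al).erase s).Nonempty := by
    have hc : (XX al).card = al.length := by
      unfold XX
      rw [List.toFinset_card_of_nodup h.nodup, List.length_map]
    have : ((XX al).erase s).card + 1 = (XX al).card := by
      rw [Finset.card_erase_of_mem (by unfold XX; rw [List.mem_toFinset]; exact h.root)]
      omega
    rw [← Finset.card_pos]; omega
  obtain ⟨v, hv, hmax⟩ := Finset.exists_max_image _ rk hne
  obtain ⟨hvs, hv⟩ := Finset.mem_erase.1 hv
  obtain ⟨ev, hev, rfl⟩ := mem_XX.1 hv
  obtain ⟨eu, heu, heup⟩ := List.mem_map.1 (h.up ev hev hvs)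
  have hlt := h.lt ev hev
  have h1 : nbs p n rows al ev.1 = al.filter fun f => decide (f = eu) := by
    unfold nbs
    refine List.filter_congr fun f hf => ?_
    rw [Bool.eq_iff_iff, decide_eq_true_eq, adjb_iff, H.adj _ _ hlt (h.lt f hf)]
    constructor
    · rintro (⟨_, h2⟩ | ⟨h2, h3⟩)
      · exact h.eq_of_fst hf heu (by rw [← h2, heup])
      · exfalso
        have h4 := H.rk_lt f.1 (h.lt f hf) h2
        rw [h3] at h4
        have h5 := hmax f.1 (Finset.mem_erase.2 ⟨h2, mem_XX.2 ⟨f, hf, rfl⟩⟩)
        omega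
    · rintro rfl
      exact Or.inl ⟨hvs, heup.symm⟩
  have h2 : (nbs p n rows al ev.1).length = 1 := by
    rw [h1, ← List.countP_eq_length_filter]
    have h3 : al.Nodup := List.Nodup.of_map _ h.nodup
    have h4 := List.count_eq_one_of_mem h3 heu
    rw [← h4, List.count]
    refine List.countP_congr fun f _ => ?_
    simp
  intro h3
  have : ev ∈ pick p n rows s al := by
    unfold pick
    rw [List.mem_filter]
    exact ⟨hev, by simp [hvs, h2]⟩
  rw [h3] at this
  simp at this

theorem stepA_spec (H : TreeHyp p n rows s par rk) (hK : B + 1 ≤ K) {al : Tbl}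
    (h : Inv p n s par al) (hl : 2 ≤ al.length) :
    Inv p n s par (stepA p n rows s K B al) ∧ (stepA p n rows s K B al).length + 1 = al.length ∧
    ∀ c ≤ B, (Ach (nxt p) (prP p n rows) (XX al) (TA al) (s, 0) c ↔
      Ach (nxt p) (prP p n rows) (XX (stepA p n rows s K B al)) (TA (stepA p n rows s K B al))
        (s, 0) c) := by
  obtain ⟨ev, l', hpk⟩ := List.exists_cons_of_ne_nil (pick_nonempty H h hl)
  have hev : ev ∈ pick p n rows s al := by rw [hpk]; exact List.mem_cons_self
  obtain ⟨eu, hnb, hev, heu, hvs, hpar, huv, hall⟩ := pick_spec H h hev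
  have e1 : stepA p n rows s K B al = upd p n rows K B al ev eu := by
    unfold stepA
    rw [hpk]
    simp only [List.head?_cons]
    rw [hnb]
    rfl
  rw [e1]
  set F : ℕ × List (List ℕ × ℕ) → ℕ × List (List ℕ × ℕ) := fun f => if f.1 = eu.1 then
    (f.1, combL p (prl p n rows f.1 ev.1) K B f.2 (cloL p K B (2 * K) ev.2)) else f with hF
  have hF1 : ∀ f, (F f).1 = f.1 := by
    intro f
    simp only [hF]
    split <;> rfl
  have e2 : upd p n rows K B al ev eu = (al.filter fun f => !decide (f.1 = ev.1)).map F := rfl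
  rw [e2]
  have hfst : ((al.filter fun f => !decide (f.1 = ev.1)).map F).map Prod.fst =
      (al.map Prod.fst).filter fun v => !decide (v = ev.1) := by
    rw [List.map_map, List.filter_map]
    have : Prod.fst ∘ F = Prod.fst := funext hF1
    rw [this]
    rfl
  have hX : XX ((al.filter fun f => !decide (f.1 = ev.1)).map F) = (XX al).erase ev.1 := by
    ext v
    unfold XX
    rw [hfst, List.mem_toFinset, Finset.mem_erase, List.mem_filter, List.mem_toFinset]
    simp [and_comm]
  have hltu := h.lt eu heu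
  have hltv := h.lt ev hev
  have hp1 : ∀ i : Fin p, prb (prl p n rows eu.1 ev.1) i = true ↔ prP p n rows i eu.1 ev.1 := by
    intro i; rw [prb_prl]; rfl
  have hp2 : ∀ i : Fin p, prb (prl p n rows eu.1 ev.1) i = true ↔ prP p n rows i ev.1 eu.1 := by
    intro i; rw [prb_prl, H.symm i _ _ hltu hltv]; rfl
  have hclo := cloL_spec (p := p) (K := K) (B := B) (M := 2 * K) (h.good ev hev).1
  have hcomb := combL_spec (V := ℕ) (pr := prP p n rows) (K := K) (B := B) hp1 hp2
    (h.good eu heu).1 hclo.1
  have hFu : F eu = (eu.1, combL p (prl p n rows eu.1 ev.1) K B eu.2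
      (cloL p K B (2 * K) ev.2)) := by
    simp only [hF, if_true]
  have hFw : ∀ f ∈ al, f ≠ eu → F f = f := by
    intro f hf hfe
    simp only [hF]
    rw [if_neg]
    intro e
    exact hfe (h.eq_of_fst hf heu e)
  have hTA : ∀ v ∈ (XX al).erase ev.1,
      Function.update (TA al) eu.1 (Comb (nxt p) (prP p n rows) (capS K B) eu.1 ev.1 (TA al eu.1)
        (Clo (nxt p) (capS K B) (2 * K) (TA al ev.1))) v =
      TA ((al.filter fun f => !decide (f.1 = ev.1)).map F) v := by
    intro v hv
    obtain ⟨hv1, hv2⟩ := Finset.mem_erase.1 hv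
    obtain ⟨f, hf, rfl⟩ := mem_XX.1 hv2
    have hinT : ∀ x : Sta (Fin p), x ∈ TA ((al.filter fun f => !decide (f.1 = ev.1)).map F) f.1 ↔
        x ∈ den (F f).2 := by
      intro x
      constructor
      · rintro ⟨g, hg, hgf, hx⟩
        obtain ⟨g', hg', rfl⟩ := List.mem_map.1 hg
        rw [hF1] at hgf
        have : g' = f := h.eq_of_fst (List.mem_filter.1 hg').1 hf hgf
        rw [← this]; exact hx
      · intro hx
        exact ⟨F f, List.mem_map.2 ⟨f, List.mem_filter.2 ⟨hf, by simpa using hv1⟩, rfl⟩, hF1 f, hx⟩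
    ext x
    rw [hinT]
    by_cases hfu : f = eu
    · subst hfu
      rw [Function.update_self, hFu, TA_eq h heu, TA_eq h hev]
      rw [hcomb.2, hclo.2]
    · rw [Function.update_of_ne (fun e => hfu (h.eq_of_fst hf heu e)), hFw f hf hfu, TA_eq h hf]
  refine ⟨⟨?_, ?_, ?_, ?_, ?_⟩, ?_, ?_⟩
  · rw [hfst]; exact h.nodup.filter _
  · intro e he
    obtain ⟨f, hf, rfl⟩ := List.mem_map.1 he
    rw [hF1]
    exact h.lt f (List.mem_filter.1 hf).1
  · rw [hfst, List.mem_filter]
    exact ⟨h.root, by simpa using fun e => hvs e.symm⟩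
  · intro e he hes
    obtain ⟨f, hf, rfl⟩ := List.mem_map.1 he
    rw [hF1] at hes ⊢
    have hf' := (List.mem_filter.1 hf).1
    rw [hfst, List.mem_filter]
    refine ⟨h.up f hf' hes, ?_⟩
    simp only [Bool.not_eq_true', decide_eq_false_iff_not]
    intro e
    have hfu : f = eu := by
      refine hall f hf' ?_
      rw [adjb_iff, H.adj _ _ hltv (h.lt f hf')]
      exact Or.inr ⟨hes, e⟩
    subst hfu
    have h1 := H.rk_lt _ hltv hvs
    have h2 := H.rk_lt _ hltu hes
    rw [← hpar] at h1
    rw [e] at h2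
    omega
  · intro e he
    obtain ⟨f, hf, rfl⟩ := List.mem_map.1 he
    have hf' := (List.mem_filter.1 hf).1
    by_cases hfu : f = eu
    · subst hfu
      rw [hFu]
      refine ⟨hcomb.1, fun x hx => ?_⟩
      rw [hcomb.2] at hx
      obtain ⟨_, y, hy, D, c, _, _, _, rfl⟩ := hx
      have h1 := (h.good f heu).2 y hy
      have h2 := card_le_cross D
      simp only [Multiset.card_add, Multiset.card_map]
      omega
    · rw [hFw f hf' hfu]
      exact h.good f hf'
  · rw [List.length_map]
    have h1 : (al.filter fun f => !decide (f.1 = ev.1)) = al.filter fun f => !decide (f = ev) := by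
      refine List.filter_congr fun f hf => ?_
      congr 1
      rw [decide_eq_decide]
      exact ⟨fun e => h.eq_of_fst hf hev e, fun e => by rw [e]⟩
    rw [h1]
    have h3 : al.Nodup := List.Nodup.of_map _ h.nodup
    have h4 := List.count_eq_one_of_mem h3 hev
    have h5 := List.length_eq_length_filter_add (l := al) (fun f => decide (f = ev))
    have h6 : (al.filter fun f => decide (f = ev)).length = 1 := by
      rw [← List.countP_eq_length_filter, ← h4, List.count]
      refine List.countP_congr fun f _ => ?_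
      simp
    omega
  · intro c hc
    rw [hX, ← Ach_congr hTA]
    refine elim (K := K) (B := B) (fun x h1 h2 => capS_of x h1 h2) hK (mem_XX.2 ⟨eu, heu, rfl⟩)
      (mem_XX.2 ⟨ev, hev, rfl⟩) huv ?_ ?_ (fun e => hvs e.symm) hc
    · intro w hw i hpr
      obtain ⟨f, hf, rfl⟩ := mem_XX.1 hw
      left
      have : f = eu := by
        refine hall f hf ?_
        rw [adjb_iff]
        rcases hpr with hpr | hpr
        · exact ⟨i, hpr⟩
        · refine ⟨i, ?_⟩
          rw [H.symm i _ _ hltv (h.lt f hf)]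
          exact hpr
      rw [this]
    · intro w hw x hx
      obtain ⟨f, hf, rfl⟩ := mem_XX.1 hw
      rw [TA_eq h hf] at hx
      exact (h.good f hf).2 x hx

theorem stepA_one {al : Tbl} (h : Inv p n s par al) (hl : al.length = 1) :
    stepA p n rows s K B al = al := by
  obtain ⟨e, rfl⟩ := List.length_eq_one_iff.1 hl
  have hs : e.1 = s := by
    have := h.root
    simp at this
    exact this.symm
  have : pick p n rows s [e] = [] := by
    unfold pick
    simp [hs]
  unfold stepA
  rw [this]
  rfl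

theorem iter_spec (H : TreeHyp p n rows s par rk) (hK : B + 1 ≤ K) {al : Tbl}
    (h : Inv p n s par al) (hl : 0 < al.length) (m : ℕ) :
    Inv p n s par ((stepA p n rows s K B)^[m] al) ∧
    ((stepA p n rows s K B)^[m] al).length = max (al.length - m) 1 ∧
    ∀ c ≤ B, (Ach (nxt p) (prP p n rows) (XX al) (TA al) (s, 0) c ↔
      Ach (nxt p) (prP p n rows) (XX ((stepA p n rows s K B)^[m] al))
        (TA ((stepA p n rows s K B)^[m] al)) (s, 0) c) := by
  induction m with
  | zero => exact ⟨h, by simp; omega, fun c _ => Iff.rfl⟩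
  | succ m ih =>
    obtain ⟨h1, h2, h3⟩ := ih
    rw [Function.iterate_succ_apply']
    by_cases h4 : ((stepA p n rows s K B)^[m] al).length = 1
    · rw [stepA_one h1 h4]
      refine ⟨h1, ?_, h3⟩
      omega
    · obtain ⟨a1, a2, a3⟩ := stepA_spec H hK h1 (by omega)
      refine ⟨a1, by omega, fun c hc => (h3 c hc).trans (a3 c hc)⟩

end step

/-! ### From movements to solutions -/

/-- A movement of `c` steps, with positions `x`, starting at residue `i`. -/
def Mov (n : ℕ) (rows : List (List Bool)) (i : Fin p) (c : ℕ) (x : ℕ → ℕ) : Prop :=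
  (∀ t ≤ c, x t < n) ∧ ∀ t < c, x t = x (t + 1) ∨
    prf n rows ((nxt p)^[t] i) (x t) (x (t + 1)) = true

theorem mov_of_chain {n : ℕ} {rows : List (List Bool)} (l : List (St ℕ (Fin p))) :
    ∀ v i, Chain (nxt p) l (some (v, i)) → (∀ st ∈ l, Ok (prP p n rows) (Finset.range n) st) →
    (∀ w < n, J w l = 0) → ∃ x : ℕ → ℕ, x 0 = v ∧ Mov n rows i (cM l) x ∧
      ∀ w, Vis w l → ∃ t ≤ cM l, x t = w := by
  induction l with
  | nil => intro v i h; simp [Chain] at h
  | cons s l ih =>
    rintro v i ⟨h1, h2⟩ h3 h4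
    have h3' : ∀ st ∈ l, Ok (prP p n rows) (Finset.range n) st :=
      fun st h => h3 st (List.mem_cons_of_mem _ h)
    have hs := h3 s List.mem_cons_self
    cases s with
    | mv a b j =>
      simp only [St.src, Option.some.injEq, Prod.mk.injEq] at h1
      obtain ⟨rfl, rfl⟩ := h1
      obtain ⟨x, hx0, hx1, hx2⟩ := ih b (nxt p i) h2 h3' (fun w hw => by simpa using h4 w hw)
      obtain ⟨ha, hb, hab⟩ := hs
      rw [Finset.mem_range] at ha hb
      refine ⟨fun t => match t with
        | 0 => v
        | t + 1 => x t, rfl, ⟨?_, ?_⟩, ?_⟩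
      · intro t ht
        cases t with
        | zero => exact ha
        | succ t =>
          rw [cM_cons] at ht
          simp only [St.cost] at ht
          exact hx1.1 t (by omega)
      · intro t ht
        rw [cM_cons] at ht
        simp only [St.cost] at ht
        cases t with
        | zero =>
          simp only [hx0, Function.iterate_zero, id]
          exact hab
        | succ t =>
          rw [Function.iterate_succ_apply]
          exact hx1.2 t (by omega)
      · intro w hw
        rcases vis_cons.1 hw with hw | hw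
        · exact ⟨0, by omega, hw⟩
        · obtain ⟨t, ht, hx⟩ := hx2 w hw
          refine ⟨t + 1, ?_, hx⟩
          rw [cM_cons]
          simp only [St.cost]
          omega
    | jp a j o =>
      have := h4 a (Finset.mem_range.1 hs)
      rw [J_jp_self] at this
      exact absurd this (Multiset.cons_ne_zero)
    | sp a j =>
      simp only [St.src, Option.some.injEq, Prod.mk.injEq] at h1
      obtain ⟨rfl, rfl⟩ := h1
      have h2 : Chain (nxt p) l none := h2
      have := chain_none h2
      subst this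
      refine ⟨fun _ => v, rfl, ⟨fun t _ => Finset.mem_range.1 hs, ?_⟩, ?_⟩
      · intro t ht
        simp [St.cost] at ht
      · intro w hw
        obtain ⟨st, hst, hw⟩ := hw
        rw [List.mem_singleton] at hst
        subst hst
        exact ⟨0, by omega, hw⟩

theorem chain_of_mov {n : ℕ} {rows : List (List Bool)} (c : ℕ) :
    ∀ (i : Fin p) (x : ℕ → ℕ), Mov n rows i c x → ∃ l : List (St ℕ (Fin p)),
      Chain (nxt p) l (some (x 0, i)) ∧ (∀ st ∈ l, Ok (prP p n rows) (Finset.range n) st) ∧
      (∀ w, J w l = 0) ∧ cM l = c ∧ ∀ t ≤ c, Vis (x t) l := by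
  induction c with
  | zero =>
    intro i x h
    refine ⟨[.sp (x 0) i], ⟨rfl, rfl⟩, ?_, by simp, by simp [St.cost], ?_⟩
    · intro st hst
      rw [List.mem_singleton] at hst
      subst hst
      exact Finset.mem_range.2 (h.1 0 le_rfl)
    · intro t ht
      have : t = 0 := by omega
      subst this
      exact ⟨_, List.mem_singleton_self _, rfl⟩
  | succ c ih =>
    intro i x h
    obtain ⟨l, h1, h2, h3, h4, h5⟩ := ih (nxt p i) (fun t => x (t + 1))
      ⟨fun t ht => h.1 (t + 1) (by omega), fun t ht => by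
        have := h.2 (t + 1) (by omega)
        rwa [Function.iterate_succ_apply] at this⟩
    refine ⟨.mv (x 0) (x 1) i :: l, ⟨rfl, h1⟩, ?_, by simpa using h3, ?_, ?_⟩
    · intro st hst
      rcases List.mem_cons.1 hst with rfl | hst
      · exact ⟨Finset.mem_range.2 (h.1 0 (by omega)), Finset.mem_range.2 (h.1 1 (by omega)),
          h.2 0 (by omega)⟩
      · exact h2 st hst
    · rw [cM_cons, h4]; simp only [St.cost]; omega
    · intro t ht
      rw [vis_cons]
      cases t with
      | zero => exact Or.inl rfl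
      | succ t => exact Or.inr (h5 t (by omega))

variable (p) in
/-- The initial table. -/
def al0 (n : ℕ) : Tbl := (List.range n).map fun v => (v, [(vec (0 : Multiset (Pc (Fin p))), 0)])

theorem al0_inv {n : ℕ} {rows : List (List Bool)} {s : ℕ} {par rk : ℕ → ℕ}
    (H : TreeHyp p n rows s par rk) : Inv p n s par (al0 p n) where
  nodup := by
    unfold al0
    rw [List.map_map]
    have : (Prod.fst ∘ fun v => (v, [(vec (0 : Multiset (Pc (Fin p))), 0)])) =
      (fun v : ℕ => v) := rfl
    rw [this, List.map_id']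
    exact List.nodup_range
  lt e he := by
    obtain ⟨v, hv, rfl⟩ := List.mem_map.1 he
    exact List.mem_range.1 hv
  root := by
    unfold al0
    simp [H.s_lt]
  up e he hes := by
    obtain ⟨v, hv, rfl⟩ := List.mem_map.1 he
    unfold al0
    have := H.par_lt v (List.mem_range.1 hv) hes
    simpa using this
  good e he := by
    obtain ⟨v, hv, rfl⟩ := List.mem_map.1 he
    refine ⟨?_, ?_⟩
    · intro y hy
      rw [List.mem_singleton] at hy
      exact ⟨0, by rw [hy]⟩
    · intro x hx
      have hx : (vec x.1, x.2) ∈ [(vec (0 : Multiset (Pc (Fin p))), 0)] := hx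
      rw [List.mem_singleton, Prod.mk.injEq] at hx
      rw [vec_inj hx.1]
      simp

theorem TA_al0 {n v : ℕ} (hv : v < n) :
    (TA (al0 p n) v : Set (Sta (Fin p))) = {((0 : Multiset (Pc (Fin p))), 0)} := by
  ext x
  constructor
  · rintro ⟨e, he, _, hx⟩
    obtain ⟨w, _, rfl⟩ := List.mem_map.1 he
    have hx : (vec x.1, x.2) ∈ [(vec (0 : Multiset (Pc (Fin p))), 0)] := hx
    rw [List.mem_singleton, Prod.mk.injEq] at hx
    exact Prod.ext (vec_inj hx.1) hx.2
  · intro hx
    rw [Set.mem_singleton_iff] at hx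
    subst hx
    refine ⟨_, List.mem_map.2 ⟨v, List.mem_range.2 hv, rfl⟩, rfl, ?_⟩
    show _ ∈ [_]
    exact List.mem_singleton_self _

theorem XX_al0 (n : ℕ) : XX (al0 p n) = Finset.range n := by
  ext v
  rw [mem_XX]
  unfold al0
  simp

theorem ach_al0 {n : ℕ} {rows : List (List Bool)} {s c : ℕ} :
    Ach (nxt p) (prP p n rows) (XX (al0 p n)) (TA (al0 p n)) (s, 0) c ↔
      ∃ x : ℕ → ℕ, x 0 = s ∧ Mov n rows (0 : Fin p) c x ∧ ∀ v < n, ∃ t ≤ c, x t = v := by
  rw [XX_al0]
  constructor
  · rintro ⟨N, k, h1, c', ⟨l, h2, h3, h4, h5, rfl⟩, rfl⟩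
    have h6 : ∀ v < n, N v = 0 ∧ k v = 0 := by
      intro v hv
      have := h1 v (Finset.mem_range.2 hv)
      rw [TA_al0 hv, Set.mem_singleton_iff, Prod.mk.injEq] at this
      exact this
    have h7 : ∑ v ∈ Finset.range n, k v = 0 :=
      Finset.sum_eq_zero fun v hv => (h6 v (Finset.mem_range.1 hv)).2
    rw [h7, Nat.add_zero]
    obtain ⟨x, hx0, hx1, hx2⟩ := mov_of_chain l s 0 h2 h3 (fun w hw => by
      rw [h4 w (Finset.mem_range.2 hw), (h6 w hw).1])
    exact ⟨x, hx0, hx1, fun v hv => hx2 v (h5 v (Finset.mem_range.2 hv))⟩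
  · rintro ⟨x, rfl, hx1, hx2⟩
    obtain ⟨l, h1, h2, h3, h4, h5⟩ := chain_of_mov c 0 x hx1
    refine ⟨fun _ => 0, fun _ => 0, ?_, c, ⟨l, h1, h2, fun v _ => h3 v, ?_, h4⟩, by simp⟩
    · intro v hv
      rw [TA_al0 (Finset.mem_range.1 hv)]
      rfl
    · intro v hv
      obtain ⟨t, ht, rfl⟩ := hx2 v (Finset.mem_range.1 hv)
      exact h5 t ht

variable (p) in
/-- The target vector. -/
def tgv : List ℕ := vec ({((0 : Fin p), none)} : Multiset (Pc (Fin p)))

variable (p) in
/-- The costs found in the final table. -/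
def costs (K B : ℕ) (al : Tbl) : List ℕ :=
  (List.range (B + 1)).filter fun c => al.any fun e =>
    (cloL p K B (2 * K) e.2).any fun y => decide (y = (tgv p, c))

theorem mem_costs {n : ℕ} {rows : List (List Bool)} {s K B : ℕ} {par rk : ℕ → ℕ}
    (H : TreeHyp p n rows s par rk) (hK : B + 1 ≤ K) (c : ℕ) :
    c ∈ costs p K B ((stepA p n rows s K B)^[n] (al0 p n)) ↔
      c ≤ B ∧ ∃ x : ℕ → ℕ, x 0 = s ∧ Mov n rows (0 : Fin p) c x ∧ ∀ v < n, ∃ t ≤ c, x t = v := by
  have hn : 0 < n := lt_of_le_of_lt (Nat.zero_le _) H.s_lt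
  have hlen : (al0 p n).length = n := by simp [al0]
  obtain ⟨h1, h2, h3⟩ := iter_spec H hK (al0_inv H) (by omega) n
  set al := (stepA p n rows s K B)^[n] (al0 p n) with hal
  rw [hlen] at h2
  have h2' : al.length = 1 := by omega
  obtain ⟨e, he⟩ := List.length_eq_one_iff.1 h2'
  have hes : e.1 = s := by
    have := h1.root
    rw [he] at this
    simp at this
    exact this.symm
  have hem : e ∈ al := by rw [he]; exact List.mem_singleton_self _
  unfold costs
  rw [List.mem_filter, List.mem_range, Nat.lt_succ_iff]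
  refine and_congr_right fun hc => ?_
  rw [← ach_al0, h3 c hc]
  have hX : XX al = {s} := by
    rw [he]
    ext v
    rw [mem_XX]
    simp [hes, eq_comm]
  rw [hX]
  have hl := last (nx := nxt p) (pr := prP p n rows) (K := K) (B := B)
    (fun x h1 h2 => capS_of x h1 h2) hK (A := TA al) (a := (s, 0)) (by
      intro x hx
      simp only [← hes] at hx
      rw [TA_eq h1 hem] at hx
      exact (h1.good e hem).2 x hx) hc
  simp only at hl
  rw [hl, ← hes, TA_eq h1 hem, ← (cloL_spec (p := p) (K := K) (B := B) (M := 2 * K)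
    (h1.good e hem).1).2, he]
  simp only [List.any_cons, List.any_nil, Bool.or_false, List.any_eq_true, decide_eq_true_eq,
    exists_eq_right]
  rfl

end

end Pool.Agent.Dm81
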