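import Pool.Agent.Lib_MP_ce2681_lc.Q1
import Pool.Agent.Lib_MP_33ea09_lc.NPList

/-!
# DMVP is in NP
-/

set_option linter.unusedSectionVars false
set_option linter.unusedVariables false

namespace Pool.Agent.Dm81

open Pool.Agent.PT81 Pool.Agent.IsoImp Pool.Agent.Bx81 Pool.Agent.TW81 Turing Polynomial

noncomputable section

/-! ### The verifier -/

/-- A positive version of a number. -/
def pz (n : ℕ) : ℕ := if decide (n = 0) then 1 else n

theorem pz_pos (n : ℕ) : 0 < pz n := by
  unfold pz
  split
  · omega
  · rename_i h; simp at h; omega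

theorem pz_eq {n : ℕ} (h : 0 < n) : pz n = n := by
  unfold pz
  rw [if_neg]
  simp; omega

/-- Adjacency in the union of the snapshots. -/
def ad (P n : ℕ) (s : List (List Bool)) (u v : ℕ) : Bool :=
  (List.range P).any fun i => ent s (i * n + u) v

/-- Entries of the certificate. -/
def yv (y : List ℕ) (i : ℕ) : ℕ := (y[i]?).getD 0

def chkF (n P : ℕ) (s : List (List Bool)) (bits : List Bool) : Bool :=
  ((decide (0 < n) && decide (0 < P)) && decide (s.length = P * n + 2)) &&
    ((List.range (P * n + 1)).all (fun i => decide (((s[i]?).getD []).length = n)) &&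
      !decide (bits.reverse.head? = some false))

def chkG (n P : ℕ) (s : List (List Bool)) : Bool :=
  (List.range P).all fun i => (List.range n).all fun u => !ent s (i * n + u) u &&
    (List.range n).all fun v => decide (ent s (i * n + u) v = ent s (i * n + v) u)

def chkS (n P : ℕ) (s : List (List Bool)) : Bool :=
  decide (sOf P n s < n) &&
    (List.range n).all fun v => decide (ent s (P * n) v = decide (v = sOf P n s))

def chkT (n P : ℕ) (s : List (List Bool)) (y : List ℕ) : Bool :=
  ((List.range n).all fun v => decide (v = sOf P n s) ||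
    (decide (yv y v < n) && decide (yv y (n + yv y v) < yv y (n + v)))) &&
  (List.range n).all fun u => (List.range n).all fun v => decide (ad P n s u v =
    ((!decide (u = sOf P n s) && decide (yv y u = v)) ||
      (!decide (v = sOf P n s) && decide (yv y v = u))))

def chkM (n P τ : ℕ) (s : List (List Bool)) (y : List ℕ) : Bool :=
  (decide (yv y (2 * n) = sOf P n s) && (List.range (τ + 1)).all (fun t =>
    decide (yv y (2 * n + t) < n))) &&
  ((List.range τ).all (fun t => decide (yv y (2 * n + (t + 1)) = yv y (2 * n + t)) ||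
    ent s ((t % pz P) * n + yv y (2 * n + t)) (yv y (2 * n + (t + 1)))) &&
  (List.range n).all (fun v => (List.range (τ + 1)).any fun t =>
    decide (yv y (2 * n + t) = v)))

def chkD (D : Option ℕ) (n P : ℕ) (s : List (List Bool)) : Bool :=
  match D with
  | none => true
  | some d => (List.range n).all fun v =>
      decide (((List.range n).filter fun u => ad P n s v u).length ≤ d)

/-- The verifier on segments. -/
def vr0 (D : Option ℕ) (n P : ℕ) (s : List (List Bool)) (bits : List Bool) (y : List ℕ) : Bool :=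
  (chkF n P s bits && (chkG n P s && chkS n P s)) && ((chkT n P s y && chkD D n P s) &&
    chkM n P (cval (n * n * P) bits) s y)

/-- The verifier. -/
def vr (D : Option ℕ) (x : List (Option Bool) × List ℕ) : Bool :=
  vr0 D ((seg x.1).headD []).length (((seg x.1).length - 2) / pz ((seg x.1).headD []).length)
    (seg x.1) (((seg x.1)[(seg x.1).length - 1]?).getD []) x.2

/-! ### Polynomial time -/

section poly

variable {E : PT81.Env} {γ : Type} [Enc E γ] {n P τ : γ → ℕ} {s : γ → List (List Bool)}
  {bits : γ → List Bool} {y : γ → List ℕ}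

theorem poly_pz (hn : Poly E n) : Poly E (fun c => pz (n c)) :=
  Poly.ite (Poly.eq hn (Poly.const 0)) (Poly.const 1) hn

theorem poly_yv {i : γ → ℕ} (hy : Poly E y) (hi : Poly E i) : Poly E (fun c => yv (y c) (i c)) :=
  poly_nthD 0 hy hi

theorem poly_sOf' (hP : Poly E P) (hn : Poly E n) (hs : Poly E s) :
    Poly E (fun c => sOf (P c) (n c) (s c)) :=
  poly_headD 0 (Poly.filter (g := fun q : γ × ℕ => ent (s q.1) (P q.1 * n q.1) q.2) hn.range
    (poly_ent (hs.comp Poly.fst) (Poly.mul (hP.comp Poly.fst) (hn.comp Poly.fst)) Poly.snd))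

theorem poly_ad {u v : γ → ℕ} (hP : Poly E P) (hn : Poly E n) (hs : Poly E s) (hu : Poly E u)
    (hv : Poly E v) : Poly E (fun c => ad (P c) (n c) (s c) (u c) (v c)) :=
  Poly.any (g := fun q : γ × ℕ => ent (s q.1) (q.2 * n q.1 + u q.1) (v q.1)) hP.range
    (poly_ent (hs.comp Poly.fst) (Poly.add (Poly.mul Poly.snd (hn.comp Poly.fst))
      (hu.comp Poly.fst)) (hv.comp Poly.fst))

theorem poly_chkF (hn : Poly E n) (hP : Poly E P) (hs : Poly E s) (hb : Poly E bits) :
    Poly E (fun c => chkF (n c) (P c) (s c) (bits c)) := by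
  refine Poly.and (Poly.and (Poly.and (Poly.lt (Poly.const 0) hn) (Poly.lt (Poly.const 0) hP))
    (Poly.eq (Poly.length hs) (Poly.add (Poly.mul hP hn) (Poly.const 2)))) (Poly.and ?_
      (Poly.not (Poly.eq (Poly.head? hb.reverse) (Poly.const (some false)))))
  exact Poly.all (g := fun q : γ × ℕ => decide ((((s q.1)[q.2]?).getD []).length = n q.1))
    (Poly.add (Poly.mul hP hn) (Poly.const 1)).range
    (Poly.eq (Poly.length (poly_nthD [] (hs.comp Poly.fst) Poly.snd)) (hn.comp Poly.fst))

theorem poly_chkG (hn : Poly E n) (hP : Poly E P) (hs : Poly E s) :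
    Poly E (fun c => chkG (n c) (P c) (s c)) := by
  refine Poly.all (g := fun q : γ × ℕ => (List.range (n q.1)).all fun u =>
    !ent (s q.1) (q.2 * n q.1 + u) u && (List.range (n q.1)).all fun v =>
      decide (ent (s q.1) (q.2 * n q.1 + u) v = ent (s q.1) (q.2 * n q.1 + v) u)) hP.range ?_
  refine Poly.all (g := fun r : (γ × ℕ) × ℕ =>
    !ent (s r.1.1) (r.1.2 * n r.1.1 + r.2) r.2 && (List.range (n r.1.1)).all fun v =>
      decide (ent (s r.1.1) (r.1.2 * n r.1.1 + r.2) v = ent (s r.1.1) (r.1.2 * n r.1.1 + v) r.2))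
      (hn.comp Poly.fst).range ?_
  have h1 : Poly E (fun r : (γ × ℕ) × ℕ => r.1.1) := Poly.fst.comp Poly.fst
  have h2 : Poly E (fun r : (γ × ℕ) × ℕ => r.1.2) := Poly.snd.comp Poly.fst
  refine Poly.and (Poly.not (poly_ent (hs.comp h1) (Poly.add (Poly.mul h2 (hn.comp h1))
    Poly.snd) Poly.snd)) ?_
  refine Poly.all (g := fun t : ((γ × ℕ) × ℕ) × ℕ =>
      decide (ent (s t.1.1.1) (t.1.1.2 * n t.1.1.1 + t.1.2) t.2 =
        ent (s t.1.1.1) (t.1.1.2 * n t.1.1.1 + t.2) t.1.2)) (hn.comp h1).range ?_
  have h3 : Poly E (fun t : ((γ × ℕ) × ℕ) × ℕ => t.1.1.1) := h1.comp Poly.fst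
  have h4 : Poly E (fun t : ((γ × ℕ) × ℕ) × ℕ => t.1.1.2) := h2.comp Poly.fst
  have h5 : Poly E (fun t : ((γ × ℕ) × ℕ) × ℕ => t.1.2) := Poly.snd.comp Poly.fst
  exact Poly.eq (poly_ent (hs.comp h3) (Poly.add (Poly.mul h4 (hn.comp h3)) h5) Poly.snd)
    (poly_ent (hs.comp h3) (Poly.add (Poly.mul h4 (hn.comp h3)) Poly.snd) h5)

theorem poly_chkS (hn : Poly E n) (hP : Poly E P) (hs : Poly E s) :
    Poly E (fun c => chkS (n c) (P c) (s c)) := by
  have h0 := poly_sOf' hP hn hs
  refine Poly.and (Poly.lt h0 hn) ?_
  exact Poly.all (g := fun q : γ × ℕ => decide (ent (s q.1) (P q.1 * n q.1) q.2 =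
    decide (q.2 = sOf (P q.1) (n q.1) (s q.1)))) hn.range
    (Poly.eq (poly_ent (hs.comp Poly.fst) (Poly.mul (hP.comp Poly.fst) (hn.comp Poly.fst))
      Poly.snd) (Poly.eq Poly.snd (h0.comp Poly.fst)))

theorem poly_chkT (hn : Poly E n) (hP : Poly E P) (hs : Poly E s) (hy : Poly E y) :
    Poly E (fun c => chkT (n c) (P c) (s c) (y c)) := by
  have h0 := poly_sOf' hP hn hs
  refine Poly.and ?_ ?_
  · refine Poly.all (g := fun q : γ × ℕ => decide (q.2 = sOf (P q.1) (n q.1) (s q.1)) ||
      (decide (yv (y q.1) q.2 < n q.1) && decide (yv (y q.1) (n q.1 + yv (y q.1) q.2) <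
        yv (y q.1) (n q.1 + q.2)))) hn.range ?_
    have hy1 := hy.comp (Poly.fst (E := E) (α := γ) (β := ℕ))
    have hn1 := hn.comp (Poly.fst (E := E) (α := γ) (β := ℕ))
    have h2 := poly_yv hy1 (Poly.snd (E := E) (α := γ) (β := ℕ))
    exact Poly.or (Poly.eq Poly.snd (h0.comp Poly.fst)) (Poly.and (Poly.lt h2 hn1)
      (Poly.lt (poly_yv hy1 (Poly.add hn1 h2)) (poly_yv hy1 (Poly.add hn1 Poly.snd))))
  · refine Poly.all (g := fun q : γ × ℕ => (List.range (n q.1)).all fun v =>
      decide (ad (P q.1) (n q.1) (s q.1) q.2 v =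
      ((!decide (q.2 = sOf (P q.1) (n q.1) (s q.1)) && decide (yv (y q.1) q.2 = v)) ||
      (!decide (v = sOf (P q.1) (n q.1) (s q.1)) && decide (yv (y q.1) v = q.2))))) hn.range ?_
    refine Poly.all (g := fun r : (γ × ℕ) × ℕ =>
      decide (ad (P r.1.1) (n r.1.1) (s r.1.1) r.1.2 r.2 =
      ((!decide (r.1.2 = sOf (P r.1.1) (n r.1.1) (s r.1.1)) && decide (yv (y r.1.1) r.1.2 = r.2)) ||
      (!decide (r.2 = sOf (P r.1.1) (n r.1.1) (s r.1.1)) &&
        decide (yv (y r.1.1) r.2 = r.1.2))))) (hn.comp Poly.fst).range ?_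
    have h1 : Poly E (fun r : (γ × ℕ) × ℕ => r.1.1) := Poly.fst.comp Poly.fst
    have h2 : Poly E (fun r : (γ × ℕ) × ℕ => r.1.2) := Poly.snd.comp Poly.fst
    exact Poly.eq (poly_ad (hP.comp h1) (hn.comp h1) (hs.comp h1) h2 Poly.snd)
      (Poly.or (Poly.and (Poly.not (Poly.eq h2 (h0.comp h1)))
        (Poly.eq (poly_yv (hy.comp h1) h2) Poly.snd))
        (Poly.and (Poly.not (Poly.eq Poly.snd (h0.comp h1)))
        (Poly.eq (poly_yv (hy.comp h1) Poly.snd) h2)))

theorem poly_chkM (hn : Poly E n) (hP : Poly E P) (hτ : Poly E τ) (hs : Poly E s)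
    (hy : Poly E y) : Poly E (fun c => chkM (n c) (P c) (τ c) (s c) (y c)) := by
  have h0 := poly_sOf' hP hn hs
  have h2n := Poly.mul (Poly.const 2) hn
  have hy1 := hy.comp (Poly.fst (E := E) (α := γ) (β := ℕ))
  have hn1 := hn.comp (Poly.fst (E := E) (α := γ) (β := ℕ))
  have h2n1 := h2n.comp (Poly.fst (E := E) (α := γ) (β := ℕ))
  have hx := poly_yv hy1 (Poly.add h2n1 (Poly.snd (E := E) (α := γ) (β := ℕ)))
  have hx' := poly_yv hy1 (Poly.add h2n1 (Poly.succ (Poly.snd (E := E) (α := γ) (β := ℕ))))
  refine Poly.and (Poly.and (Poly.eq (poly_yv hy h2n) h0) ?_) (Poly.and ?_ ?_)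
  · exact Poly.all (g := fun q : γ × ℕ => decide (yv (y q.1) (2 * n q.1 + q.2) < n q.1))
      hτ.succ.range (Poly.lt hx hn1)
  · refine Poly.all (g := fun q : γ × ℕ => decide (yv (y q.1) (2 * n q.1 + (q.2 + 1)) =
      yv (y q.1) (2 * n q.1 + q.2)) || ent (s q.1) ((q.2 % pz (P q.1)) * n q.1 +
      yv (y q.1) (2 * n q.1 + q.2)) (yv (y q.1) (2 * n q.1 + (q.2 + 1)))) hτ.range ?_
    exact Poly.or (Poly.eq hx' hx) (poly_ent (hs.comp Poly.fst) (Poly.add (Poly.mul
      (Poly.mod Poly.snd (poly_pz (hP.comp Poly.fst)) (fun _ => pz_pos _)) hn1) hx) hx')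
  · refine Poly.all (g := fun q : γ × ℕ => (List.range (τ q.1 + 1)).any fun t =>
      decide (yv (y q.1) (2 * n q.1 + t) = q.2)) hn.range ?_
    refine Poly.any (g := fun r : (γ × ℕ) × ℕ =>
      decide (yv (y r.1.1) (2 * n r.1.1 + r.2) = r.1.2)) (hτ.comp Poly.fst).succ.range ?_
    have h1 : Poly E (fun r : (γ × ℕ) × ℕ => r.1.1) := Poly.fst.comp Poly.fst
    exact Poly.eq (poly_yv (hy.comp h1) (Poly.add (h2n.comp h1) Poly.snd))
      (Poly.snd.comp Poly.fst)

theorem poly_chkD (D : Option ℕ) (hn : Poly E n) (hP : Poly E P) (hs : Poly E s) :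
    Poly E (fun c => chkD D (n c) (P c) (s c)) := by
  cases D with
  | none => exact Poly.const _
  | some d =>
    refine Poly.all (g := fun q : γ × ℕ =>
      decide (((List.range (n q.1)).filter fun u => ad (P q.1) (n q.1) (s q.1) q.2 u).length ≤ d))
      hn.range ?_
    refine Poly.le (Poly.length ?_) (Poly.const _)
    have h1 : Poly E (fun r : (γ × ℕ) × ℕ => r.1.1) := Poly.fst.comp Poly.fst
    exact Poly.filter (g := fun r : (γ × ℕ) × ℕ => ad (P r.1.1) (n r.1.1) (s r.1.1) r.1.2 r.2)
      (hn.comp Poly.fst).range (poly_ad (hP.comp h1) (hn.comp h1) (hs.comp h1)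
        (Poly.snd.comp Poly.fst) Poly.snd)

theorem poly_vr0 (D : Option ℕ) (hn : Poly E n) (hP : Poly E P) (hs : Poly E s)
    (hb : Poly E bits) (hy : Poly E y) :
    Poly E (fun c => vr0 D (n c) (P c) (s c) (bits c) (y c)) :=
  Poly.and (Poly.and (poly_chkF hn hP hs hb) (Poly.and (poly_chkG hn hP hs)
    (poly_chkS hn hP hs))) (Poly.and (Poly.and (poly_chkT hn hP hs hy) (poly_chkD D hn hP hs))
      (poly_chkM hn hP (poly_cval (Poly.mul (Poly.mul hn hn) hP) hb) hs hy))

theorem poly_vr (D : Option ℕ) [Enc E (Option Bool)] :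
    Poly E (fun p : List (Option Bool) × List ℕ => vr D p) := by
  have hs : Poly E (fun p : List (Option Bool) × List ℕ => seg p.1) := poly_seg Poly.fst
  have hn := Poly.length (poly_headD [] hs)
  have hP := Poly.div (Poly.sub (Poly.length hs) (Poly.const 2)) (poly_pz hn)
    (fun _ => pz_pos _)
  exact poly_vr0 D hn hP hs (poly_nthD [] hs (Poly.sub (Poly.length hs) (Poly.const 1))) Poly.snd

end poly

/-! ### Soundness -/

/-- The degree bound of an option. -/
def dO (D : Option ℕ) : ℕ∞ := match D with
  | none => ⊤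
  | some d => d

theorem degree_iff {n : ℕ} (G : SimpleGraph (Fin n)) (f : ℕ → ℕ → Bool)
    (hf : ∀ u v : Fin n, f u v = true ↔ G.Adj u v) (v : Fin n) (d : ℕ) :
    (G.neighborSet v).encard ≤ d ↔ ((List.range n).filter fun u => f v u).length ≤ d := by
  classical
  have h1 : (G.neighborSet v).encard = ((List.range n).filter fun u => f v u).length := by
    have h2 : G.neighborSet v = ((Finset.univ.filter fun u : Fin n => f v u = true :
        Finset (Fin n)) : Set (Fin n)) := by
      ext u
      simp [hf]
    rw [h2, Set.encard_coe_eq_coe_finsetCard]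
    congr 1
    have h3 : (List.range n).filter (fun u => f v u) =
        ((List.finRange n).filter fun u => f v u.val).map Fin.val := by
      rw [← List.map_coe_finRange_eq_range, List.filter_map]
      rfl
    rw [h3, List.length_map, ← List.toFinset_card_of_nodup ((List.nodup_finRange n).filter _)]
    congr 1
    ext u
    simp
  rw [h1]
  exact Nat.cast_le

theorem sound_vr {D : Option ℕ} {w : List (Option Bool)} {y : List ℕ}
    (h : vr D (w, y) = true) : w ∈ DMVP (dO D) := by
  classical
  unfold vr at h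
  simp only at h
  obtain ⟨rows, bits, hw⟩ := exists_unseg w
  have hseg : seg w = rows ++ [bits] := by rw [hw, seg_unseg]
  generalize hn : ((seg w).headD []).length = n at h
  generalize hP : ((seg w).length - 2) / pz n = P at h
  have hbits : ((seg w)[(seg w).length - 1]?).getD [] = bits := by
    rw [hseg]
    simp
  rw [hbits] at h
  unfold vr0 at h
  rw [Bool.and_eq_true, Bool.and_eq_true, Bool.and_eq_true, Bool.and_eq_true,
    Bool.and_eq_true] at h
  obtain ⟨⟨hF, hG, hS⟩, ⟨hT, hD⟩, hM⟩ := h
  generalize hs : seg w = s at *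
  unfold chkF at hF
  simp only [Bool.and_eq_true, decide_eq_true_eq, Bool.not_eq_true', decide_eq_false_iff_not,
    List.all_eq_true, List.mem_range] at hF
  obtain ⟨⟨⟨hn0, hP0⟩, hlen⟩, hrows, hcan⟩ := hF
  unfold chkG at hG
  simp only [Bool.and_eq_true, decide_eq_true_eq, Bool.not_eq_true',
    List.all_eq_true, List.mem_range] at hG
  unfold chkS at hS
  simp only [Bool.and_eq_true, decide_eq_true_eq, List.all_eq_true, List.mem_range] at hS
  obtain ⟨hst, hsr⟩ := hS
  generalize hstd : sOf P n s = st at *
  unfold chkT at hT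
  rw [hstd] at hT
  simp only [Bool.and_eq_true, decide_eq_true_eq, Bool.or_eq_true,
    List.all_eq_true, List.mem_range] at hT
  obtain ⟨hT1, hT2⟩ := hT
  unfold chkM at hM
  rw [hstd] at hM
  simp only [Bool.and_eq_true, decide_eq_true_eq, Bool.or_eq_true, List.any_eq_true,
    List.all_eq_true, List.mem_range] at hM
  obtain ⟨⟨hM0, hM1⟩, hM2, hM3⟩ := hM
  rw [pz_eq hP0] at hM2
  -- the instance
  let sn : Fin P → SimpleGraph (Fin n) := fun i =>
    { Adj := fun u v => ent s (i.val * n + u.val) v.val = true
      symm := ⟨fun u v h => by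
        have := (hG i.val i.2 u.val u.2).2 v.val v.2
        rw [← this]; exact h⟩
      loopless := ⟨fun u h => by
        have := (hG i.val i.2 u.val u.2).1
        rw [this] at h
        simp at h⟩ }
  have hadj : ∀ u v : Fin n, (⨆ i, sn i).Adj u v ↔ ad P n s u v = true := by
    intro u v
    rw [SimpleGraph.iSup_adj]
    unfold ad
    rw [List.any_eq_true]
    constructor
    · rintro ⟨i, hi⟩
      exact ⟨i.val, List.mem_range.2 i.2, hi⟩
    · rintro ⟨i, hi, h⟩
      exact ⟨⟨i, List.mem_range.1 hi⟩, h⟩
  let R : RT (Fin n) :=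
    { root := ⟨st, hst⟩
      par := fun v => if h : yv y v < n then ⟨yv y v, h⟩ else v
      rk := fun v => yv y (n + v)
      lt := fun v hv => by
        have hv' : v.val ≠ st := fun e => hv (Fin.ext e)
        obtain ⟨h1, h2⟩ := (hT1 v.val v.2).resolve_left hv'
        simp only [dif_pos h1]
        exact h2 }
  have htree : (⨆ i, sn i) = R.graph := by
    ext u v
    rw [hadj, hT2 u.val u.2 v.val v.2]
    have key : ∀ a b : Fin n, (a ≠ R.root ∧ R.par a = b) ↔
        ((!decide (a.val = st)) && decide (yv y a = b.val)) = true := by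
      intro a b
      rw [Bool.and_eq_true, Bool.not_eq_true', decide_eq_false_iff_not, decide_eq_true_eq]
      have e1 : a ≠ R.root ↔ ¬ (a.val = st) :=
        not_congr ⟨fun e => congrArg Fin.val e, fun e => Fin.ext e⟩
      rw [e1]
      refine and_congr_right fun ha => ?_
      obtain ⟨h1, _⟩ := (hT1 a.val a.2).resolve_left ha
      have e2 : R.par a = ⟨yv y a, h1⟩ := dif_pos h1
      rw [e2]
      exact ⟨fun e => congrArg Fin.val e, fun e => Fin.ext e⟩
    show _ ↔ ((u ≠ R.root ∧ R.par u = v) ∨ (v ≠ R.root ∧ R.par v = u))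
    rw [key, key, Bool.or_eq_true]
  let I : PTree P := ⟨n, sn, ⟨st, hst⟩, hP0, by rw [htree]; exact R.isTree⟩
  have hrl : rows.length = P * n + 1 := by
    have := congrArg List.length hseg
    rw [List.length_append, List.length_singleton, hlen] at this
    omega
  have hsget : ∀ i (hi : i < P * n + 1), s[i]? = some (rows[i]'(by omega)) := by
    intro i hi
    rw [hseg, List.getElem?_append_left (by omega), List.getElem?_eq_getElem]
  have hrowlen : ∀ i (hi : i < P * n + 1), (rows[i]'(by omega)).length = n := by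
    intro i hi
    have := hrows i hi
    rw [hsget i hi] at this
    exact this
  have hent : ∀ i (hi : i < P * n + 1) (v : Fin n), ent s i v.val =
      (rows[i]'(by omega))[v.val]'(by rw [hrowlen i hi]; exact v.2) := by
    intro i hi v
    unfold ent
    rw [hsget i hi, Option.getD_some, List.getElem?_eq_getElem (by rw [hrowlen i hi]; exact v.2),
      Option.getD_some]
  have hrows' : rows = mrows I ++ [srow I] := by
    refine List.ext_getElem ?_ fun i hi1 hi2 => ?_
    · rw [List.length_append, mrows_length, List.length_singleton, hrl]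
    · rw [hrl] at hi1
      have hlen1 : (mrows I).length = P * n := mrows_length I
      refine List.ext_getElem ?_ fun v hv1 hv2 => ?_
      · rw [hrowlen i hi1]
        by_cases hi : i < P * n
        · obtain ⟨q, u, hu, hq, rfl⟩ : ∃ q u, u < n ∧ q < P ∧ i = q * n + u := by
            refine ⟨i / n, i % n, Nat.mod_lt _ hn0, Nat.div_lt_of_lt_mul (by
              rwa [Nat.mul_comm]), ?_⟩
            rw [Nat.mul_comm]; exact (Nat.div_add_mod _ _).symm
          have h1 := mrows_get I ⟨q, hq⟩ ⟨u, hu⟩ [srow I]
          have h1 : (mrows I ++ [srow I])[q * n + u]? = _ := h1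
          rw [List.getElem?_eq_getElem hi2] at h1
          injection h1 with h1
          rw [h1]
          simp [I]
        · have : i = P * n := by omega
          subst this
          rw [List.getElem_append_right (by omega)]
          simp only [hlen1, Nat.sub_self, List.getElem_cons_zero]
          unfold srow
          simp [I]
      · have hvn : v < n := by rwa [hrowlen i hi1] at hv1
        have h3 := hent i hi1 ⟨v, hvn⟩
        simp only at h3
        rw [← h3]
        by_cases hi : i < P * n
        · obtain ⟨q, u, hu, hq, rfl⟩ : ∃ q u, u < n ∧ q < P ∧ i = q * n + u := by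
            refine ⟨i / n, i % n, Nat.mod_lt _ hn0, Nat.div_lt_of_lt_mul (by
              rwa [Nat.mul_comm]), ?_⟩
            rw [Nat.mul_comm]; exact (Nat.div_add_mod _ _).symm
          have h1 := mrows_get I ⟨q, hq⟩ ⟨u, hu⟩ [srow I]
          have h1 : (mrows I ++ [srow I])[q * n + u]? = _ := h1
          rw [List.getElem?_eq_getElem hi2] at h1
          injection h1 with h1
          simp only [h1, List.getElem_map, List.getElem_finRange]
          rw [Bool.eq_iff_iff, decide_eq_true_eq]
          rfl
        · have : i = P * n := by omega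
          subst this
          have e4 : (mrows I ++ [srow I])[P * n] = srow I := by
            rw [List.getElem_append_right (by omega)]
            simp [hlen1]
          simp only [e4]
          unfold srow
          simp only [List.getElem_map, List.getElem_finRange]
          rw [hsr v hvn]
          rw [decide_eq_decide]
          exact ⟨fun e => Fin.ext e, fun e => congrArg Fin.val e⟩
  have hbv : Nat.bits (bval bits) = bits := by
    refine bits_bval bits ?_
    rwa [← List.head?_reverse]
  refine ⟨P, I, bval bits, ?_, ?_, ?_⟩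
  · rw [encode_eq', hw, hrows', hbv]
  · intro v
    cases D with
    | none => exact le_top
    | some d =>
      show _ ≤ (d : ℕ∞)
      unfold chkD at hD
      simp only [List.all_eq_true, List.mem_range, decide_eq_true_eq] at hD
      exact (degree_iff _ (ad P n s) (fun u v => (hadj u v).symm) v d).2 (hD v.val v.2)
  · rw [coverTime_le_iff]
    have hc : cval (n * n * P) bits ≤ bval bits := by rw [cval_eq]; exact min_le_left _ _
    refine coverable_mono (τ := cval (n * n * P) bits) ?_ hc
    refine ⟨fun t => if h : yv y (2 * n + t) < n then ⟨yv y (2 * n + t), h⟩ else ⟨st, hst⟩,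
      ⟨?_, fun t ht => ?_⟩, fun v => ?_⟩
    · have h1 := hM1 0 (by omega)
      simp only [dif_pos h1]
      ext
      simpa using hM0
    · have h1 := hM1 t (by omega)
      have h2 := hM1 (t + 1) (by omega)
      simp only [dif_pos h1, dif_pos h2]
      rcases hM2 t ht with h3 | h3
      · left; ext; exact h3
      · right; exact h3
    · obtain ⟨t, ht, hx⟩ := hM3 v.val v.2
      refine ⟨t, by omega, ?_⟩
      simp only [dif_pos (hM1 t ht)]
      ext
      exact hx

/-! ### Completeness -/

theorem bits_getLast (d : ℕ) : (Nat.bits d).getLast? ≠ some false := by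
  induction d using Nat.binaryRec' with
  | zero => simp
  | bit b m hm ih =>
    rw [Nat.bits_append_bit m b hm]
    cases hbm : Nat.bits m with
    | nil =>
      have : m = 0 := by
        have := bval_bits m
        rw [hbm] at this
        simpa [bval] using this.symm
      rw [hm this]
      simp
    | cons c l =>
      rw [List.getLast?_cons_cons, ← hbm]
      exact ih

/-- Rooted trees with small ranks. -/
theorem small_rk {n : ℕ} (R : RT (Fin n)) : ∃ R' : RT (Fin n), R'.root = R.root ∧
    R'.par = R.par ∧ ∀ v, R'.rk v ≤ n := by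
  classical
  refine ⟨⟨R.root, R.par, fun v => (Finset.univ.filter fun w => R.rk w < R.rk v).card, ?_⟩,
    rfl, rfl, fun v => ?_⟩
  · intro z hz
    refine Finset.card_lt_card ?_
    rw [Finset.ssubset_iff_of_subset]
    · exact ⟨R.par z, by simpa using R.lt z hz, by simp⟩
    · intro w hw
      simp only [Finset.mem_filter, Finset.mem_univ, true_and] at hw ⊢
      exact hw.trans (R.lt z hz)
  · show (Finset.univ.filter fun w => R.rk w < R.rk v).card ≤ n
    exact (Finset.card_le_univ _).trans (by rw [Fintype.card_fin])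

theorem complete_vr {D : Option ℕ} {w : List (Option Bool)} (h : w ∈ DMVP (dO D)) :
    ∃ y : List ℕ, y.length ≤ 3 * w.length + 1 ∧ (∀ a ∈ y, a ≤ w.length) ∧
      vr D (w, y) = true := by
  classical
  obtain ⟨P, I, t, rfl, hdeg, hcov⟩ := h
  have hs : seg (I.encode ++ (Nat.bits t).map some) = mrows I ++ (srow I :: [Nat.bits t]) := by
    rw [seg_encode']; simp
  set n := I.n with hn
  have hn0 : 0 < n := lt_of_le_of_lt (Nat.zero_le _) I.start.2
  have hP0 := I.pos
  set B := min t (n * n * P) with hB
  have hcovB : I.CoverableBy B := by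
    rw [← coverTime_le_iff]
    exact le_min hcov coverTime_le
  obtain ⟨x, ⟨hx0, hx1⟩, hx2⟩ := hcovB
  obtain ⟨R₀, hR1, hR2⟩ := exists_root I.T I.tree I.start
  obtain ⟨R, hR3, hR4, hrk⟩ := small_rk R₀
  have hRg : R.graph = I.T := by
    rw [← hR2]
    ext u v
    show ((u ≠ R.root ∧ R.par u = v) ∨ (v ≠ R.root ∧ R.par v = u)) ↔
      ((u ≠ R₀.root ∧ R₀.par u = v) ∨ (v ≠ R₀.root ∧ R₀.par v = u))
    rw [hR3, hR4]
  have hRr : R.root = I.start := by rw [hR3, hR1]
  let y : List ℕ := (List.finRange n).map (fun v => (R.par v).val) ++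
    ((List.finRange n).map (fun v => R.rk v) ++ (List.range (B + 1)).map fun t => (x t).val)
  have hy1 : ∀ v : Fin n, yv y v.val = (R.par v).val := by
    intro v
    unfold yv
    simp only [y]
    rw [List.getElem?_append_left (by simp)]
    simp
  have hy2 : ∀ v : Fin n, yv y (n + v.val) = R.rk v := by
    intro v
    unfold yv
    simp only [y]
    rw [List.getElem?_append_right (by simp), List.length_map, List.length_finRange,
      Nat.add_sub_cancel_left, List.getElem?_append_left (by simp)]
    simp
  have hy3 : ∀ t ≤ B, yv y (2 * n + t) = (x t).val := by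
    intro t ht
    unfold yv
    simp only [y]
    rw [List.getElem?_append_right (by simp; omega), List.length_map, List.length_finRange,
      List.getElem?_append_right (by simp; omega), List.length_map, List.length_finRange]
    have e : 2 * n + t - n - n = t := by omega
    rw [e]
    simp [Nat.lt_succ_of_le ht]
  have hsz : P * n * n ≤ (I.encode ++ (Nat.bits t).map some).length ∧
      n ≤ (I.encode ++ (Nat.bits t).map some).length := by
    have h1 : (I.encode).length = P * (n * (n + 1)) + (n + 1) := by
      unfold PTree.encode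
      simp [List.length_flatMap, hn]
    rw [List.length_append, h1]
    constructor
    · have : P * (n * (n + 1)) = P * n * n + P * n := by ring
      omega
    · omega
  have hBle : B ≤ (I.encode ++ (Nat.bits t).map some).length := by
    refine (min_le_right _ _).trans ?_
    have : n * n * P = P * n * n := by ring
    omega
  refine ⟨y, ?_, ?_, ?_⟩
  · simp only [y, List.length_append, List.length_map, List.length_finRange, List.length_range]
    simp only [List.length_append, List.length_map] at hsz hBle ⊢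
    omega
  · intro a ha
    simp only [y, List.mem_append, List.mem_map] at ha
    rcases ha with ⟨v, _, rfl⟩ | ⟨v, _, rfl⟩ | ⟨t, _, rfl⟩
    · exact (R.par v).2.le.trans hsz.2
    · exact (hrk v).trans hsz.2
    · exact (x t).2.le.trans hsz.2
  · unfold vr
    simp only
    rw [hs, head_mrows]
    have hlen : (mrows I ++ (srow I :: [Nat.bits t])).length = P * n + 2 := by
      simp [mrows_length, hn]
    rw [hlen, ← hn]
    have hPd : (P * n + 2 - 2) / pz n = P := by
      rw [pz_eq hn0, Nat.add_sub_cancel, Nat.mul_div_cancel _ hn0]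
    rw [hPd]
    have hbits : ((mrows I ++ (srow I :: [Nat.bits t]))[P * n + 2 - 1]?).getD [] =
        Nat.bits t := by
      have hl : (mrows I).length = P * n := mrows_length I
      rw [List.getElem?_append_right (by rw [hl]; omega), hl]
      have : P * n + 2 - 1 - P * n = 1 := by omega
      rw [this]
      simp
    rw [hbits]
    have hst : sOf P n (mrows I ++ (srow I :: [Nat.bits t])) = I.start.val := sOf_eq I _
    have hcval : cval (n * n * P) (Nat.bits t) = B := by rw [cval_eq, bval_bits]
    have hentM : ∀ (i : Fin P) (u v : Fin n), ent (mrows I ++ (srow I :: [Nat.bits t]))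
        (i.val * n + u.val) v.val = true ↔ (I.snap i).Adj u v := fun i u v => ent_mrows I i u v _
    have had : ∀ u v : Fin n, ad P n (mrows I ++ (srow I :: [Nat.bits t])) u v = true ↔
        I.T.Adj u v := by
      intro u v
      unfold ad PTree.T
      rw [List.any_eq_true, SimpleGraph.iSup_adj]
      constructor
      · rintro ⟨i, hi, h⟩
        exact ⟨⟨i, List.mem_range.1 hi⟩, (hentM ⟨i, List.mem_range.1 hi⟩ u v).1 h⟩
      · rintro ⟨i, hi⟩
        exact ⟨i.val, List.mem_range.2 i.2, (hentM i u v).2 hi⟩
    unfold vr0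
    rw [hcval]
    simp only [Bool.and_eq_true]
    refine ⟨⟨?_, ?_, ?_⟩, ⟨?_, ?_⟩, ?_⟩
    · unfold chkF
      simp only [Bool.and_eq_true, decide_eq_true_eq, Bool.not_eq_true',
        decide_eq_false_iff_not, List.all_eq_true, List.mem_range]
      refine ⟨⟨⟨hn0, hP0⟩, hlen⟩, fun i hi => ?_, ?_⟩
      · by_cases hi' : i < P * n
        · obtain ⟨q, u, hu, hq, rfl⟩ : ∃ q u, u < n ∧ q < P ∧ i = q * n + u := by
            refine ⟨i / n, i % n, Nat.mod_lt _ hn0, Nat.div_lt_of_lt_mul (by
              rwa [Nat.mul_comm]), ?_⟩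
            rw [Nat.mul_comm]; exact (Nat.div_add_mod _ _).symm
          rw [mrows_get I ⟨q, hq⟩ ⟨u, hu⟩]
          simp [hn]
        · have : i = P * n := by omega
          subst this
          rw [List.getElem?_append_right (by rw [mrows_length]), mrows_length, Nat.sub_self]
          simp [srow, hn]
      · rw [List.head?_reverse]
        exact bits_getLast t
    · unfold chkG
      simp only [Bool.and_eq_true, decide_eq_true_eq, Bool.not_eq_true',
        List.all_eq_true, List.mem_range]
      intro i hi u hu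
      refine ⟨?_, fun v hv => ?_⟩
      · have := hentM ⟨i, hi⟩ ⟨u, hu⟩ ⟨u, hu⟩
        simp only [SimpleGraph.irrefl, iff_false, Bool.not_eq_true] at this
        exact this
      · rw [Bool.eq_iff_iff]
        exact (hentM ⟨i, hi⟩ ⟨u, hu⟩ ⟨v, hv⟩).trans ((SimpleGraph.adj_comm _ _ _).trans
          (hentM ⟨i, hi⟩ ⟨v, hv⟩ ⟨u, hu⟩).symm)
    · unfold chkS
      rw [hst]
      simp only [Bool.and_eq_true, decide_eq_true_eq, List.all_eq_true, List.mem_range]
      refine ⟨I.start.2, fun v hv => ?_⟩
      rw [Bool.eq_iff_iff, decide_eq_true_eq]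
      exact (ent_srow I ⟨v, hv⟩ _).trans ⟨fun e => congrArg Fin.val e, fun e => Fin.ext e⟩
    · unfold chkT
      rw [hst]
      simp only [Bool.and_eq_true, decide_eq_true_eq, Bool.or_eq_true, List.all_eq_true,
        List.mem_range]
      refine ⟨fun v hv => ?_, fun u hu v hv => ?_⟩
      · by_cases hvs : v = I.start.val
        · exact Or.inl hvs
        · right
          have e1 := hy1 ⟨v, hv⟩
          have e2 := hy2 ⟨v, hv⟩
          have e3 := hy2 (R.par ⟨v, hv⟩)
          simp only at e1 e2
          rw [e1, e2, e3]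
          refine ⟨(R.par ⟨v, hv⟩).2, R.lt _ ?_⟩
          rw [hRr]
          exact fun e => hvs (congrArg Fin.val e)
      · rw [Bool.eq_iff_iff]
        refine (had ⟨u, hu⟩ ⟨v, hv⟩).trans ?_
        rw [← hRg]
        show ((((⟨u, hu⟩ : Fin n) ≠ R.root ∧ R.par ⟨u, hu⟩ = ⟨v, hv⟩) ∨
          ((⟨v, hv⟩ : Fin n) ≠ R.root ∧ R.par ⟨v, hv⟩ = ⟨u, hu⟩))) ↔ _
        have key : ∀ a (ha : a < n) b (hb : b < n), (((⟨a, ha⟩ : Fin n) ≠ R.root ∧
            R.par ⟨a, ha⟩ = ⟨b, hb⟩)) ↔
            ((!decide (a = I.start.val)) && decide (yv y a = b)) = true := by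
          intro a ha b hb
          rw [Bool.and_eq_true, Bool.not_eq_true', decide_eq_false_iff_not, decide_eq_true_eq,
            hRr]
          have e1 := hy1 ⟨a, ha⟩
          simp only at e1
          rw [e1]
          exact and_congr (not_congr ⟨fun e => congrArg Fin.val e, fun e => Fin.ext e⟩)
            ⟨fun e => congrArg Fin.val e, fun e => Fin.ext e⟩
        rw [key, key, Bool.or_eq_true]
    · cases D with
      | none => rfl
      | some d =>
        unfold chkD
        simp only [List.all_eq_true, List.mem_range, decide_eq_true_eq]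
        intro v hv
        exact (degree_iff I.T (ad P n (mrows I ++ (srow I :: [Nat.bits t]))) had ⟨v, hv⟩ d).1
          (hdeg ⟨v, hv⟩)
    · unfold chkM
      rw [hst, pz_eq hP0]
      simp only [Bool.and_eq_true, decide_eq_true_eq, Bool.or_eq_true, List.any_eq_true,
        List.all_eq_true, List.mem_range]
      refine ⟨⟨?_, fun t ht => ?_⟩, fun t ht => ?_, fun v hv => ?_⟩
      · have := hy3 0 (by omega)
        rw [Nat.add_zero] at this
        rw [this, hx0]
      · rw [hy3 t (by omega)]
        exact (x t).2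
      · rw [hy3 t (by omega), hy3 (t + 1) (by omega)]
        rcases hx1 t ht with h1 | h1
        · exact Or.inl (congrArg Fin.val h1)
        · exact Or.inr ((hentM ⟨t % P, Nat.mod_lt _ hP0⟩ (x t) (x (t + 1))).2 h1)
      · obtain ⟨t, ht, h1⟩ := hx2 ⟨v, hv⟩
        refine ⟨t, by omega, ?_⟩
        rw [hy3 t ht, h1]

theorem mem_np' (D : Option ℕ) : InNP (DMVP (dO D)) := by
  refine inNP_of_list _ (vr D) (fun E _ => poly_vr D) (3 * X + 1) (fun x y h => sound_vr h)
    fun x hx => ?_
  obtain ⟨y, h1, h2, h3⟩ := complete_vr hx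
  refine ⟨y, ?_, fun a ha => (h2 a ha).trans ?_, h3⟩
  · simpa using h1
  · simp only [eval_add, eval_mul, eval_X, eval_ofNat, eval_one]
    omega

/-- Membership in NP. -/
theorem mem_np (Δ : ℕ∞) : InNP (DMVP Δ) := by
  induction Δ using ENat.recTopCoe with
  | top => exact mem_np' none
  | coe d => exact mem_np' (some d)

end

end Pool.Agent.Dm81
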