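import Pool.Agent.Lib_MP_ce2681_lc.LoopP
import Pool.Agent.Lib_MP_ce2681_lc.Bound

/-!
# The minimum cover time is computable in polynomial time for every fixed period
-/

set_option linter.unusedSectionVars false
set_option linter.unusedVariables false

namespace Pool.Agent.Dm81

open Pool.Agent.PT81 Pool.Agent.IsoImp Pool.Agent.Bx81 Pool.Agent.TW81 Turing

noncomputable section

variable {p : ℕ}

open Classical in
/-- The rows of the matrices of the snapshots. -/
def mrows (I : PTree p) : List (List Bool) :=
  (List.finRange p).flatMap fun i => (List.finRange I.n).map fun u =>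
    (List.finRange I.n).map fun v => decide ((I.snap i).Adj u v)

open Classical in
/-- The row of the start vertex. -/
def srow (I : PTree p) : List Bool := (List.finRange I.n).map fun v => decide (v = I.start)

theorem encode_eq' (I : PTree p) (bits : List Bool) :
    I.encode ++ bits.map some = unseg (mrows I ++ [srow I]) bits := by
  classical
  unfold PTree.encode unseg mrows srow
  rw [List.flatMap_append, List.flatMap_assoc]
  simp only [List.flatMap_map, List.flatMap_cons, List.flatMap_nil, List.append_nil,
    List.map_map, List.append_assoc]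
  rfl

theorem seg_encode' (I : PTree p) (bits : List Bool) :
    seg (I.encode ++ bits.map some) = mrows I ++ [srow I] ++ [bits] := by
  rw [encode_eq', seg_unseg]

theorem flatMap_getElem? {α β : Type} (L : List α) (f : α → List β) (n : ℕ)
    (hf : ∀ a ∈ L, (f a).length = n) (i u : ℕ) (hu : u < n) :
    (L.flatMap f)[i * n + u]? = (L[i]?).bind fun a => (f a)[u]? := by
  induction L generalizing i with
  | nil => simp
  | cons a L ih =>
    rw [List.flatMap_cons]
    have ha := hf a List.mem_cons_self
    cases i with
    | zero =>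
      rw [List.getElem?_append_left (by omega)]
      simp
    | succ i =>
      rw [List.getElem?_append_right (by rw [ha, Nat.add_mul]; omega), ha]
      have : (i + 1) * n + u - n = i * n + u := by
        rw [Nat.add_mul]; omega
      rw [this, ih (fun b hb => hf b (List.mem_cons_of_mem _ hb))]
      simp

theorem mrows_length (I : PTree p) : (mrows I).length = p * I.n := by
  classical
  unfold mrows
  rw [List.length_flatMap]
  simp

open Classical in
theorem mrows_get (I : PTree p) (i : Fin p) (u : Fin I.n) (r : List (List Bool)) :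
    (mrows I ++ r)[i.val * I.n + u.val]? =
      some ((List.finRange I.n).map fun v => decide ((I.snap i).Adj u v)) := by
  classical
  have h1 : i.val * I.n + u.val < (mrows I).length := by
    rw [mrows_length]
    have := i.2
    have h2 := u.2
    calc i.val * I.n + u.val < i.val * I.n + I.n := by omega
      _ = (i.val + 1) * I.n := by ring
      _ ≤ p * I.n := Nat.mul_le_mul_right _ this
  rw [List.getElem?_append_left h1]
  unfold mrows
  rw [flatMap_getElem? _ _ I.n (by simp) _ _ u.2]
  rw [List.getElem?_eq_getElem (by simp)]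
  simp only [List.getElem_finRange, Option.bind_some, List.getElem?_map]
  rw [List.getElem?_eq_getElem (by simp)]
  simp only [List.getElem_finRange, Option.map_some]
  rfl

theorem row_get {n : ℕ} (f : Fin n → Bool) (v : Fin n) :
    (((List.finRange n).map f)[v.val]?).getD false = f v := by
  rw [List.getElem?_map, List.getElem?_eq_getElem (by simp)]
  simp

theorem ent_mrows (I : PTree p) (i : Fin p) (u v : Fin I.n) (r : List (List Bool)) :
    ent (mrows I ++ r) (i.val * I.n + u.val) v.val = true ↔ (I.snap i).Adj u v := by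
  classical
  unfold ent
  rw [mrows_get, Option.getD_some, row_get]
  simp

theorem ent_srow (I : PTree p) (v : Fin I.n) (r : List (List Bool)) :
    ent (mrows I ++ (srow I :: r)) (p * I.n) v.val = true ↔ v = I.start := by
  classical
  unfold ent
  rw [List.getElem?_append_right (by rw [mrows_length]), mrows_length, Nat.sub_self]
  simp only [List.getElem?_cons_zero, Option.getD_some]
  unfold srow
  rw [row_get]
  simp

theorem head_mrows (I : PTree p) (r : List (List Bool)) :
    ((mrows I ++ r).headD []).length = I.n := by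
  classical
  have hn : 0 < I.n := lt_of_le_of_lt (Nat.zero_le _) I.start.2
  have h := mrows_get I ⟨0, I.pos⟩ ⟨0, hn⟩ r
  simp only [Nat.zero_mul, Nat.add_zero] at h
  rw [List.headD_eq_head?_getD, List.head?_eq_getElem?, h]
  simp

/-- The start vertex read off from the rows. -/
def sOf (p n : ℕ) (rows : List (List Bool)) : ℕ :=
  ((List.range n).filter fun v => ent rows (p * n) v).headD 0

theorem sOf_eq (I : PTree p) (r : List (List Bool)) :
    sOf p I.n (mrows I ++ (srow I :: r)) = I.start.val := by
  unfold sOf
  have : ((List.range I.n).filter fun v => ent (mrows I ++ (srow I :: r)) (p * I.n) v) =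
      (List.range I.n).filter fun v => decide (v = I.start.val) := by
    refine List.filter_congr fun v hv => ?_
    rw [Bool.eq_iff_iff, decide_eq_true_eq]
    have hv' := List.mem_range.1 hv
    have := ent_srow I ⟨v, hv'⟩ r
    simp only at this
    rw [this]
    exact ⟨fun h => by rw [← h], fun h => Fin.ext h⟩
  rw [this, List.headD_eq_head?_getD, List.head?_filter]
  have h2 : (List.range I.n).find? (fun v => decide (v = I.start.val)) = some I.start.val := by
    rw [List.find?_range_eq_some]
    refine ⟨by simp, List.mem_range.2 I.start.2, fun j hj => ?_⟩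
    simp only [Bool.not_eq_true', decide_eq_false_iff_not]
    omega
  rw [h2]
  rfl

variable [NeZero p]

theorem prf_mrows (I : PTree p) (i : Fin p) {u v : ℕ} (hu : u < I.n) (hv : v < I.n)
    (r : List (List Bool)) :
    prf I.n (mrows I ++ r) i u v = true ↔ (I.snap i).Adj ⟨u, hu⟩ ⟨v, hv⟩ :=
  ent_mrows I i ⟨u, hu⟩ ⟨v, hv⟩ r

theorem treeHyp (I : PTree p) (r : List (List Bool)) :
    ∃ par rk, TreeHyp p I.n (mrows I ++ r) I.start.val par rk := by
  classical
  obtain ⟨R, hR1, hR2⟩ := exists_root I.T I.tree I.start
  refine ⟨fun v => if h : v < I.n then (R.par ⟨v, h⟩).val else 0,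
    fun v => if h : v < I.n then R.rk ⟨v, h⟩ else 0, ⟨I.start.2, ?_, ?_, ?_, ?_⟩⟩
  · intro v hv _
    simp only [dif_pos hv]
    exact (R.par ⟨v, hv⟩).2
  · intro v hv hvs
    simp only [dif_pos hv, dif_pos (R.par ⟨v, hv⟩).2]
    refine R.lt ⟨v, hv⟩ ?_
    rw [hR1]
    exact fun e => hvs (congrArg Fin.val e)
  · intro i u v hu hv
    rw [Bool.eq_iff_iff, prf_mrows I i hu hv, prf_mrows I i hv hu]
    exact SimpleGraph.adj_comm _ _ _
  · intro u v hu hv
    have h1 : (∃ i : Fin p, prf I.n (mrows I ++ r) i u v = true) ↔
        I.T.Adj ⟨u, hu⟩ ⟨v, hv⟩ := by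
      unfold PTree.T
      rw [SimpleGraph.iSup_adj]
      exact exists_congr fun i => prf_mrows I i hu hv r
    rw [h1, ← hR2]
    simp only [dif_pos hu, dif_pos hv]
    show ((⟨u, hu⟩ : Fin I.n) ≠ R.root ∧ R.par ⟨u, hu⟩ = ⟨v, hv⟩) ∨
      ((⟨v, hv⟩ : Fin I.n) ≠ R.root ∧ R.par ⟨v, hv⟩ = ⟨u, hu⟩) ↔ _
    rw [hR1]
    have e1 : ∀ w (hw : w < I.n), (⟨w, hw⟩ : Fin I.n) ≠ I.start ↔ w ≠ I.start.val := by
      intro w hw
      exact not_congr ⟨fun e => congrArg Fin.val e, fun e => Fin.ext e⟩
    have e2 : ∀ (a : Fin I.n) w (hw : w < I.n), a = ⟨w, hw⟩ ↔ a.val = w := by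
      intro a w hw
      exact ⟨fun e => congrArg Fin.val e, fun e => Fin.ext e⟩
    rw [e1, e1, e2, e2]

theorem nxt_iter (t : ℕ) (hp : 0 < p) : (nxt p)^[t] (0 : Fin p) = ⟨t % p, Nat.mod_lt _ hp⟩ := by
  induction t with
  | zero => ext; simp
  | succ t ih =>
    rw [Function.iterate_succ_apply', ih]
    ext
    simp only [nxt, Fin.val_add]
    rcases Nat.lt_or_ge 1 p with h | h
    · have h1 : ((1 : Fin p).val) = 1 := by
        rw [Fin.val_one']
        exact Nat.mod_eq_of_lt h
      rw [h1]
      simp
    · have : p = 1 := by omega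
      subst this
      simp [Nat.mod_one]

theorem coverable_mov (I : PTree p) (r : List (List Bool)) (c : ℕ) :
    I.CoverableBy c ↔ ∃ x : ℕ → ℕ, x 0 = I.start.val ∧
      Mov I.n (mrows I ++ r) (0 : Fin p) c x ∧ ∀ v < I.n, ∃ t ≤ c, x t = v := by
  constructor
  · rintro ⟨x, ⟨h1, h2⟩, h3⟩
    refine ⟨fun t => (x t).val, congrArg Fin.val h1, ⟨fun t _ => (x t).2, fun t ht => ?_⟩, fun v hv => ?_⟩
    · rcases h2 t ht with h | h
      · exact Or.inl (congrArg Fin.val h.symm)
      · right
        rw [nxt_iter t I.pos, prf_mrows I _ (x t).2 (x (t + 1)).2]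
        exact h
    · obtain ⟨t, ht, h⟩ := h3 ⟨v, hv⟩
      exact ⟨t, ht, congrArg Fin.val h⟩
  · rintro ⟨x, h1, ⟨h2, h3⟩, h4⟩
    refine ⟨fun t => if h : x t < I.n then ⟨x t, h⟩ else I.start, ⟨?_, fun t ht => ?_⟩,
      fun v => ?_⟩
    · ext
      simp only [h1, dif_pos I.start.2]
    · simp only [dif_pos (h2 t ht.le), dif_pos (h2 (t + 1) ht)]
      rcases h3 t ht with h | h
      · left
        ext
        exact h.symm
      · right
        rw [nxt_iter t I.pos, prf_mrows I _ (h2 t ht.le) (h2 (t + 1) ht)] at h
        exact h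
    · obtain ⟨t, ht, h⟩ := h4 v.val v.2
      refine ⟨t, ht, ?_⟩
      simp only [dif_pos (h2 t ht)]
      ext
      exact h

variable (p) in
/-- The algorithm. -/
def solve (w : List (Option Bool)) : List Bool :=
  let rows := seg w
  let n := (rows.headD []).length
  let s := sOf p n rows
  Nat.bits ((costs p (n * n * p + 1) (n * n * p) ((stepA p n rows s (n * n * p + 1)
    (n * n * p))^[n] (al0 p n))).headD 0)

theorem solve_eq (I : PTree p) : solve p I.encode = Nat.bits I.coverTime := by
  have h0 : seg I.encode = mrows I ++ (srow I :: [[]]) := by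
    have := seg_encode' I []
    simpa using this
  unfold solve
  simp only [h0]
  rw [head_mrows, sOf_eq]
  obtain ⟨par, rk, H⟩ := treeHyp I (srow I :: [[]])
  set B := I.n * I.n * p with hB
  set al := (stepA p I.n (mrows I ++ (srow I :: [[]])) I.start.val (B + 1) B)^[I.n]
    (al0 p I.n) with hal
  have h1 : ∀ c, c ∈ costs p (B + 1) B al ↔ c ≤ B ∧ I.CoverableBy c := by
    intro c
    rw [hal, mem_costs H le_rfl, ← coverable_mov]
  have h2 : (costs p (B + 1) B al).headD 0 = I.coverTime := by
    unfold costs at h1 ⊢
    rw [List.headD_eq_head?_getD, List.head?_filter]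
    rw [(List.find?_range_eq_some (i := I.coverTime)).2 ⟨?_, ?_, ?_⟩]
    · rfl
    · have := (h1 I.coverTime).2 ⟨coverTime_le, (coverTime_le_iff _).1 le_rfl⟩
      exact (List.mem_filter.1 this).2
    · exact List.mem_range.2 (Nat.lt_succ_of_le coverTime_le)
    · intro j hj
      rw [Bool.not_eq_true']
      by_contra hcon
      rw [Bool.not_eq_false] at hcon
      have hjB : j < B + 1 := by
        have := coverTime_le (I := I)
        omega
      have := (h1 j).1 (List.mem_filter.2 ⟨List.mem_range.2 hjB, hcon⟩)
      have := (coverTime_le_iff _).2 this.2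
      omega
  rw [h2]

theorem poly_sOf {E : PT81.Env} {γ : Type} [Enc E γ] {n : γ → ℕ} {rows : γ → List (List Bool)}
    (hn : Poly E n) (hr : Poly E rows) : Poly E (fun c => sOf p (n c) (rows c)) :=
  poly_headD 0 (Poly.filter (g := fun q : γ × ℕ => ent (rows q.1) (p * n q.1) q.2) hn.range
    (poly_ent (hr.comp Poly.fst) (Poly.mul (Poly.const p) (hn.comp Poly.fst)) Poly.snd))

theorem poly_solve {E : PT81.Env} [Enc E (Option Bool)] : Poly E (solve p) := by
  have hr : Poly E (fun w : List (Option Bool) => seg w) := poly_seg Poly.id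
  have hn : Poly E (fun w : List (Option Bool) => ((seg w).headD []).length) :=
    Poly.length (poly_headD [] hr)
  have hs := poly_sOf (p := p) hn hr
  have hB := Poly.mul (Poly.mul hn hn) (Poly.const p)
  exact poly_binary (poly_headD 0 (poly_costs hB.succ hB (poly_loop hn hr hs hB.succ hB)))

/-- For every fixed period the minimum cover time is computable in polynomial time. -/
theorem q1 : Nonempty (TM2ComputableInPolyTime (fun I : PTree p => I.encode)
    (fun k : ℕ => Nat.bits k) (fun I => I.coverTime)) := by
  let _ : Enc (io (Option Bool) Bool) (Option Bool) := finEnc _ _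
  exact poly_toTM2 (poly_solve (p := p) (E := io (Option Bool) Bool)) _ _ _ fun I => solve_eq I

end

end Pool.Agent.Dm81
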