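import Pool.Agent.Lib_MP_ce2681_lc.Elim
import Pool.Agent.Lib_MP_33ea09_lc.PolyArith
import Mathlib.Data.Fintype.Option
import Mathlib.Data.Fintype.Prod

/-!
# States as vectors of numbers
-/

set_option linter.unusedSectionVars false
set_option linter.unusedVariables false

namespace Pool.Agent.Dm81

open Pool.Agent.PT81

noncomputable section

variable {p : ℕ} [NeZero p]

variable (p) in
/-- All pieces. -/
def QQ : List (Pc (Fin p)) := (Finset.univ : Finset (Pc (Fin p))).toList

variable (p) in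
/-- The next residue. -/
def nxt (i : Fin p) : Fin p := i + 1

theorem mem_QQ (q : Pc (Fin p)) : q ∈ QQ p := by simp [QQ]
theorem nodup_QQ : (QQ p).Nodup := Finset.nodup_toList _

/-- An entry of a vector. -/
def gt (l : List ℕ) (q : Pc (Fin p)) : ℕ := (l[(QQ p).idxOf q]?).getD 0

/-- The vector of a function. -/
def mk (f : Pc (Fin p) → ℕ) : List ℕ := (QQ p).map f

/-- The vector of a multiset. -/
def vec (N : Multiset (Pc (Fin p))) : List ℕ := mk fun q => N.count q

theorem gt_mk (f : Pc (Fin p) → ℕ) (q : Pc (Fin p)) : gt (mk f) q = f q := by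
  unfold gt mk
  have h : (QQ p).idxOf q < (QQ p).length := List.idxOf_lt_length_iff.2 (mem_QQ q)
  rw [List.getElem?_map, List.getElem?_eq_getElem h]
  simp [List.getElem_idxOf]

theorem gt_vec (N : Multiset (Pc (Fin p))) (q : Pc (Fin p)) : gt (vec N) q = N.count q :=
  gt_mk _ _

theorem mk_congr {f g : Pc (Fin p) → ℕ} (h : ∀ q, f q = g q) : mk f = mk g := by
  rw [funext h]

theorem vec_eq_mk {N : Multiset (Pc (Fin p))} {f : Pc (Fin p) → ℕ} :
    vec N = mk f ↔ ∀ q, N.count q = f q := by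
  constructor
  · intro h q
    have := congrArg (fun l => gt l q) h
    simpa only [gt_vec, gt_mk] using this
  · exact fun h => mk_congr h

theorem vec_inj {N N' : Multiset (Pc (Fin p))} (h : vec N = vec N') : N = N' := by
  ext q
  exact vec_eq_mk.1 h q

/-- The indicator. -/
def ind (P : Prop) [Decidable P] : ℕ := if P then 1 else 0

/-- Adding one piece. -/
def addq (q : Pc (Fin p)) (l : List ℕ) : List ℕ := mk fun r => gt l r + ind (r = q)

theorem addq_vec (q : Pc (Fin p)) (N : Multiset (Pc (Fin p))) :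
    addq q (vec N) = vec (q ::ₘ N) := by
  refine mk_congr fun r => ?_
  rw [gt_vec, Multiset.count_cons]
  rfl

/-- Two pieces can be concatenated. -/
def canCat (a b : Pc (Fin p)) (l : List ℕ) : Bool :=
  (QQ p).all fun r => decide (ind (r = a) + ind (r = b) ≤ gt l r)

/-- Replacing two pieces by one. -/
def catq (a b d : Pc (Fin p)) (l : List ℕ) : List ℕ :=
  mk fun r => gt l r - ind (r = a) - ind (r = b) + ind (r = d)

theorem cat_vec (a b d : Pc (Fin p)) (N : Multiset (Pc (Fin p))) :
    canCat a b (vec N) = true ↔ ∃ R, N = a ::ₘ b ::ₘ R := by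
  unfold canCat
  rw [List.all_eq_true]
  constructor
  · intro h
    have hle : a ::ₘ b ::ₘ 0 ≤ N := by
      rw [Multiset.le_iff_count]
      intro r
      have := h r (mem_QQ r)
      rw [decide_eq_true_eq, gt_vec] at this
      rw [Multiset.count_cons, Multiset.count_cons, Multiset.count_zero]
      unfold ind at this
      omega
    obtain ⟨R, hR⟩ := Multiset.le_iff_exists_add.1 hle
    exact ⟨R, by rw [hR]; simp⟩
  · rintro ⟨R, rfl⟩ r _
    rw [decide_eq_true_eq, gt_vec, Multiset.count_cons, Multiset.count_cons]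
    unfold ind
    omega

theorem catq_vec (a b d : Pc (Fin p)) (R : Multiset (Pc (Fin p))) :
    catq a b d (vec (a ::ₘ b ::ₘ R)) = vec (d ::ₘ R) := by
  refine mk_congr fun r => ?_
  rw [gt_vec, Multiset.count_cons, Multiset.count_cons, Multiset.count_cons]
  unfold ind
  omega

variable (p) in
def zs : List (Fin p) := (Finset.univ : Finset (Fin p)).toList
variable (p) in
def ts : List (Fin p × Pc (Fin p)) := (Finset.univ : Finset (Fin p × Pc (Fin p))).toList

theorem mem_zs (q : Fin p) : q ∈ zs p := by simp [zs]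
theorem mem_ts (q : Fin p × Pc (Fin p)) : q ∈ ts p := by simp [ts]

variable (p) in
/-- The successors of a state. -/
def succs (x : List ℕ × ℕ) : List (List ℕ × ℕ) :=
  ((zs p).flatMap fun i => [(addq (wP (nxt p) i) x.1, x.2 + 1), (addq (eP i) x.1, x.2),
    (addq (sP i) x.1, x.2)]) ++
  (ts p).flatMap fun t => if canCat (t.1, some t.2.1) t.2 x.1 then
    [(catq (t.1, some t.2.1) t.2 (t.1, t.2.2) x.1, x.2)] else []

theorem mem_succs (x : Sta (Fin p)) (y : List ℕ × ℕ) :
    y ∈ succs p (vec x.1, x.2) ↔ ∃ z, Rst (nxt p) x z ∧ y = (vec z.1, z.2) := by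
  obtain ⟨N, c⟩ := x
  unfold succs
  simp only [List.mem_append, List.mem_flatMap, addq_vec]
  constructor
  · rintro (⟨i, _, h⟩ | ⟨t, _, h⟩)
    · simp only [List.mem_cons, List.not_mem_nil, or_false] at h
      rcases h with rfl | rfl | rfl
      · exact ⟨_, .wait i N c, rfl⟩
      · exact ⟨_, .emp i N c, rfl⟩
      · exact ⟨_, .stp i N c, rfl⟩
    · split at h
      · rename_i hc
        obtain ⟨R, rfl⟩ := (cat_vec _ _ (t.1, t.2.2) N).1 hc
        rw [catq_vec, List.mem_singleton] at h
        subst h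
        obtain ⟨i, j, k⟩ := t
        exact ⟨_, .cat i j k R c, rfl⟩
      · simp at h
  · rintro ⟨z, hz, rfl⟩
    cases hz with
    | wait i _ _ => exact Or.inl ⟨i, mem_zs i, by simp⟩
    | emp i _ _ => exact Or.inl ⟨i, mem_zs i, by simp⟩
    | stp i _ _ => exact Or.inl ⟨i, mem_zs i, by simp⟩
    | cat i j k R _ =>
      refine Or.inr ⟨(i, (j, k)), mem_ts _, ?_⟩
      rw [if_pos ((cat_vec _ _ (i, k) _).2 ⟨R, rfl⟩), catq_vec]
      simp

/-- The caps. -/
def okS (K B : ℕ) (y : List ℕ × ℕ) : Bool := y.1.all (fun a => decide (a ≤ K)) && decide (y.2 ≤ B)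

/-- The caps for states. -/
def capS (K B : ℕ) (x : Sta (Fin p)) : Prop := okS K B (vec x.1, x.2) = true

theorem capS_of {K B : ℕ} (x : Sta (Fin p)) (h1 : x.1.card ≤ K) (h2 : x.2 ≤ B) :
    capS K B x := by
  unfold capS okS vec mk
  simp only [List.all_map, Bool.and_eq_true, List.all_eq_true, Function.comp,
    decide_eq_true_eq]
  exact ⟨fun q _ => (Multiset.count_le_card _ _).trans h1, h2⟩

/-- The states of a list of vectors. -/
def den (S : List (List ℕ × ℕ)) : Set (Sta (Fin p)) := {x | (vec x.1, x.2) ∈ S}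

variable (p) in
/-- All entries are vectors. -/
def Good (S : List (List ℕ × ℕ)) : Prop := ∀ y ∈ S, ∃ N : Multiset (Pc (Fin p)), y.1 = vec N

variable (p) in
/-- One round of the closure. -/
def stepC (K B : ℕ) (S : List (List ℕ × ℕ)) : List (List ℕ × ℕ) :=
  ddup (S ++ (S.flatMap (succs p)).filter (okS K B))

variable (p) in
/-- The closure. -/
def cloL (K B M : ℕ) (S : List (List ℕ × ℕ)) : List (List ℕ × ℕ) := (stepC p K B)^[M] S

theorem mem_stepC {K B : ℕ} {S : List (List ℕ × ℕ)} {y : List ℕ × ℕ} :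
    y ∈ stepC p K B S ↔ y ∈ S ∨ (∃ x ∈ S, y ∈ succs p x) ∧ okS K B y = true := by
  unfold stepC
  rw [(ddup_spec _).2, List.mem_append, List.mem_filter, List.mem_flatMap]

theorem stepC_spec {K B : ℕ} {S : List (List ℕ × ℕ)} (h : Good p S) :
    Good p (stepC p K B S) ∧ ∀ y : Sta (Fin p), y ∈ den (stepC p K B S) ↔
      y ∈ den S ∨ ∃ x ∈ den S, RC (nxt p) (capS K B) x y := by
  constructor
  · intro y hy
    rw [mem_stepC] at hy
    rcases hy with hy | ⟨⟨x, hx, hy⟩, _⟩
    · exact h y hy
    · obtain ⟨N, hN⟩ := h x hx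
      have : x = (vec N, x.2) := by rw [← hN]
      rw [this] at hy
      obtain ⟨z, _, rfl⟩ := (mem_succs (N, x.2) y).1 hy
      exact ⟨z.1, rfl⟩
  · intro y
    show (vec y.1, y.2) ∈ stepC p K B S ↔ _
    rw [mem_stepC]
    refine or_congr Iff.rfl ?_
    constructor
    · rintro ⟨⟨x, hx, hy⟩, hok⟩
      obtain ⟨N, hN⟩ := h x hx
      have hx' : x = (vec N, x.2) := by rw [← hN]
      rw [hx'] at hy
      obtain ⟨z, hz, hzy⟩ := (mem_succs (N, x.2) _).1 hy
      rw [Prod.mk.injEq] at hzy
      have : z = y := Prod.ext (vec_inj hzy.1.symm) hzy.2.symm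
      subst this
      refine ⟨(N, x.2), ?_, hz, hok⟩
      show (vec N, x.2) ∈ S
      rw [← hx']; exact hx
    · rintro ⟨x, hx, hz, hok⟩
      exact ⟨⟨(vec x.1, x.2), hx, (mem_succs x _).2 ⟨y, hz, rfl⟩⟩, hok⟩

theorem clo_succ {cap : Sta (Fin p) → Prop} {M : ℕ} {S : Set (Sta (Fin p))} (y : Sta (Fin p)) :
    y ∈ Clo (nxt p) cap (M + 1) S ↔ y ∈ Clo (nxt p) cap M S ∨
      ∃ x ∈ Clo (nxt p) cap M S, RC (nxt p) cap x y := by
  constructor
  · rintro ⟨x, hx, n, hn, h⟩
    by_cases h0 : n ≤ M
    · exact Or.inl ⟨x, hx, n, h0, h⟩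
    · have : n = M + 1 := by omega
      subst this
      cases h with
      | @tail _ _ z _ h1 h2 => exact Or.inr ⟨z, ⟨x, hx, M, le_rfl, h1⟩, h2⟩
  · rintro (⟨x, hx, n, hn, h⟩ | ⟨z, ⟨x, hx, n, hn, h⟩, h2⟩)
    · exact ⟨x, hx, n, by omega, h⟩
    · exact ⟨x, hx, n + 1, by omega, h.tail h2⟩

theorem cloL_spec {K B M : ℕ} {S : List (List ℕ × ℕ)} (h : Good p S) :
    Good p (cloL p K B M S) ∧
      (den (cloL p K B M S) : Set (Sta (Fin p))) = Clo (nxt p) (capS K B) M (den S) := by
  induction M with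
  | zero =>
    refine ⟨h, ?_⟩
    ext y
    constructor
    · intro hy
      exact ⟨y, hy, 0, le_rfl, .refl _⟩
    · rintro ⟨x, hx, n, hn, h⟩
      have : n = 0 := by omega
      subst this
      cases h
      exact hx
  | succ M ih =>
    have e : cloL p K B (M + 1) S = stepC p K B (cloL p K B M S) := by
      unfold cloL
      rw [Function.iterate_succ_apply']
    rw [e]
    obtain ⟨h1, h2⟩ := stepC_spec (K := K) (B := B) ih.1
    refine ⟨h1, ?_⟩
    ext y
    rw [h2, clo_succ, ih.2]

/-! ### Combination -/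

/-- The sum of two vectors. -/
def addv (a b : List ℕ) : List ℕ := mk fun q : Pc (Fin p) => gt a q + gt b q

/-- The shifted vector. -/
def shv (l : List ℕ) : List ℕ := mk fun q : Pc (Fin p) => gt l (q.1 + 1, q.2.map fun j => j - 1)

variable (p) in
/-- The number of edge crossings. -/
def crv (l : List ℕ) : ℕ := ((QQ p).map fun q => gt l q * (if q.2.isSome then 2 else 1)).sum

/-- Presence of the edge at a residue. -/
def prb (prs : List Bool) (i : Fin p) : Bool := (prs[i.val]?).getD false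

variable (p) in
/-- Test of a state of a child. -/
def gdv (prs : List Bool) (l : List ℕ) : Bool :=
  ((QQ p).any fun q => !decide (gt l q = 0)) && (QQ p).all fun q => decide (gt l q = 0) ||
    (prb prs (q.1 - 1) && match q.2 with
      | none => true
      | some j => prb prs j)

variable (p) in
/-- The combination of the states of a vertex with those of a child. -/
def combL (prs : List Bool) (K B : ℕ) (S S' : List (List ℕ × ℕ)) : List (List ℕ × ℕ) :=
  ddup ((S.flatMap fun a => S'.flatMap fun b => if gdv p prs b.1 then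
    [(addv (p := p) a.1 (shv (p := p) b.1), a.2 + b.2 + crv p b.1)] else []).filter (okS K B))

theorem mem_combL {prs : List Bool} {K B : ℕ} {S S' : List (List ℕ × ℕ)} {y : List ℕ × ℕ} :
    y ∈ combL p prs K B S S' ↔ (∃ a ∈ S, ∃ b ∈ S', gdv p prs b.1 = true ∧
      y = (addv (p := p) a.1 (shv (p := p) b.1), a.2 + b.2 + crv p b.1)) ∧ okS K B y = true := by
  unfold combL
  rw [(ddup_spec _).2, List.mem_filter, List.mem_flatMap]
  refine and_congr ?_ Iff.rfl
  refine exists_congr fun a => and_congr Iff.rfl ?_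
  rw [List.mem_flatMap]
  refine exists_congr fun b => and_congr Iff.rfl ?_
  split
  · rename_i h
    rw [List.mem_singleton]
    simp [h]
  · rename_i h
    simp [h]

/-- The excursions of a multiset of inner pieces. -/
def unI (C : Multiset (Pc (Fin p))) : Multiset (Pc (Fin p)) := C.map fun q => (q.1 - 1, q.2)

theorem unI_dI (C : Multiset (Pc (Fin p))) : (unI C).map (dI (nxt p)) = C := by
  unfold unI
  rw [Multiset.map_map]
  conv_rhs => rw [← Multiset.map_id C]
  refine Multiset.map_congr rfl fun q _ => ?_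
  simp [dI, nxt]

theorem dI_unI (D : Multiset (Pc (Fin p))) : unI (D.map (dI (nxt p))) = D := by
  unfold unI
  rw [Multiset.map_map]
  conv_rhs => rw [← Multiset.map_id D]
  refine Multiset.map_congr rfl fun q _ => ?_
  simp [dI, nxt]

theorem dS_inj : Function.Injective (dS (nxt p)) := by
  rintro ⟨i, k⟩ ⟨i', k'⟩ h
  simp only [dS, Prod.mk.injEq] at h
  obtain ⟨h1, h2⟩ := h
  have : Function.Injective (nxt p) := fun a b h => by simpa [nxt] using h
  rw [Prod.mk.injEq]
  exact ⟨h1, Option.map_injective this h2⟩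

theorem dI_inj : Function.Injective (dI (nxt p)) := by
  rintro ⟨i, k⟩ ⟨i', k'⟩ h
  simp only [dI, Prod.mk.injEq, nxt] at h
  rw [Prod.mk.injEq]
  exact ⟨by simpa using h.1, h.2⟩

theorem shv_vec (D : Multiset (Pc (Fin p))) :
    shv (p := p) (vec (D.map (dI (nxt p)))) = vec (D.map (dS (nxt p))) := by
  refine mk_congr fun q => ?_
  obtain ⟨i, k⟩ := q
  rw [gt_vec]
  have e1 : ((i + 1, k.map fun j => j - 1) : Pc (Fin p)) = dI (nxt p) (i, k.map fun j => j - 1) :=
    rfl
  have e2 : ((i, k) : Pc (Fin p)) = dS (nxt p) (i, k.map fun j => j - 1) := by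
    simp only [dS, Option.map_map, Prod.mk.injEq, true_and]
    cases k <;> simp [nxt]
  rw [e1, e2, Multiset.count_map_eq_count' _ _ dI_inj, Multiset.count_map_eq_count' _ _ dS_inj]

theorem crv_vec (D : Multiset (Pc (Fin p))) :
    crv p (vec (D.map (dI (nxt p)))) = (D.map dC).sum := by
  unfold crv
  simp only [gt_vec]
  have h : ∀ C : Multiset (Pc (Fin p)), (((QQ p).map fun q => C.count q *
      (if q.2.isSome then 2 else 1)).sum) = (C.map dC).sum := by
    intro C
    rw [Finset.sum_multiset_map_count]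
    unfold QQ
    rw [Finset.sum_map_toList]
    refine (Finset.sum_subset (Finset.subset_univ _) fun q _ hq => ?_).symm
    rw [Multiset.mem_toFinset, ← Multiset.count_eq_zero] at hq
    rw [hq]; simp
  rw [h, Multiset.map_map]
  rfl

theorem addv_vec (N D : Multiset (Pc (Fin p))) :
    addv (p := p) (vec N) (vec D) = vec (N + D) := by
  refine mk_congr fun q => ?_
  rw [gt_vec, gt_vec, Multiset.count_add]

theorem gdv_vec {V : Type} {pr : Fin p → V → V → Prop} {prs : List Bool} {u v : V}
    (h1 : ∀ i, prb prs i = true ↔ pr i u v) (h2 : ∀ i, prb prs i = true ↔ pr i v u)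
    (D : Multiset (Pc (Fin p))) :
    gdv p prs (vec (D.map (dI (nxt p)))) = true ↔
      D ≠ 0 ∧ ∀ d ∈ D, pr d.1 u v ∧ ∀ j, d.2 = some j → pr j v u := by
  unfold gdv
  simp only [gt_vec, Bool.and_eq_true, List.any_eq_true, List.all_eq_true, Bool.or_eq_true,
    decide_eq_true_eq, Bool.not_eq_true', decide_eq_false_iff_not, Multiset.count_eq_zero,
    not_not]
  refine and_congr ?_ ?_
  · constructor
    · rintro ⟨q, _, hq⟩ rfl
      simp at hq
    · intro h
      obtain ⟨d, hd⟩ := Multiset.exists_mem_of_ne_zero h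
      exact ⟨_, mem_QQ _, Multiset.mem_map_of_mem _ hd⟩
  · constructor
    · intro h d hd
      obtain ⟨i, k⟩ := d
      rcases h (dI (nxt p) (i, k)) (mem_QQ _) with h | ⟨h3, h4⟩
      · exact absurd (Multiset.mem_map_of_mem _ hd) h
      · have e : (dI (nxt p) (i, k)).1 - 1 = i := by simp [dI, nxt]
        rw [e] at h3
        refine ⟨(h1 i).1 h3, ?_⟩
        rintro j rfl
        exact (h2 j).1 h4
    · intro h q _
      by_cases hq : q ∈ D.map (dI (nxt p))
      · right
        obtain ⟨⟨i, k⟩, hd, rfl⟩ := Multiset.mem_map.1 hq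
        obtain ⟨h3, h4⟩ := h _ hd
        have e : (dI (nxt p) (i, k)).1 - 1 = i := by simp [dI, nxt]
        rw [e]
        refine ⟨(h1 i).2 h3, ?_⟩
        cases k with
        | none => rfl
        | some j => exact (h2 j).2 (h4 j rfl)
      · exact Or.inl hq

theorem combL_spec {V : Type} [DecidableEq V] {pr : Fin p → V → V → Prop} {prs : List Bool}
    {u v : V} (h1 : ∀ i, prb prs i = true ↔ pr i u v) (h2 : ∀ i, prb prs i = true ↔ pr i v u)
    {K B : ℕ} {S S' : List (List ℕ × ℕ)} (hS : Good p S) (hS' : Good p S') :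
    Good p (combL p prs K B S S') ∧
      (den (combL p prs K B S S') : Set (Sta (Fin p))) =
        Comb (nxt p) pr (capS K B) u v (den S) (den S') := by
  have key : ∀ a ∈ S, ∀ b ∈ S', ∃ (N D : Multiset (Pc (Fin p))), a = (vec N, a.2) ∧
      b = (vec (D.map (dI (nxt p))), b.2) ∧
      (addv (p := p) a.1 (shv (p := p) b.1), a.2 + b.2 + crv p b.1) =
        (vec (N + D.map (dS (nxt p))), a.2 + b.2 + (D.map dC).sum) := by
    intro a ha b hb
    obtain ⟨N, hN⟩ := hS a ha
    obtain ⟨C, hC⟩ := hS' b hb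
    refine ⟨N, unI C, by rw [← hN], by rw [unI_dI, ← hC], ?_⟩
    have hC' : b.1 = vec ((unI C).map (dI (nxt p))) := by rw [unI_dI, hC]
    rw [hC', hN, shv_vec, addv_vec, crv_vec]
  constructor
  · intro y hy
    obtain ⟨⟨a, ha, b, hb, _, rfl⟩, _⟩ := mem_combL.1 hy
    obtain ⟨N, D, _, _, h⟩ := key a ha b hb
    rw [h]
    exact ⟨_, rfl⟩
  · ext y
    show (vec y.1, y.2) ∈ combL p prs K B S S' ↔ _
    rw [mem_combL]
    constructor
    · rintro ⟨⟨a, ha, b, hb, hg, hy⟩, hok⟩
      obtain ⟨N, D, h3, h4, h5⟩ := key a ha b hb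
      rw [h5, Prod.mk.injEq] at hy
      rw [h4, gdv_vec h1 h2] at hg
      refine ⟨hok, (N, a.2), ?_, D, b.2, ?_, hg.1, hg.2, ?_⟩
      · show (vec N, a.2) ∈ S
        rw [← h3]; exact ha
      · show (vec (D.map (dI (nxt p))), b.2) ∈ S'
        rw [← h4]; exact hb
      · exact Prod.ext (vec_inj hy.1) hy.2
    · rintro ⟨hok, x, hx, D, c, hD, h3, h4, rfl⟩
      refine ⟨⟨(vec x.1, x.2), hx, (vec (D.map (dI (nxt p))), c), hD,
        (gdv_vec h1 h2 D).2 ⟨h3, h4⟩, ?_⟩, hok⟩
      simp only
      rw [shv_vec, addv_vec, crv_vec]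

end

end Pool.Agent.Dm81
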